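import Pool.Agent.helper57.HPT.RtC
import Pool.Agent.UQ.Sk.Bridge
import Pool.Agent.helper72.HP.A9
import Pool.Agent.helper72.HP.M2

/-!
`CMGoal` (MP_5ae64c_pr, functional form, part C): macroscopic smoothness of the conditional mean of the
profile given a skeleton.
-/

set_option autoImplicit false

open scoped BigOperators Topology
open Filter MeasureTheory

namespace Pool.Agent.helper57.HPT

open Pool.Agent.helper72.UT (IsFor dep pth rt fors Reg lz)
open Pool.Agent.helper20.HP (HW Par IsKer Setup wd M2_reg M2_kernel par_eventually tmix_small tmix)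
open Pool.Agent.helper90.FN (Cl PhiD BR_stmt CMGoal)
open Pool.Agent.UQ.Sk (Rt Bridge_ok bridge PhiD_window)

theorem CM_num (C0 A1 B J w a L q C c n : ℝ) (hC0 : 1 ≤ C0) (hA1 : 1 ≤ A1) (hB : 1 ≤ B)
    (hJ0 : 0 ≤ J) (hJ : J ≤ B) (hw : 0 ≤ w) (ha : 0 ≤ a) (hL : 0 < L) (hq : n ^ (-c) = 1 / q)
    (hq0 : 0 < q) (hC1 : C0 * A1 ^ 2 ≤ C) (hC3 : 3 ≤ C) :
    C0 * ((A1 * B) ^ 2 * J) * (w * (a + L / q)) ≤ C * B ^ C * (w * L) * (a / L + n ^ (-c)) := by
  have h1 : B ^ 3 ≤ B ^ C := by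
    have h2 : B ^ ((3 : ℕ) : ℝ) ≤ B ^ C := Real.rpow_le_rpow_of_exponent_le hB (by push_cast; exact hC3)
    rwa [Real.rpow_natCast] at h2
  have h3 : (w * L) * (a / L + n ^ (-c)) = w * (a + L / q) := by
    rw [hq]
    field_simp
  have hC : 0 ≤ C := by linarith
  rw [mul_assoc (C * B ^ C), h3]
  have h5 : 0 ≤ w * (a + L / q) := by positivity
  calc C0 * ((A1 * B) ^ 2 * J) * (w * (a + L / q)) ≤ C0 * ((A1 * B) ^ 2 * B) * (w * (a + L / q)) := by
        gcongr
    _ = (C0 * A1 ^ 2) * B ^ 3 * (w * (a + L / q)) := by ring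
    _ ≤ C * B ^ C * (w * (a + L / q)) := by gcongr

/-- one sided version along a sequence -/
theorem CM_one (hBR : BR_stmt) (S : Setup) (K : ∀ k, HW (S.V k)) (hK : IsKer S K) (A : ℝ) :
    ∃ c C : ℝ, 0 < c ∧ 1 ≤ C ∧ ∀ᶠ k in atTop,
    ∀ f ∈ fors (S.G k) {S.o k}, ∀ D : Finset (S.V k), Cl {S.o k} D f → ∀ B : ℝ, 1 ≤ B →
    (D.card : ℝ) ≤ B * Nat.sqrt (Fintype.card (S.V k)) →
    (∀ q, ((D.filter (fun x => dep {S.o k} f x = q)).card : ℝ) ≤ B) →
    ∀ r a w : ℕ, (r : ℝ) + a + w ≤ A * Nat.sqrt (Fintype.card (S.V k)) →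
      wd (Fintype.card (S.V k)) S.a ≤ w →
      |PhiD (S.G k) (S.o k) f D (r + a) w - PhiD (S.G k) (S.o k) f D r w| ≤
        C * B ^ C * (w * Nat.sqrt (Fintype.card (S.V k))) *
          ((a : ℝ) / Nat.sqrt (Fintype.card (S.V k)) + (Fintype.card (S.V k) : ℝ) ^ (-c)) := by
  have ha0 : 0 < S.a := lt_min S.α_pos (by norm_num)
  have ha1 : S.a ≤ 1 / 4 := min_le_right _ _
  obtain ⟨C0, hC0, hrt⟩ := Rt_all (max S.θ 1)
  obtain ⟨n0, hn0⟩ := hrt S.a ha0 ha1
  obtain ⟨A1, hA1d⟩ : ∃ A1 : ℝ, A1 = max A 1 := ⟨_, rfl⟩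
  have hA1 : 1 ≤ A1 := by rw [hA1d]; exact le_max_right _ _
  have hAA1 : A ≤ A1 := by rw [hA1d]; exact le_max_left _ _
  refine ⟨S.a / 16, max (C0 * A1 ^ 2) 3, by positivity, ?_, ?_⟩
  · exact le_trans (by norm_num) (le_max_right _ _)
  filter_upwards [par_eventually S K hK, tmix_small S 1 one_pos, S.card.eventually_ge_atTop n0,
    S.card.eventually_ge_atTop 2] with k hP htm hcard hcard2
  intro f hf D hD B hB hDc hwid r a w hr hw
  obtain ⟨d, hReg⟩ := M2_reg (S.G k) (S.conn k) (S.trans k) hcard2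
  have hKp := M2_kernel hReg (K k) (fun t x y => hK k t x y)
  rw [one_mul] at htm
  have hn1 : (1 : ℝ) ≤ Fintype.card (S.V k) := by
    have : 1 ≤ Fintype.card (S.V k) := by omega
    exact_mod_cast this
  have hn0' : (0 : ℝ) < Fintype.card (S.V k) := by linarith
  have hL1 : 1 ≤ Nat.sqrt (Fintype.card (S.V k)) := Nat.sqrt_pos.mpr (by omega)
  have hL : (0 : ℝ) < Nat.sqrt (Fintype.card (S.V k)) := by exact_mod_cast hL1
  have hJ1 : 1 ≤ ⌊B⌋₊ := by
    rw [Nat.one_le_floor_iff]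
    exact hB
  have hJB : (⌊B⌋₊ : ℝ) ≤ B := Nat.floor_le (by linarith)
  have hok := Bridge_ok hf hD hJ1 (fun q => Nat.le_floor (hwid q))
  have hB0 : 0 ≤ B := by linarith
  have hlen : ((D.toList.length : ℕ) : ℝ) ≤ A1 * B * Nat.sqrt (Fintype.card (S.V k)) := by
    rw [Finset.length_toList]
    refine hDc.trans ?_
    rw [mul_assoc]
    exact le_mul_of_one_le_left (by positivity) hA1
  have hr' : (r : ℝ) + a + w ≤ A1 * B * Nat.sqrt (Fintype.card (S.V k)) := by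
    refine hr.trans ?_
    have h1 : A ≤ A1 * B := hAA1.trans (le_mul_of_one_le_right (by linarith) hB)
    gcongr
  have key := hn0 (S.V k) (K k) (tmix (S.G k) + 1) hP hcard htm D.toList (Rt (S.o k) f) ⌊B⌋₊ hok
    (A1 * B) (one_le_mul_of_one_le_of_one_le hA1 hB) hlen r a w hw hr'
  have hbr : ∀ s, Phi (K k) D.toList (Rt (S.o k) f) s = PhiD (S.G k) (S.o k) f D s 1 :=
    fun s => bridge hBR hReg hKp hf hD s
  simp only [hbr] at key
  rw [← PhiD_window, ← PhiD_window] at key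
  refine key.trans ?_
  refine CM_num C0 A1 B _ w a _ _ _ (S.a / 16) _ hC0 hA1 hB (Nat.cast_nonneg _) hJB
    (Nat.cast_nonneg _) (Nat.cast_nonneg _) hL ?_ (Real.rpow_pos_of_pos hn0' _) (le_max_left _ _)
    (le_max_right _ _)
  rw [Real.rpow_neg hn0'.le, one_div]

/-- **Part C, macroscopic scale.** -/
theorem CM (hBR : BR_stmt) : CMGoal := by
  intro S K hK A
  obtain ⟨c, C, hc, hC, hev⟩ := CM_one hBR S K hK A
  refine ⟨c, C, hc, hC, ?_⟩
  filter_upwards [hev] with k hk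
  intro f hf D hD B hB hDc hwid r r' w hr hr' hw
  rcases le_total r r' with hle | hle
  · obtain ⟨a, rfl⟩ := Nat.exists_eq_add_of_le hle
    have key := hk f hf D hD B hB hDc hwid r a w (by push_cast at hr'; linarith) hw
    rw [abs_sub_comm] at key
    have e : |(r : ℝ) - ((r + a : ℕ) : ℝ)| = a := by
      push_cast
      rw [sub_add_cancel_left, abs_neg, abs_of_nonneg (Nat.cast_nonneg a)]
    rw [e]
    exact key
  · obtain ⟨a, rfl⟩ := Nat.exists_eq_add_of_le hle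
    have key := hk f hf D hD B hB hDc hwid r' a w (by push_cast at hr; linarith) hw
    have e : |((r' + a : ℕ) : ℝ) - (r' : ℝ)| = a := by
      push_cast
      rw [add_sub_cancel_left, abs_of_nonneg (Nat.cast_nonneg a)]
    rw [e]
    exact key

end Pool.Agent.helper57.HPT
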