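import Pool.Agent.helper57.HPT.F0
import Pool.Agent.UQ.Sk.EQSkel
import Pool.Agent.UQ.Sk.Bridge
import Pool.Agent.helper2.HP.F1
import Pool.Agent.helper2.HP.F2
import Pool.Agent.helper72.HP.A9
import Pool.Agent.helper72.HP.M2

/-!
`CUGoal` (MP_5ae64c_pr, functional form, part C): flatness of the conditional mean of the profile at the
scale `n^(1/2-a/8)`, given a skeleton with a bounded profile.
-/

set_option autoImplicit false

open scoped BigOperators Topology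
open Filter MeasureTheory

namespace Pool.Agent.helper57.HPT

open Pool.Agent.helper72.UT (IsFor dep pth rt fors Reg lz)
open Pool.Agent.helper20.HP (HW Par IsKer Setup wd M2_reg M2_kernel par_eventually tmix_small tmix
  fourier_flat F2_a_pos F2_a_le F2_wd_tendsto F2_wd_le)
open Pool.Agent.helper90.FN (Cl PhiD BR_stmt CUGoal)
open Pool.Agent.UQ.Sk (Rt Bridge_ok bridge PhiD_window Adm Js EQSkel eq_skel)

/-- propagation of a bound of a function above a level -/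
theorem CU_margin (F : ℕ → ℝ) (g w : ℕ) (b Q L : ℝ) (hL : 0 ≤ L) (hgw : w ≤ 2 * g) (hgb : (g : ℝ) ≤ b)
    (j : ℕ) (h0 : ∀ y : ℕ, (y : ℝ) ≤ b → F y ≤ Q * L)
    (hs : ∀ y : ℕ, (y : ℝ) ≤ b + j * ((w : ℝ) / 2) → |F y - F (y + g)| ≤ L) :
    ∀ y : ℕ, (y : ℝ) ≤ b + j * ((w : ℝ) / 2) → F y ≤ (Q + j) * L := by
  have key : ∀ i : ℕ, i ≤ j → ∀ y : ℕ, (y : ℝ) ≤ b + i * ((w : ℝ) / 2) → F y ≤ (Q + i) * L := by
    intro i
    induction i with
    | zero =>
      intro _ y hy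
      have := h0 y (by simpa using hy)
      simpa using this
    | succ i ih =>
      intro hij y hy
      push_cast at hy ⊢
      rcases le_or_gt (y : ℝ) (b + i * ((w : ℝ) / 2)) with h1 | h1
      · have := ih (by omega) y h1
        linarith
      · have hw0 : (0 : ℝ) ≤ w := Nat.cast_nonneg w
        have hi0 : (0 : ℝ) ≤ i := Nat.cast_nonneg i
        have hiw : 0 ≤ (i : ℝ) * ((w : ℝ) / 2) := by positivity
        have hgy : (g : ℝ) ≤ y := by linarith
        have hgy' : g ≤ y := by exact_mod_cast hgy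
        obtain ⟨y', rfl⟩ : ∃ y', y = y' + g := ⟨y - g, by omega⟩
        push_cast at hy h1
        have hgw' : (w : ℝ) ≤ 2 * g := by exact_mod_cast hgw
        have h2 : (y' : ℝ) ≤ b + i * ((w : ℝ) / 2) := by linarith
        have h3 := ih (by omega) y' h2
        have hij' : (i : ℝ) ≤ j := by exact_mod_cast (by omega : i ≤ j)
        have h4 := hs y' (by
          have : (i : ℝ) * ((w : ℝ) / 2) ≤ j * ((w : ℝ) / 2) := by gcongr
          linarith)
        rw [abs_le] at h4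
        linarith [h4.1]
  exact key j le_rfl

/-- comparison of the window with the level scale -/
theorem CU_wdL (S : Setup) (A : ℝ) (hA : 0 < A) :
    ∀ᶠ k in atTop, (wd (Fintype.card (S.V k)) S.a : ℝ) ≤ A * Nat.sqrt (Fintype.card (S.V k)) := by
  have ha := F2_a_pos S
  have h2 : Tendsto (fun k => ((Fintype.card (S.V k) : ℕ) : ℝ)) atTop atTop :=
    tendsto_natCast_atTop_atTop.comp S.card
  have h3 := (tendsto_rpow_atTop (show 0 < S.a / 8 by positivity)).comp h2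
  filter_upwards [h3.eventually_ge_atTop (2 / A), S.card.eventually_ge_atTop 1] with k hk hc
  simp only [Function.comp] at hk
  obtain ⟨n, hn⟩ : ∃ n : ℕ, n = Fintype.card (S.V k) := ⟨_, rfl⟩
  rw [← hn] at hk hc ⊢
  have hn1 : (1 : ℝ) ≤ n := by exact_mod_cast hc
  have hn0 : (0 : ℝ) < n := by linarith
  have e1 : (wd n S.a : ℝ) ≤ (n : ℝ) ^ (1 / 2 - S.a / 8) := Nat.floor_le (by positivity)
  have e2 : (n : ℝ) ^ (1 / 2 - S.a / 8) * (n : ℝ) ^ (S.a / 8) = (n : ℝ) ^ (1 / 2 : ℝ) := by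
    rw [← Real.rpow_add hn0]
    congr 1
    ring
  rw [← Real.sqrt_eq_rpow] at e2
  have e3 := Real.real_sqrt_le_nat_sqrt_succ (a := n)
  have e4 : (1 : ℝ) ≤ (Nat.sqrt n : ℝ) := by
    have : 1 ≤ Nat.sqrt n := Nat.sqrt_pos.mpr hc
    exact_mod_cast this
  have e5 : (wd n S.a : ℝ) * (2 / A) ≤ 2 * Nat.sqrt n := by
    calc (wd n S.a : ℝ) * (2 / A) ≤ (n : ℝ) ^ (1 / 2 - S.a / 8) * (n : ℝ) ^ (S.a / 8) := by gcongr
      _ ≤ 2 * Nat.sqrt n := by rw [e2]; linarith
  have e6 : (wd n S.a : ℝ) * (2 / A) = 2 * (wd n S.a : ℝ) / A := by ring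
  rw [e6, div_le_iff₀ hA] at e5
  linarith

theorem CU_adm (n J : ℕ) (a len : ℝ) (hn : 1 ≤ n) (ha : 0 < a) (hJ : (J : ℝ) ≤ (n : ℝ) ^ (a / 200))
    (hlen : len ≤ (n : ℝ) ^ (a / 200) * Nat.sqrt n) :
    (J : ℝ) ≤ (n : ℝ) ^ (a / 100) ∧ len ≤ (n : ℝ) ^ (1 / 2 + a / 100) := by
  have hn1 : (1 : ℝ) ≤ n := by exact_mod_cast hn
  have hn0 : (0 : ℝ) < n := by linarith
  refine ⟨hJ.trans (Real.rpow_le_rpow_of_exponent_le hn1 (by linarith)), hlen.trans ?_⟩
  have h1 : (Nat.sqrt n : ℝ) ≤ (n : ℝ) ^ (1 / 2 : ℝ) := by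
    rw [← Real.sqrt_eq_rpow]
    exact Real.nat_sqrt_le_real_sqrt
  calc (n : ℝ) ^ (a / 200) * Nat.sqrt n ≤ (n : ℝ) ^ (a / 200) * (n : ℝ) ^ (1 / 2 : ℝ) := by gcongr
    _ = (n : ℝ) ^ (a / 200 + 1 / 2) := (Real.rpow_add hn0 _ _).symm
    _ ≤ (n : ℝ) ^ (1 / 2 + a / 100) := Real.rpow_le_rpow_of_exponent_le hn1 (by linarith)

theorem CU_final (C ε ε1 Q' L w : ℝ) (hC : 0 < C) (hε : 0 < ε) (hL : 0 ≤ L) (hw : 0 < w)
    (hε1 : ε1 = ε / (2 * C)) (hwQ : 2 * C * Q' / ε ≤ w) :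
    C * (ε1 * L + Q' * L / w) ≤ ε * L := by
  have h8 : Q' * L / w ≤ ε / (2 * C) * L := by
    rw [div_le_iff₀ hw]
    rw [div_le_iff₀ hε] at hwQ
    have h12 : Q' ≤ ε / (2 * C) * w := by
      rw [div_mul_eq_mul_div, le_div_iff₀ (by positivity)]
      linarith
    calc Q' * L ≤ (ε / (2 * C) * w) * L := by gcongr
      _ = ε / (2 * C) * L * w := by ring
  calc C * (ε1 * L + Q' * L / w) ≤ C * (ε1 * L + ε / (2 * C) * L) := by gcongr
    _ = ε * L := by rw [hε1]; field_simp; ring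

theorem CU_flat (S : Setup) (K : ∀ k, HW (S.V k)) (hK : IsKer S K) (A Q ε : ℝ) (hA : 0 < A)
    (hε : 0 < ε) : ∀ᶠ k in atTop,
    ∀ (Γ : List (S.V k)) (Rp : S.V k → List (S.V k)) (J : ℕ), Ok Γ Rp J →
    (J : ℝ) ≤ (Fintype.card (S.V k) : ℝ) ^ (S.a / 200) →
    (Γ.length : ℝ) ≤ (Fintype.card (S.V k) : ℝ) ^ (S.a / 200) * Nat.sqrt (Fintype.card (S.V k)) →
    (∀ y : ℕ, (y : ℝ) ≤ A * Nat.sqrt (Fintype.card (S.V k)) →
      Phi (K k) Γ Rp y ≤ Q * Nat.sqrt (Fintype.card (S.V k))) →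
    ∀ r y : ℕ, (r : ℝ) ≤ A * Nat.sqrt (Fintype.card (S.V k)) → y < wd (Fintype.card (S.V k)) S.a →
    |Phi (K k) Γ Rp (r + y) - Phi (K k) Γ Rp r| ≤ ε * Nat.sqrt (Fintype.card (S.V k)) := by
  obtain ⟨q, hq, hshift⟩ := shift_mult (max S.θ 1)
  obtain ⟨C, hC, hflat⟩ := fourier_flat q hq
  obtain ⟨A', hA'⟩ : ∃ A' : ℝ, A' = A + 4 := ⟨_, rfl⟩
  obtain ⟨ε1, hε1⟩ : ∃ ε1 : ℝ, ε1 = ε / (2 * C) := ⟨_, rfl⟩
  have hε1pos : 0 < ε1 := by rw [hε1]; positivity
  obtain ⟨n0, hn0⟩ := hshift A' S.a ε1 (F2_a_pos S) (F2_a_le S) hε1pos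
  obtain ⟨n1, hn1⟩ := hshift A' S.a 1 (F2_a_pos S) (F2_a_le S) one_pos
  obtain ⟨Q', hQ'⟩ : ∃ Q' : ℝ, Q' = Q + 4 := ⟨_, rfl⟩
  -- roots of unity
  have hfin : {z : ℂ | z ^ q = 1}.Finite := by
    have h1 : {z : ℂ | z ^ q = 1} ⊆ ((Polynomial.nthRoots q (1 : ℂ)).toFinset : Set ℂ) := by
      intro z hz
      simp only [Finset.mem_coe, Multiset.mem_toFinset]
      exact (Polynomial.mem_nthRoots (by omega)).mpr hz
    exact (Finset.finite_toSet _).subset h1
  have evEQ : ∀ᶠ k in atTop, ∀ z ∈ {z : ℂ | z ^ q = 1}, z ≠ 1 →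
      ∀ (Γ : List (S.V k)) (Rp : S.V k → List (S.V k)) (J : ℕ), Adm (K k) S.a A Q' Γ Rp J →
      ∀ r : ℕ, (r : ℝ) ≤ A * Nat.sqrt (Fintype.card (S.V k)) →
        ‖Js (K k) Γ Rp z r (wd (Fintype.card (S.V k)) S.a)‖
          ≤ ε1 * (wd (Fintype.card (S.V k)) S.a * Nat.sqrt (Fintype.card (S.V k))) := by
    rw [eventually_all_finite hfin]
    intro z hz
    by_cases hz1 : z = 1
    · exact Eventually.of_forall fun k h => absurd hz1 h
    · filter_upwards [eq_skel S K hK q z hz hz1 hq A Q' ε1 hε1pos] with k hk _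
      exact hk
  have hwt := F2_wd_tendsto S
  filter_upwards [evEQ, par_eventually S K hK, tmix_small S 1 one_pos, S.card.eventually_ge_atTop n0,
    S.card.eventually_ge_atTop n1, S.card.eventually_ge_atTop 1, hwt.eventually_ge_atTop (2 * q),
    hwt.eventually_ge_atTop (⌈2 * C * Q' / ε⌉₊ + 1), CU_wdL S A hA] with k h1 hP h3 h4 h4' h5 h6 h7 hwA
  intro Γ Rp J hok hJ hlen hprof r y hr hy
  obtain ⟨n, hn⟩ : ∃ n : ℕ, n = Fintype.card (S.V k) := ⟨_, rfl⟩
  obtain ⟨L, hL⟩ : ∃ L : ℕ, L = Nat.sqrt (Fintype.card (S.V k)) := ⟨_, rfl⟩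
  obtain ⟨w, hw⟩ : ∃ w : ℕ, w = wd (Fintype.card (S.V k)) S.a := ⟨_, rfl⟩
  have hL1 : 1 ≤ L := by rw [hL]; exact Nat.sqrt_pos.mpr h5
  have hL1' : (1 : ℝ) ≤ L := by exact_mod_cast hL1
  have hwL : (w : ℝ) ≤ 2 * L := by rw [hw, hL]; exact F2_wd_le _ S.a h5 (F2_a_pos S).le
  have hwfl : (w : ℝ) ≤ (Fintype.card (S.V k) : ℝ) ^ (1 / 2 - S.a / 8) := by
    rw [hw]; exact Nat.floor_le (by positivity)
  rw [one_mul] at h3
  rw [← hw] at hwA h6 h7 hy
  have hwpos : (0 : ℝ) < w := by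
    have : 0 < w := by omega
    exact_mod_cast this
  -- the bound of the profile a bit above `A L`
  have hmargin : ∀ y : ℕ, (y : ℝ) ≤ A * L + ((4 : ℕ) : ℝ) * ((w : ℝ) / 2) →
      Phi (K k) Γ Rp y ≤ (Q + ((4 : ℕ) : ℝ)) * L := by
    have hv : 1 ≤ w / q := by
      rw [Nat.one_le_div_iff (by omega)]
      omega
    have hg1 : q * (w / q) ≤ w := Nat.mul_div_le w q
    have hg2 : w ≤ 2 * (q * (w / q)) := by
      have := Nat.lt_mul_div_succ w (show 0 < q by omega)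
      have e : q * (w / q + 1) = q * (w / q) + q := by ring
      omega
    have hg1' : ((q * (w / q) : ℕ) : ℝ) ≤ w := by exact_mod_cast hg1
    refine CU_margin (fun y => Phi (K k) Γ Rp y) (q * (w / q)) w (A * L) Q L (by linarith) hg2
      ?_ 4 ?_ ?_
    · rw [hL]; exact hg1'.trans hwA
    · rw [hL]; exact hprof
    · intro y hy
      have h9 := hn1 (S.V k) (K k) (tmix (S.G k) + 1) hP h4' h3 Γ Rp J hok hJ hlen y (w / q)
        (by
          rw [← hL, hA']
          push_cast at hy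
          linarith) hv (by
            have : (0 : ℝ) ≤ (Fintype.card (S.V k) : ℝ) ^ (1 / 2 - S.a / 8) := by positivity
            linarith)
      rw [one_mul, ← hL] at h9
      exact h9
  have hQ4 : Q + ((4 : ℕ) : ℝ) = Q' := by rw [hQ']; norm_num
  rw [hQ4] at hmargin
  obtain ⟨hJ', hlen'⟩ := CU_adm (Fintype.card (S.V k)) J S.a Γ.length h5 (F2_a_pos S) hJ hlen
  have hadm : Adm (K k) S.a A Q' Γ Rp J := by
    refine ⟨hok, hJ', hlen', fun y hy => ?_⟩
    rw [← hL]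
    apply hmargin
    rw [← hL, ← hw] at hy
    push_cast
    linarith
  have key := hflat (Phi (K k) Γ Rp) w r (ε1 * L) (Q' * L) (by positivity) (by omega) ?_ ?_ ?_ y hy 0
    (by omega)
  · rw [add_zero] at key
    rw [← hL]
    refine key.trans ?_
    refine CU_final C ε ε1 Q' L w hC hε (by linarith) hwpos hε1 ?_
    have h10 : (⌈2 * C * Q' / ε⌉₊ : ℝ) + 1 ≤ (w : ℝ) := by exact_mod_cast h7
    have h11 := Nat.le_ceil (2 * C * Q' / ε)
    linarith
  · intro y hy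
    rw [abs_of_nonneg (Phi_nonneg (K k) Γ Rp _)]
    apply hmargin
    have hy' : (y : ℝ) ≤ w := by exact_mod_cast hy.le
    rw [← hL] at hr
    push_cast
    linarith
  · intro z hz hz1
    have := h1 z hz hz1 Γ Rp J hadm r hr
    unfold Js at this
    rw [← hL, ← hw] at this
    refine this.trans (le_of_eq ?_)
    ring
  · intro y v hv hyv
    have hy' : (y : ℝ) ≤ w := by
      have : y ≤ w := by omega
      exact_mod_cast this
    rw [hL]
    rw [← hL] at hr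
    refine hn0 (S.V k) (K k) (tmix (S.G k) + 1) hP h4 h3 Γ Rp J hok hJ hlen (r + y) v ?_ hv ?_
    · push_cast
      rw [← hL, hA']
      linarith
    · have h8 : q * v ≤ w := by omega
      have h9 : ((q * v : ℕ) : ℝ) ≤ w := by exact_mod_cast h8
      linarith

/-- **Part C, unit scale.** -/
theorem CU (hBR : BR_stmt) : CUGoal := by
  intro S K hK A Q ε hε
  have ha := F2_a_pos S
  refine ⟨S.a / 200, by positivity, ?_⟩
  rcases le_or_gt A 0 with hA | hA
  · refine Eventually.of_forall fun k => ?_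
    intro f hf D hD hDc hwid hprof r r' hr hr' hrr
    have hL0 : (0 : ℝ) ≤ Nat.sqrt (Fintype.card (S.V k)) := Nat.cast_nonneg _
    have h0 : A * Nat.sqrt (Fintype.card (S.V k)) ≤ 0 := mul_nonpos_of_nonpos_of_nonneg hA hL0
    have e1 : r = 0 := by
      have : (r : ℝ) ≤ ((0 : ℕ) : ℝ) := by rw [Nat.cast_zero]; linarith
      exact Nat.le_zero.1 (Nat.cast_le.1 this)
    have e2 : r' = 0 := by
      have : (r' : ℝ) ≤ ((0 : ℕ) : ℝ) := by rw [Nat.cast_zero]; linarith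
      exact Nat.le_zero.1 (Nat.cast_le.1 this)
    rw [e1, e2, sub_self, abs_zero]
    positivity
  · filter_upwards [CU_flat S K hK A Q (ε / 2) hA (by positivity), S.card.eventually_ge_atTop 2,
      (F2_wd_tendsto S).eventually_ge_atTop 2] with k hk hcard2 hw2
    intro f hf D hD hDc hwid hprof
    obtain ⟨d, hReg⟩ := M2_reg (S.G k) (S.conn k) (S.trans k) hcard2
    have hKp := M2_kernel hReg (K k) (fun t x y => hK k t x y)
    have hn1 : (1 : ℝ) ≤ Fintype.card (S.V k) := by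
      have : 1 ≤ Fintype.card (S.V k) := by omega
      exact_mod_cast this
    obtain ⟨X, hX⟩ : ∃ X : ℝ, X = (Fintype.card (S.V k) : ℝ) ^ (S.a / 200) := ⟨_, rfl⟩
    have hX1 : 1 ≤ X := by rw [hX]; exact Real.one_le_rpow hn1 (by positivity)
    have hJ1 : 1 ≤ ⌊X⌋₊ := by
      rw [Nat.one_le_floor_iff]
      exact hX1
    have hJX : (⌊X⌋₊ : ℝ) ≤ X := Nat.floor_le (by linarith)
    have hok := Bridge_ok hf hD hJ1 (fun q => Nat.le_floor (by rw [hX]; exact hwid q))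
    have hbr : ∀ s, Phi (K k) D.toList (Rt (S.o k) f) s = PhiD (S.G k) (S.o k) f D s 1 :=
      fun s => bridge hBR hReg hKp hf hD s
    have key := hk D.toList (Rt (S.o k) f) ⌊X⌋₊ hok (by rw [← hX]; exact hJX)
      (by rw [Finset.length_toList]; exact hDc) (by intro y hy; rw [hbr]; exact hprof y hy)
    simp only [hbr] at key
    -- one direction
    have one : ∀ r r' : ℕ, r ≤ r' → (r : ℝ) ≤ A * Nat.sqrt (Fintype.card (S.V k)) →
        (r' : ℝ) ≤ A * Nat.sqrt (Fintype.card (S.V k)) → r' ≤ r + wd (Fintype.card (S.V k)) S.a →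
        |PhiD (S.G k) (S.o k) f D r' 1 - PhiD (S.G k) (S.o k) f D r 1| ≤
          ε * Nat.sqrt (Fintype.card (S.V k)) := by
      intro r r' hle hr hr' hrr
      have hL0 : (0 : ℝ) ≤ Nat.sqrt (Fintype.card (S.V k)) := Nat.cast_nonneg _
      obtain ⟨y, rfl⟩ := Nat.exists_eq_add_of_le hle
      rcases Nat.lt_or_ge y (wd (Fintype.card (S.V k)) S.a) with hy | hy
      · refine (key r y hr hy).trans ?_
        gcongr
        linarith
      · obtain ⟨y', rfl⟩ : ∃ y', y = y' + 1 := ⟨y - 1, by omega⟩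
        have k1 := key r y' hr (by omega)
        have k2 := key (r + y') 1 (by
          push_cast at hr' ⊢
          linarith) (by omega)
        have e : r + (y' + 1) = r + y' + 1 := by ring
        rw [e]
        rw [abs_le] at k1 k2 ⊢
        constructor <;> linarith [k1.1, k1.2, k2.1, k2.2]
    intro r r' hr hr' hrr
    rcases le_total r r' with hle | hle
    · rw [abs_sub_comm]
      refine one r r' hle hr hr' ?_
      have h1 : (r' : ℝ) - r ≤ wd (Fintype.card (S.V k)) S.a := by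
        have := (abs_le.1 hrr).1
        linarith
      have h2 : (r' : ℝ) ≤ ((r + wd (Fintype.card (S.V k)) S.a : ℕ) : ℝ) := by push_cast; linarith
      exact_mod_cast h2
    · refine one r' r hle hr' hr ?_
      have h1 : (r : ℝ) - r' ≤ wd (Fintype.card (S.V k)) S.a := (abs_le.1 hrr).2
      have h2 : (r : ℝ) ≤ ((r' + wd (Fintype.card (S.V k)) S.a : ℕ) : ℝ) := by push_cast; linarith
      exact_mod_cast h2

end Pool.Agent.helper57.HPT
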