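import Pool.Agent.helper57.HPT.A5
import Pool.Agent.helper97.HP.B6
import Pool.Agent.helper20.HP.S1
/-!
Module ut:B6 of project MP_5ae64c_pr : the profile bound.
-/

open scoped BigOperators Topology
open Filter MeasureTheory

namespace Pool.Agent.helper57.HPT

open Pool.Agent.helper20.HP

variable {V : Type} [Fintype V] [DecidableEq V] {K : HW V} {θ : ℝ} {h : ℕ}

section Lists
omit [Fintype V]

end Lists

theorem short_words (hP : Par K θ h) (Γ : List V) (Rp : V → List V) {J : ℕ} (hΓ : Ok Γ Rp J) (T r : ℕ)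
    (hT : 4 * T ≤ Nat.sqrt (Fintype.card V)) :
    PhiN K Γ Rp (T + 1) r ≤ J * (((T : ℝ) + 1) * CZ θ) := by
  have hCZ := B6_CZ_pos hP
  have hstep : PhiN K Γ Rp (T + 1) r = ∑ i : Fin Γ.length, ∑ t ∈ Finset.range (T + 1),
      W K t (Γ.get i) (fun l => ind (∀ y ∈ l, y ∉ Γ) * lev r (Γ.get i) (Rp (Γ.get i)) l) := by
    unfold PhiN km kmT
    rw [Finset.sum_comm]
  rw [hstep]
  set S : Finset (Fin Γ.length) := Finset.univ.filter
    (fun i : Fin Γ.length => (Rp (Γ.get i)).length ≤ r ∧ r ≤ (Rp (Γ.get i)).length + T) with hS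
  have hcard : S.card ≤ J * (T + 1) := by
    have h1 : S ⊆ (Finset.Icc (r - T) r).biUnion
        (fun q => Finset.univ.filter (fun i : Fin Γ.length => (Rp (Γ.get i)).length = q)) := by
      intro i hi
      rw [hS, Finset.mem_filter] at hi
      rw [Finset.mem_biUnion]
      refine ⟨(Rp (Γ.get i)).length, ?_, ?_⟩
      · rw [Finset.mem_Icc]; omega
      · rw [Finset.mem_filter]; exact ⟨Finset.mem_univ _, rfl⟩
    have h2 := (Finset.card_le_card h1).trans Finset.card_biUnion_le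
    have h3 := h2.trans (Finset.sum_le_card_nsmul _ _ J (fun q _ => hΓ.width q))
    rw [Nat.card_Icc, smul_eq_mul] at h3
    refine h3.trans ?_
    rw [mul_comm]
    exact Nat.mul_le_mul_left J (by omega)
  have hterm : ∀ i : Fin Γ.length, ∑ t ∈ Finset.range (T + 1),
      W K t (Γ.get i) (fun l => ind (∀ y ∈ l, y ∉ Γ) * lev r (Γ.get i) (Rp (Γ.get i)) l)
      ≤ if i ∈ S then CZ θ else 0 := by
    intro i
    have hlev : ∀ l : List V, (∀ y ∈ l, y ∉ Γ) →
        (lev r (Γ.get i) (Rp (Γ.get i)) l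
          = ind (lel (Γ.get i) l + (Rp (Γ.get i)).length + 1 = r + 1)) := by
      intro l hl
      unfold lev
      rw [run_avoid_length]
      intro y hy h'
      exact hl y hy ((hΓ.path _ (List.get_mem Γ i)).2 y h')
    by_cases hi : i ∈ S
    · rw [if_pos hi]
      rw [hS, Finset.mem_filter] at hi
      refine le_trans ?_ (Zq_le hP T (r - (Rp (Γ.get i)).length) (Γ.get i) (by omega))
      unfold Zq
      apply Finset.sum_le_sum
      intro t _
      apply W_mono
      intro l _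
      by_cases hl : ∀ y ∈ l, y ∉ Γ
      · rw [ind_true hl, one_mul, hlev l hl]
        apply ind_mono
        intro h1
        omega
      · rw [ind_false hl, zero_mul]
        exact ind_nonneg _
    · rw [if_neg hi]
      have hzero : ∀ t ∈ Finset.range (T + 1), W K t (Γ.get i)
          (fun l => ind (∀ y ∈ l, y ∉ Γ) * lev r (Γ.get i) (Rp (Γ.get i)) l) ≤ 0 := by
        intro t ht
        rw [Finset.mem_range] at ht
        have : W K t (Γ.get i)
          (fun l => ind (∀ y ∈ l, y ∉ Γ) * lev r (Γ.get i) (Rp (Γ.get i)) l)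
            ≤ W K t (Γ.get i) (fun _ => 0) := by
          apply W_mono
          intro l hlt
          by_cases hl : ∀ y ∈ l, y ∉ Γ
          · rw [ind_true hl, one_mul, hlev l hl, ind_false]
            intro h1
            apply hi
            rw [hS, Finset.mem_filter]
            have h2 := lel_le (Γ.get i) l
            exact ⟨Finset.mem_univ _, by omega, by omega⟩
          · rw [ind_false hl, zero_mul]
        rw [W_const] at this
        exact this
      exact Finset.sum_nonpos hzero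
  calc ∑ i : Fin Γ.length, ∑ t ∈ Finset.range (T + 1),
        W K t (Γ.get i) (fun l => ind (∀ y ∈ l, y ∉ Γ) * lev r (Γ.get i) (Rp (Γ.get i)) l)
      ≤ ∑ i : Fin Γ.length, (if i ∈ S then CZ θ else 0) := Finset.sum_le_sum (fun i _ => hterm i)
    _ = (S.card : ℝ) * CZ θ := by
        rw [← Finset.sum_filter]
        simp [Finset.sum_const, nsmul_eq_mul]
    _ ≤ J * (((T : ℝ) + 1) * CZ θ) := by
        rw [← mul_assoc]
        apply mul_le_mul_of_nonneg_right _ hCZ.le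
        exact_mod_cast hcard

theorem phi_bound (hP : Par K θ h) (Γ : List V) (Rp : V → List V) {J : ℕ} (hΓ : Ok Γ Rp J) (N r : ℕ) :
    PhiN K Γ Rp N r ≤ J * (CP θ * ((Nat.sqrt (Fintype.card V) : ℝ) + r)) := by
  have hJ1 : (1 : ℝ) ≤ J := by exact_mod_cast hΓ.pos
  have hCZ := B6_CZ_pos hP
  have hn : 0 < Fintype.card V := hP.card_pos
  have hnR : (0 : ℝ) < (Fintype.card V : ℝ) := by exact_mod_cast hn
  have h16 := hP.h_le
  have hh1 := hP.h_pos
  have hθ := hP.one_le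
  set L := Nat.sqrt (Fintype.card V) with hL
  set T := L / 4 with hTdef
  have hT4 : 4 * T ≤ L := by omega
  set D := T - 2 * h with hDdef
  have hD1 : 1 ≤ D := by omega
  have hD8 : L ≤ 8 * D + 3 := by omega
  have hTpos : 1 ≤ T := by omega
  set B : ℝ := CZ θ * (θ + ((T : ℝ) + 1) * (((r : ℝ) + 1) * (3 / (2 * (Fintype.card V : ℝ)))))
    with hB
  have hBpos : 0 ≤ B := by
    rw [hB]; positivity
  have hlevnn : ∀ (x : V) (ρ l : List V), 0 ≤ lev r x ρ l := by
    intro x ρ l; unfold lev; exact ind_nonneg _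
  -- one value of `v`
  have hv : ∀ v ∈ Finset.range D, km K Γ Rp N (lev r) ≤ J * ((T : ℝ) * CZ θ) +
      km K Γ Rp N (fun x ρ l0 => W K (2 * h + v) (lst x l0)
        (fun l' => ind (∀ y ∈ l', y ∉ Γ) * lev r x ρ (l0 ++ l'))) := by
    intro v hvD
    rw [Finset.mem_range] at hvD
    have h1 : km K Γ Rp N (lev r) ≤ km K Γ Rp (N + (2 * h + v)) (lev r) :=
      km_mono_N K Γ Rp (by omega) hlevnn
    rw [km_split] at h1
    have h2 : km K Γ Rp (2 * h + v) (lev r) ≤ J * ((T : ℝ) * CZ θ) := by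
      have h3 : km K Γ Rp (2 * h + v) (lev r) ≤ km K Γ Rp ((T - 1) + 1) (lev r) :=
        km_mono_N K Γ Rp (by omega) hlevnn
      have h4 := short_words hP Γ Rp hΓ (T - 1) r (by omega)
      unfold PhiN at h4
      have h5 : ((T - 1 : ℕ) : ℝ) + 1 = (T : ℝ) := by
        rw [Nat.cast_sub hTpos]; push_cast; ring
      rw [h5] at h4
      exact le_trans h3 h4
    linarith
  have hsum : (D : ℝ) * km K Γ Rp N (lev r) ≤ (D : ℝ) * (J * ((T : ℝ) * CZ θ)) +
      B * (Fintype.card V : ℝ) := by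
    have h1 := Finset.sum_le_sum hv
    rw [Finset.sum_const, Finset.card_range, nsmul_eq_mul, Finset.sum_add_distrib,
      Finset.sum_const, Finset.card_range, nsmul_eq_mul, ← km_sum] at h1
    have h2 : km K Γ Rp N (fun x ρ l0 => ∑ v ∈ Finset.range D, W K (2 * h + v) (lst x l0)
        (fun l' => ind (∀ y ∈ l', y ∉ Γ) * lev r x ρ (l0 ++ l')))
        ≤ km K Γ Rp N (fun _ _ _ => B * 1) := by
      apply km_mono
      intro i l0 _ _
      rw [mul_one]
      have hnd : (Γ.get i :: Rp (Γ.get i)).Nodup := (hΓ.path _ (List.get_mem Γ i)).1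
      exact B6_point hP Γ T r hT4 D (by omega) (Γ.get i) (Rp (Γ.get i)) l0 hnd
    rw [km_mul_left] at h2
    have h3 := kac K Γ Rp hΓ N
    have h4 : B * km K Γ Rp N (fun _ _ _ => 1) ≤ B * (Fintype.card V : ℝ) :=
      mul_le_mul_of_nonneg_left h3 hBpos
    linarith
  -- arithmetic
  have hLn : (Fintype.card V : ℝ) ≤ (L : ℝ) * (L + 2) := by
    have h1 := Nat.sqrt_le_add (Fintype.card V)
    rw [← hL] at h1
    have h2 : (Fintype.card V : ℝ) ≤ ((L * L + L + L : ℕ) : ℝ) := by exact_mod_cast h1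
    push_cast at h2
    nlinarith
  have hL16 : (16 : ℝ) ≤ (L : ℝ) := by
    have : 16 ≤ L := by omega
    exact_mod_cast this
  have hDR : (L : ℝ) ≤ 8 * (D : ℝ) + 3 := by exact_mod_cast hD8
  have hTR : 4 * (T : ℝ) ≤ (L : ℝ) := by exact_mod_cast hT4
  have hT0 : (0 : ℝ) ≤ (T : ℝ) := Nat.cast_nonneg _
  have hr0 : (0 : ℝ) ≤ (r : ℝ) := Nat.cast_nonneg _
  have hD0 : (1 : ℝ) ≤ (D : ℝ) := by exact_mod_cast hD1
  have hBn : B * (Fintype.card V : ℝ) = CZ θ * (θ * (Fintype.card V : ℝ) +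
      3 / 2 * (((T : ℝ) + 1) * ((r : ℝ) + 1))) := by
    rw [hB]; field_simp
  rw [hBn] at hsum
  unfold PhiN
  -- it suffices to multiply by `D`
  have hfin : (D : ℝ) * ((T : ℝ) * CZ θ) + CZ θ * (θ * (Fintype.card V : ℝ) +
      3 / 2 * (((T : ℝ) + 1) * ((r : ℝ) + 1))) ≤ (D : ℝ) * (CP θ * ((L : ℝ) + r)) := by
    have hCP : CP θ = CZ θ * (13 * θ) := by unfold CP; ring
    rw [hCP]
    have h1 : (D : ℝ) * (T : ℝ) + (θ * (Fintype.card V : ℝ) +
      3 / 2 * (((T : ℝ) + 1) * ((r : ℝ) + 1))) ≤ (D : ℝ) * (13 * θ * ((L : ℝ) + r)) := by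
      -- reduce to θ = 1
      have h2 : (D : ℝ) * (T : ℝ) + ((Fintype.card V : ℝ) +
        3 / 2 * (((T : ℝ) + 1) * ((r : ℝ) + 1))) ≤ (D : ℝ) * (13 * ((L : ℝ) + r)) := by
        have h3 : (T : ℝ) ≤ (L : ℝ) / 4 := by linarith
        have h4 : ((L : ℝ) - 3) / 8 ≤ (D : ℝ) := by linarith
        have h5 : (Fintype.card V : ℝ) + 3 / 2 * (((L : ℝ) / 4 + 1) * ((r : ℝ) + 1)) ≤
            ((L : ℝ) - 3) / 8 * (13 * ((L : ℝ) + r) - (L : ℝ) / 4) := by
          nlinarith [mul_nonneg (sub_nonneg.mpr hL16) hr0,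
            mul_nonneg (sub_nonneg.mpr hL16) (sub_nonneg.mpr hL16)]
        have h6 : 3 / 2 * (((T : ℝ) + 1) * ((r : ℝ) + 1)) ≤
            3 / 2 * (((L : ℝ) / 4 + 1) * ((r : ℝ) + 1)) := by
          nlinarith
        have h7 : 0 ≤ 13 * ((L : ℝ) + r) - (L : ℝ) / 4 := by linarith
        have h8 : ((L : ℝ) - 3) / 8 * (13 * ((L : ℝ) + r) - (L : ℝ) / 4) ≤
            (D : ℝ) * (13 * ((L : ℝ) + r) - (L : ℝ) / 4) :=
          mul_le_mul_of_nonneg_right h4 h7
        have h9 : (D : ℝ) * (T : ℝ) ≤ (D : ℝ) * ((L : ℝ) / 4) :=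
          mul_le_mul_of_nonneg_left h3 (by linarith)
        nlinarith
      have h3 : 0 ≤ (D : ℝ) * (T : ℝ) + 3 / 2 * (((T : ℝ) + 1) * ((r : ℝ) + 1)) := by positivity
      have h4 : θ * ((D : ℝ) * (T : ℝ) + ((Fintype.card V : ℝ) +
        3 / 2 * (((T : ℝ) + 1) * ((r : ℝ) + 1)))) ≤ θ * ((D : ℝ) * (13 * ((L : ℝ) + r))) :=
        mul_le_mul_of_nonneg_left h2 (by linarith)
      have h5 : 1 * ((D : ℝ) * (T : ℝ) + 3 / 2 * (((T : ℝ) + 1) * ((r : ℝ) + 1))) ≤
        θ * ((D : ℝ) * (T : ℝ) + 3 / 2 * (((T : ℝ) + 1) * ((r : ℝ) + 1))) :=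
        mul_le_mul_of_nonneg_right hθ h3
      linarith
    have h2 := mul_le_mul_of_nonneg_left h1 hCZ.le
    linarith
  have hX : 0 ≤ CZ θ * (θ * (Fintype.card V : ℝ) + 3 / 2 * (((T : ℝ) + 1) * ((r : ℝ) + 1))) := by
    positivity
  have h1 : (D : ℝ) * km K Γ Rp N (lev r) ≤ (D : ℝ) * (J * (CP θ * ((L : ℝ) + r))) := by
    have h2 := mul_le_mul_of_nonneg_left hfin (by linarith : (0 : ℝ) ≤ J)
    have h3 := mul_le_mul_of_nonneg_right hJ1 hX
    calc (D : ℝ) * km K Γ Rp N (lev r) ≤ _ := hsum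
      _ ≤ J * ((D : ℝ) * ((T : ℝ) * CZ θ) + CZ θ * (θ * (Fintype.card V : ℝ) +
          3 / 2 * (((T : ℝ) + 1) * ((r : ℝ) + 1)))) := by linarith
      _ ≤ _ := by linarith
  exact le_of_mul_le_mul_left h1 (by linarith)

end Pool.Agent.helper57.HPT
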