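import Pool.Agent.helper57.HPT.B6
import Pool.Agent.helper6.HP.B7
import Pool.Agent.helper20.HP.S1
/-! # MP_5ae64c_pr, module B7: mass of words with a long hit in the last steps, at a given level -/

open scoped BigOperators Topology
open Filter MeasureTheory

namespace Pool.Agent.helper57.HPT

open Pool.Agent.helper20.HP

variable {V : Type} [Fintype V] [DecidableEq V] {K : HW V} {θ : ℝ} {h : ℕ}

omit [Fintype V] [DecidableEq V] in
theorem B7_drop_nodup {Γ : List V} {Rp : V → List V} {J : ℕ} (hΓ : Ok Γ Rp J) (i : Fin Γ.length) :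
    (Γ.get i :: Rp (Γ.get i)).Nodup := by
  exact (hΓ.path _ (List.get_mem Γ i)).1

theorem B7_M_short {Γ : List V} {Rp : V → List V} {J : ℕ} (hΓ : Ok Γ Rp J) (b r q : ℕ) (i : Fin Γ.length) (l : List V)
    (hl : l.length < b) : B7_M Γ K b r q (Γ.get i) (Rp (Γ.get i)) l = 0 := by
  unfold B7_M
  refine Finset.sum_eq_zero fun y _ => ?_
  rw [ind_false, mul_zero]
  rintro ⟨h1, ⟨h2, h3⟩, _⟩
  have h4 : (Γ.get i :: l).rtake b = Γ.get i :: l := by
    unfold List.rtake
    rw [List.length_cons, Nat.sub_eq_zero_of_le (by omega), List.drop_zero]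
  rw [h4] at h3
  rcases mem_run h2 with h5 | h5
  · rcases List.mem_cons.mp h5 with h6 | h6
    · exact h3 (by rw [h6]; exact List.mem_cons_self)
    · exact h1 ((hΓ.path _ (List.get_mem Γ i)).2 _ h6)
  · exact h3 (List.mem_cons_of_mem _ h5)

theorem B7_M_long (hP : Par K θ h) {Γ : List V} {Rp : V → List V} {J : ℕ} (hΓ : Ok Γ Rp J) (r q : ℕ) (i : Fin Γ.length)
    (l : List V) :
    W K (2 * h) (lst (Γ.get i) l) (fun l' => ind (∀ y ∈ l', y ∉ Γ) *
      B7_M Γ K (2 * h) r q (Γ.get i) (Rp (Γ.get i)) (l ++ l'))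
      ≤ 3 / (2 * (Fintype.card V : ℝ)) := by
  set x := Γ.get i with hx
  set ρ := Rp (Γ.get i) with hρ
  set z := B7_z r q x ρ l with hz
  have hnd : (x :: ρ).Nodup := B7_drop_nodup hΓ i
  calc W K (2 * h) (lst x l) (fun l' => ind (∀ y ∈ l', y ∉ Γ) *
      B7_M Γ K (2 * h) r q x ρ (l ++ l'))
      ≤ W K (2 * h) (lst x l) (fun l' => K.p (lst (lst x l) l') z) := by
        refine W_mono K _ _ fun l' hl' => ?_
        calc ind (∀ y ∈ l', y ∉ Γ) * B7_M Γ K (2 * h) r q x ρ (l ++ l')
            ≤ 1 * B7_M Γ K (2 * h) r q x ρ (l ++ l') :=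
              mul_le_mul_of_nonneg_right (ind_le_one _) (B7_M_nonneg _ _ _ _ _ _ _ _)
          _ = B7_M Γ K (2 * h) r q x ρ (l ++ l') := one_mul _
          _ ≤ ∑ y, K.p (lst (lst x l) l') y * ind (y = z) := by
              unfold B7_M
              refine Finset.sum_le_sum fun y _ => ?_
              rw [lst_append]
              refine mul_le_mul_of_nonneg_left (ind_mono ?_) (K.nonneg _ _)
              rintro ⟨_, h2, h3⟩
              exact B7_persist hnd hl' h2 h3
          _ = K.p (lst (lst x l) l') z := by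
              rw [Finset.sum_eq_single z]
              · rw [ind_true rfl, mul_one]
              · intro y _ hy
                rw [ind_false hy, mul_zero]
              · intro hz'
                exact absurd (Finset.mem_univ z) hz'
    _ = ∑ y, K.pt (2 * h) (lst x l) y * K.p y z := W_lst K (2 * h) (lst x l) (fun y => K.p y z)
    _ ≤ ∑ y, 3 / (2 * (Fintype.card V : ℝ)) * K.p y z := by
        refine Finset.sum_le_sum fun y _ => mul_le_mul_of_nonneg_right
          (hP.mix _ (by omega) _ _) (K.nonneg _ _)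
    _ = 3 / (2 * (Fintype.card V : ℝ)) := by
        rw [← Finset.mul_sum]
        have : ∑ y, K.p y z = 1 := by
          rw [← K.sum_one z]
          exact Finset.sum_congr rfl fun y _ => K.symm y z
        rw [this, mul_one]

theorem B7_M_mass (hP : Par K θ h) {Γ : List V} {Rp : V → List V} {J : ℕ} (hΓ : Ok Γ Rp J) (N r q : ℕ) :
    km K Γ Rp N (B7_M Γ K (2 * h) r q) ≤ 3 / 2 := by
  have hn : 0 < (Fintype.card V : ℝ) := by exact_mod_cast hP.card_pos
  calc km K Γ Rp N (B7_M Γ K (2 * h) r q)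
      ≤ km K Γ Rp (N + 2 * h) (B7_M Γ K (2 * h) r q) :=
        km_mono_N K Γ Rp (Nat.le_add_right _ _) (fun x ρ l => B7_M_nonneg _ _ _ _ _ _ _ _)
    _ = km K Γ Rp (2 * h) (B7_M Γ K (2 * h) r q) + km K Γ Rp N (fun x ρ l =>
          W K (2 * h) (lst x l) (fun l' => ind (∀ y ∈ l', y ∉ Γ) *
            B7_M Γ K (2 * h) r q x ρ (l ++ l'))) := km_split K Γ Rp N (2 * h) _
    _ ≤ km K Γ Rp (2 * h) (fun _ _ _ => 0) + km K Γ Rp N (fun _ _ _ =>
          3 / (2 * (Fintype.card V : ℝ)) * 1) := by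
        refine add_le_add ?_ ?_
        · refine km_mono K Γ Rp _ fun i l hl _ => ?_
          exact le_of_eq (B7_M_short hΓ _ _ _ i l hl)
        · refine km_mono K Γ Rp _ fun i l hl _ => ?_
          rw [mul_one]
          exact B7_M_long hP hΓ r q i l
    _ = 3 / (2 * (Fintype.card V : ℝ)) * km K Γ Rp N (fun _ _ _ => 1) := by
        have h0 : km K Γ Rp (2 * h) (fun _ _ _ => (0 : ℝ)) = 0 := by
          have := km_mul_left K Γ Rp (2 * h) 0 (fun _ _ _ => (0 : ℝ))
          simpa using this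
        rw [h0, zero_add, km_mul_left]
    _ ≤ 3 / (2 * (Fintype.card V : ℝ)) * (Fintype.card V : ℝ) :=
        mul_le_mul_of_nonneg_left (kac K Γ Rp hΓ N) (by positivity)
    _ = 3 / 2 := by field_simp

theorem B7_G_mass (Γ : List V) (Rp : V → List V) (N b r v q : ℕ) :
    km K Γ Rp N (fun x ρ l => ind (B7_G b r v q x ρ l))
      ≤ km K Γ Rp N (fun x ρ l => ∑ y, K.p (lst x l) y * (ind (y ∉ Γ ∧ LH b x ρ l y ∧
        (stp (run (x :: ρ) l) y).length + q = r + 1) * W K v y (fun l2 => ind (lel y l2 = q)))) := by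
  calc km K Γ Rp N (fun x ρ l => ind (B7_G b r v q x ρ l))
      ≤ km K Γ Rp (N + (v + 1)) (fun x ρ l => ind (B7_G b r v q x ρ l)) :=
        km_mono_N K Γ Rp (Nat.le_add_right _ _) (fun x ρ l => ind_nonneg _)
    _ = km K Γ Rp (v + 1) (fun x ρ l => ind (B7_G b r v q x ρ l)) + km K Γ Rp N (fun x ρ l =>
          W K (v + 1) (lst x l) (fun l' => ind (∀ y ∈ l', y ∉ Γ) *
            ind (B7_G b r v q x ρ (l ++ l')))) := km_split K Γ Rp N (v + 1) _
    _ ≤ km K Γ Rp (v + 1) (fun _ _ _ => 0) + km K Γ Rp N (fun x ρ l => ∑ y, K.p (lst x l) y *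
          (ind (y ∉ Γ ∧ LH b x ρ l y ∧ (stp (run (x :: ρ) l) y).length + q = r + 1) *
            W K v y (fun l2 => ind (lel y l2 = q)))) := by
        refine add_le_add ?_ ?_
        · refine km_mono K Γ Rp _ fun i l hl _ => ?_
          refine le_of_eq (ind_false ?_)
          rintro ⟨l1, y, l2, he, hv, _⟩
          rw [he, List.length_append, List.length_cons] at hl
          omega
        · refine km_mono K Γ Rp _ fun i l hl _ => ?_
          rw [W_succ]
          refine Finset.sum_le_sum fun y _ => mul_le_mul_of_nonneg_left ?_ (K.nonneg _ _)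
          rw [← W_mul_left]
          refine W_mono K _ _ fun l2 hl2 => ?_
          rw [← ind_and, ← ind_and]
          refine ind_mono ?_
          rintro ⟨ha, l1', y', l2', he, hv, hLH, hlen, hq⟩
          have h1 : l = l1' ∧ y :: l2 = y' :: l2' := by
            apply List.append_inj' he
            simp [hl2, hv]
          obtain ⟨rfl, h2⟩ := h1
          rw [List.cons.injEq] at h2
          obtain ⟨rfl, rfl⟩ := h2
          exact ⟨⟨ha y List.mem_cons_self, hLH, hlen⟩, hq⟩
    _ = km K Γ Rp N (fun x ρ l => ∑ y, K.p (lst x l) y *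
          (ind (y ∉ Γ ∧ LH b x ρ l y ∧ (stp (run (x :: ρ) l) y).length + q = r + 1) *
            W K v y (fun l2 => ind (lel y l2 = q)))) := by
        have h0 : km K Γ Rp (v + 1) (fun _ _ _ => (0 : ℝ)) = 0 := by
          have := km_mul_left K Γ Rp (v + 1) 0 (fun _ _ _ => (0 : ℝ))
          simpa using this
        rw [h0, zero_add]

theorem LH_mass (hP : Par K θ h) (Γ : List V) (Rp : V → List V) {J : ℕ} (hΓ : Ok Γ Rp J) (N r w : ℕ)
    (hw : 4 * w ≤ Nat.sqrt (Fintype.card V)) :
    km K Γ Rp N (fun x ρ l => ind (LHin (2 * h) w x ρ l) * lev r x ρ l)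
      ≤ 3 / 2 * CZ θ * ((w : ℝ) + 1) := by
  calc km K Γ Rp N (fun x ρ l => ind (LHin (2 * h) w x ρ l) * lev r x ρ l)
      ≤ km K Γ Rp N (fun x ρ l => ∑ q ∈ Finset.range w, ∑ v ∈ Finset.range w,
          ind (B7_G (2 * h) r v q x ρ l)) :=
        km_mono K Γ Rp N fun i l _ _ => B7_pointwise (B7_drop_nodup hΓ i)
    _ = ∑ q ∈ Finset.range w, ∑ v ∈ Finset.range w,
          km K Γ Rp N (fun x ρ l => ind (B7_G (2 * h) r v q x ρ l)) := by
        rw [km_sum]
        exact Finset.sum_congr rfl fun q _ => km_sum K _ Γ Rp N _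
    _ ≤ ∑ q ∈ Finset.range w, ∑ v ∈ Finset.range w,
          km K Γ Rp N (fun x ρ l => ∑ y, K.p (lst x l) y * (ind (y ∉ Γ ∧ LH (2 * h) x ρ l y ∧
            (stp (run (x :: ρ) l) y).length + q = r + 1) *
              W K v y (fun l2 => ind (lel y l2 = q)))) :=
        Finset.sum_le_sum fun q _ => Finset.sum_le_sum fun v _ => B7_G_mass Γ Rp N (2 * h) r v q
    _ = ∑ q ∈ Finset.range w,
          km K Γ Rp N (fun x ρ l => ∑ v ∈ Finset.range w, ∑ y, K.p (lst x l) y *
            (ind (y ∉ Γ ∧ LH (2 * h) x ρ l y ∧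
            (stp (run (x :: ρ) l) y).length + q = r + 1) *
              W K v y (fun l2 => ind (lel y l2 = q)))) :=
        Finset.sum_congr rfl fun q _ => (km_sum K _ Γ Rp N _).symm
    _ ≤ ∑ q ∈ Finset.range w, km K Γ Rp N (fun x ρ l => CZ θ * B7_M Γ K (2 * h) r q x ρ l) := by
        refine Finset.sum_le_sum fun q _ => km_mono K Γ Rp N fun i l _ _ => ?_
        rw [Finset.sum_comm]
        unfold B7_M
        rw [Finset.mul_sum]
        refine Finset.sum_le_sum fun y _ => ?_
        rw [← Finset.mul_sum, ← Finset.mul_sum]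
        have h1 : ∑ v ∈ Finset.range w, W K v y (fun l2 => ind (lel y l2 = q)) ≤ CZ θ := by
          refine le_trans ?_ (Zq_le hP w q y (by omega))
          unfold Zq
          refine Finset.sum_le_sum_of_subset_of_nonneg ?_ fun v _ _ => ?_
          · intro v hv
            simp only [Finset.mem_range] at hv ⊢
            omega
          · exact W_nonneg K _ _ fun l _ => ind_nonneg _
        calc K.p (lst (Γ.get i) l) y * (ind (y ∉ Γ ∧ LH (2 * h) (Γ.get i) (Rp (Γ.get i)) l y ∧
              (stp (run (Γ.get i :: Rp (Γ.get i)) l) y).length + q = r + 1) *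
              ∑ v ∈ Finset.range w, W K v y (fun l2 => ind (lel y l2 = q)))
            ≤ K.p (lst (Γ.get i) l) y * (ind (y ∉ Γ ∧ LH (2 * h) (Γ.get i) (Rp (Γ.get i)) l y ∧
              (stp (run (Γ.get i :: Rp (Γ.get i)) l) y).length + q = r + 1) * CZ θ) :=
              mul_le_mul_of_nonneg_left (mul_le_mul_of_nonneg_left h1 (ind_nonneg _))
                (K.nonneg _ _)
          _ = CZ θ * (K.p (lst (Γ.get i) l) y * ind (y ∉ Γ ∧
              LH (2 * h) (Γ.get i) (Rp (Γ.get i)) l y ∧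
              (stp (run (Γ.get i :: Rp (Γ.get i)) l) y).length + q = r + 1)) := by ring
    _ = ∑ q ∈ Finset.range w, CZ θ * km K Γ Rp N (B7_M Γ K (2 * h) r q) :=
        Finset.sum_congr rfl fun q _ => km_mul_left K Γ Rp N _ _
    _ ≤ ∑ q ∈ Finset.range w, CZ θ * (3 / 2) :=
        Finset.sum_le_sum fun q _ => mul_le_mul_of_nonneg_left (B7_M_mass hP hΓ N r q)
          (B7_CZ_nonneg θ)
    _ = 3 / 2 * CZ θ * (w : ℝ) := by
        rw [Finset.sum_const, Finset.card_range, nsmul_eq_mul]
        ring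
    _ ≤ 3 / 2 * CZ θ * ((w : ℝ) + 1) := by
        have := B7_CZ_nonneg θ
        nlinarith

end Pool.Agent.helper57.HPT
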