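import Pool.Agent.helper20.HP.Defs3

/-!
MP_5ae64c_pr, functional form, part C: killed words from a skeleton (a family of vertices with a path
below each vertex) instead of a path. Same notions as in `helper20.HP.Defs`, with a path function `Rp`.
-/

open scoped BigOperators Topology
open Filter MeasureTheory

namespace Pool.Agent.helper57.HPT

open Pool.Agent.helper20.HP

variable {V : Type} [Fintype V] [DecidableEq V]

/-- skeleton: `Γ` lists its vertices, `Rp x` is the path below the vertex `x`; `J` bounds the number of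
vertices at each level -/
structure Ok (Γ : List V) (Rp : V → List V) (J : ℕ) : Prop where
  nodup : Γ.Nodup
  path : ∀ x ∈ Γ, (x :: Rp x).Nodup ∧ ∀ y ∈ Rp x, y ∈ Γ
  width : ∀ q : ℕ, (Finset.univ.filter (fun i : Fin Γ.length => (Rp (Γ.get i)).length = q)).card ≤ J
  pos : 1 ≤ J

/-- killed words: total weight of `f x ρ l` over the words `l` of length `t` started at a vertex `x` of `Γ` and
avoiding `Γ` afterwards; `ρ = Rp x` -/
noncomputable def kmT (K : HW V) (Γ : List V) (Rp : V → List V) (t : ℕ)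
    (f : V → List V → List V → ℝ) : ℝ :=
  ∑ i : Fin Γ.length, W K t (Γ.get i)
    (fun l => ind (∀ y ∈ l, y ∉ Γ) * f (Γ.get i) (Rp (Γ.get i)) l)

/-- sum of `kmT` over lengths `t < N` -/
noncomputable def km (K : HW V) (Γ : List V) (Rp : V → List V) (N : ℕ)
    (f : V → List V → List V → ℝ) : ℝ :=
  ∑ t ∈ Finset.range N, kmT K Γ Rp t f

/-- profile function of the skeleton -/
noncomputable def Phi (K : HW V) (Γ : List V) (Rp : V → List V) (r : ℕ) : ℝ :=
  ∑' t, kmT K Γ Rp t (lev r)

/-- truncated version -/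
noncomputable def PhiN (K : HW V) (Γ : List V) (Rp : V → List V) (N r : ℕ) : ℝ := km K Γ Rp N (lev r)

/-- killed words in the letter model -/
noncomputable def kmTL (K : HW V) (o : V) (Γ : List V) (Rp : V → List V) (t : ℕ)
    (f : V → List V → List (Aut K) → ℝ) : ℝ :=
  ∑ i : Fin Γ.length, EL K o t (fun L => ind (okL K o Γ (Γ.get i) L) *
    f (Γ.get i) (Rp (Γ.get i)) L)

/-- sum over lengths `S ≤ t < N` -/
noncomputable def kmL (K : HW V) (o : V) (Γ : List V) (Rp : V → List V) (S N : ℕ)
    (f : V → List V → List (Aut K) → ℝ) : ℝ :=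
  ∑ t ∈ Finset.Ico S N, kmTL K o Γ Rp t f

/-- triple sums over `P, Q, F`, `|F| = m ∈ (m0, m0+M]`, `|Q| = u ≤ U`, `S ≤ |P| + |F| < N` -/
noncomputable def tri (K : HW V) (o : V) (Γ : List V) (Rp : V → List V) (m0 M U S N : ℕ)
    (f : V → List V → List (Aut K) → List (Aut K) → List (Aut K) → ℝ) : ℝ :=
  ∑ m ∈ Finset.Ioc m0 (m0 + M), ∑ u ∈ Finset.range (U + 1), ∑ t ∈ Finset.Ico S N,
    ∑ i : Fin Γ.length, EL K o (t - m) (fun P => EL K o u (fun Q => EL K o m (fun F =>
      f (Γ.get i) (Rp (Γ.get i)) P Q F)))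

end Pool.Agent.helper57.HPT
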