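import Pool.Agent.helper57.HPT.E0
import Pool.Agent.helper93.HP.E3
/-!
Module E3 of the project MP_5ae64c_pr: the triple sums.
-/

open scoped BigOperators Topology
open Filter MeasureTheory

namespace Pool.Agent.helper57.HPT

open Pool.Agent.helper20.HP

section
variable {V : Type} [Fintype V] [DecidableEq V] {K : HW V} {θ : ℝ} {h : ℕ}

theorem tri_g1 (o : V) (Γ : List V) (Rp : V → List V) (b g r m0 M U S N : ℕ) (hb : b ≤ m0) (hS : m0 + M + b + U ≤ S) :
    tri K o Γ Rp m0 M U S N (g1 K o Γ b g r) = kmL K o Γ Rp S N (fun x ρ L =>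
      ind (stL K o x ρ L = r + 1) * ∑ m ∈ Finset.Ioc m0 (m0 + M), f1 K o b g U (win b U m L)) := by
  have key : ∀ m ∈ Finset.Ioc m0 (m0 + M), ∀ t ∈ Finset.Ico S N, ∀ i : Fin Γ.length,
      ∑ u ∈ Finset.range (U + 1), EL K o (t - m) (fun P => EL K o u (fun R => EL K o m (fun F =>
        g1 K o Γ b g r (Γ.get i) (Rp (Γ.get i)) P R F)))
      = EL K o t (fun L => ind (okL K o Γ (Γ.get i) L) *
        (ind (stL K o (Γ.get i) (Rp (Γ.get i)) L = r + 1) * f1 K o b g U (win b U m L))) := by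
    intro m hm t ht i
    rw [Finset.mem_Ioc] at hm
    rw [Finset.mem_Ico] at ht
    have e : t = (t - m) + m := by omega
    conv_rhs => rw [e, EL_split]
    rw [← EL_sum]
    refine EL_congr K o _ (fun P hP => ?_)
    have h1 : ∀ u ∈ Finset.range (U + 1), EL K o u (fun R => EL K o m (fun F =>
        g1 K o Γ b g r (Γ.get i) (Rp (Γ.get i)) P R F)) = EL K o m (fun F => EL K o u (fun R =>
        g1 K o Γ b g r (Γ.get i) (Rp (Γ.get i)) P R F)) := fun u _ => EL_comm K o u m _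
    rw [Finset.sum_congr rfl h1, ← EL_sum]
    refine EL_congr K o _ (fun F hF => ?_)
    rw [E3_f1 o b g U m P F hF (by omega) (by omega), Finset.mul_sum, Finset.mul_sum]
    refine Finset.sum_congr rfl (fun u _ => ?_)
    unfold g1
    rw [← EL_mul_left, ← EL_mul_left]
    refine EL_congr K o _ (fun R _ => ?_)
    ring
  unfold tri kmL kmTL
  have step : ∀ m ∈ Finset.Ioc m0 (m0 + M),
      ∑ u ∈ Finset.range (U + 1), ∑ t ∈ Finset.Ico S N, ∑ i : Fin Γ.length,
        EL K o (t - m) (fun P => EL K o u (fun R => EL K o m (fun F =>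
          g1 K o Γ b g r (Γ.get i) (Rp (Γ.get i)) P R F)))
      = ∑ t ∈ Finset.Ico S N, ∑ i : Fin Γ.length, EL K o t (fun L => ind (okL K o Γ (Γ.get i) L) *
        (ind (stL K o (Γ.get i) (Rp (Γ.get i)) L = r + 1) * f1 K o b g U (win b U m L))) := by
    intro m hm
    rw [Finset.sum_comm]
    refine Finset.sum_congr rfl (fun t ht => ?_)
    rw [Finset.sum_comm]
    exact Finset.sum_congr rfl (fun i _ => key m hm t ht i)
  rw [Finset.sum_congr rfl step, Finset.sum_comm]
  refine Finset.sum_congr rfl (fun t _ => ?_)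
  rw [Finset.sum_comm]
  refine Finset.sum_congr rfl (fun i _ => ?_)
  rw [← EL_sum]
  refine EL_congr K o _ (fun L _ => ?_)
  beta_reduce
  rw [Finset.mul_sum, Finset.mul_sum]

/-- the summand of the second triple sum -/
noncomputable def E3_q (K : HW V) (o : V) (Γ : List V) (Rp : V → List V) (b g r U m u : ℕ) (i : Fin Γ.length)
    (L : List (Aut K)) : ℝ :=
  ind (okL K o Γ (Γ.get i) L) * (ind (stL K o (Γ.get i) (Rp (Γ.get i)) L = r + g + 1) *
    ind (Ev K o b g (((win b U m L).drop (U - u)).take b) (((win b U m L).drop (b + U - u)).take u)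
      ((win b U m L).drop (b + U))))

theorem E3_q_nonneg (o : V) (Γ : List V) (Rp : V → List V) (b g r U m u : ℕ) (i : Fin Γ.length)
    (L : List (Aut K)) : 0 ≤ E3_q K o Γ Rp b g r U m u i L :=
  mul_nonneg (ind_nonneg _) (mul_nonneg (ind_nonneg _) (ind_nonneg _))

theorem E3_g2 (o : V) (Γ : List V) (Rp : V → List V) (b g r m U u t : ℕ) (i : Fin Γ.length) (hb : b ≤ m)
    (hu : u ≤ U) (ht : m + b + U ≤ t) :
    EL K o (t - m) (fun P => EL K o u (fun R => EL K o m (fun F =>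
      g2 K o Γ b g r (Γ.get i) (Rp (Γ.get i)) P R F)))
    = EL K o (t + u) (E3_q K o Γ Rp b g r U m u i) := by
  have e : t + u = (t - m) + (u + m) := by omega
  rw [e, EL_split]
  refine EL_congr K o _ (fun P hP => ?_)
  rw [EL_split]
  refine EL_congr K o _ (fun R hR => ?_)
  refine EL_congr K o _ (fun F hF => ?_)
  obtain ⟨h1, h2, h3⟩ := E3_win b U m u P R F hR hF hb hu (by omega)
  unfold g2 E3_q
  rw [h1, h2, h3]
  ring

/-- the second triple sum, before the comparison of the ranges -/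
theorem E3_tri (o : V) (Γ : List V) (Rp : V → List V) (b g r m0 M U S N : ℕ) (hb : b ≤ m0)
    (hS : m0 + M + b + U ≤ S) :
    tri K o Γ Rp m0 M U S N (g2 K o Γ b g r) = ∑ m ∈ Finset.Ioc m0 (m0 + M),
      ∑ u ∈ Finset.range (U + 1), ∑ T ∈ Finset.Ico (S + u) (N + u), ∑ i : Fin Γ.length,
        EL K o T (E3_q K o Γ Rp b g r U m u i) := by
  unfold tri
  refine Finset.sum_congr rfl (fun m hm => ?_)
  refine Finset.sum_congr rfl (fun u hu => ?_)
  rw [Finset.mem_Ioc] at hm
  rw [Finset.mem_range] at hu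
  rw [← Finset.sum_Ico_add' (fun T => ∑ i : Fin Γ.length, EL K o T (E3_q K o Γ Rp b g r U m u i)) S N u]
  refine Finset.sum_congr rfl (fun t ht => ?_)
  rw [Finset.mem_Ico] at ht
  exact Finset.sum_congr rfl (fun i _ => E3_g2 o Γ Rp b g r m U u t i (by omega) (by omega) (by omega))

/-- the right hand side in the same form -/
theorem E3_kmL (o : V) (Γ : List V) (Rp : V → List V) (b g r m0 M U S N : ℕ) :
    kmL K o Γ Rp S N (fun x ρ L =>
      ind (stL K o x ρ L = r + g + 1) * ∑ m ∈ Finset.Ioc m0 (m0 + M), f2 K o b g U (win b U m L))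
    = ∑ m ∈ Finset.Ioc m0 (m0 + M), ∑ u ∈ Finset.range (U + 1), ∑ T ∈ Finset.Ico S N,
        ∑ i : Fin Γ.length, EL K o T (E3_q K o Γ Rp b g r U m u i) := by
  have step : ∀ m ∈ Finset.Ioc m0 (m0 + M),
      ∑ u ∈ Finset.range (U + 1), ∑ T ∈ Finset.Ico S N,
        ∑ i : Fin Γ.length, EL K o T (E3_q K o Γ Rp b g r U m u i)
      = ∑ T ∈ Finset.Ico S N, ∑ i : Fin Γ.length, ∑ u ∈ Finset.range (U + 1),
        EL K o T (E3_q K o Γ Rp b g r U m u i) := by
    intro m _
    rw [Finset.sum_comm]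
    refine Finset.sum_congr rfl (fun t _ => ?_)
    rw [Finset.sum_comm]
  rw [Finset.sum_congr rfl step, Finset.sum_comm]
  unfold kmL kmTL
  refine Finset.sum_congr rfl (fun t _ => ?_)
  rw [Finset.sum_comm]
  refine Finset.sum_congr rfl (fun i _ => ?_)
  have h1 : ∀ m ∈ Finset.Ioc m0 (m0 + M), ∑ u ∈ Finset.range (U + 1),
      EL K o t (E3_q K o Γ Rp b g r U m u i) = EL K o t (fun L => ∑ u ∈ Finset.range (U + 1),
        E3_q K o Γ Rp b g r U m u i L) := fun m _ => (EL_sum K _ o t _).symm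
  rw [Finset.sum_congr rfl h1, ← EL_sum]
  refine EL_congr K o _ (fun L _ => ?_)
  beta_reduce
  rw [Finset.mul_sum, Finset.mul_sum]
  refine Finset.sum_congr rfl (fun m _ => ?_)
  unfold f2 E3_q
  rw [Finset.mul_sum, Finset.mul_sum]

theorem E3_nonneg (o : V) (Γ : List V) (Rp : V → List V) (b g r U m u T : ℕ) :
    0 ≤ ∑ i : Fin Γ.length, EL K o T (E3_q K o Γ Rp b g r U m u i) :=
  Finset.sum_nonneg (fun i _ => EL_nonneg K o T (fun L _ => E3_q_nonneg o Γ Rp b g r U m u i L))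

theorem tri_g2_le (o : V) (Γ : List V) (Rp : V → List V) (b g r m0 M U S N : ℕ) (hb : b ≤ m0)
    (hS : m0 + M + b + U ≤ S) :
    tri K o Γ Rp m0 M U S N (g2 K o Γ b g r) ≤ kmL K o Γ Rp S (N + U) (fun x ρ L =>
      ind (stL K o x ρ L = r + g + 1) * ∑ m ∈ Finset.Ioc m0 (m0 + M), f2 K o b g U (win b U m L)) := by
  rw [E3_tri o Γ Rp b g r m0 M U S N hb hS, E3_kmL]
  refine Finset.sum_le_sum (fun m _ => Finset.sum_le_sum (fun u hu => ?_))
  rw [Finset.mem_range] at hu
  refine Finset.sum_le_sum_of_subset_of_nonneg ?_ (fun T _ _ => E3_nonneg o Γ Rp b g r U m u T)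
  intro T hT
  rw [Finset.mem_Ico] at hT ⊢
  omega

theorem le_tri_g2 (o : V) (Γ : List V) (Rp : V → List V) (b g r m0 M U S N : ℕ) (hb : b ≤ m0)
    (hS : m0 + M + b + U ≤ S) :
    kmL K o Γ Rp (S + U) N (fun x ρ L =>
      ind (stL K o x ρ L = r + g + 1) * ∑ m ∈ Finset.Ioc m0 (m0 + M), f2 K o b g U (win b U m L))
      ≤ tri K o Γ Rp m0 M U S N (g2 K o Γ b g r) := by
  rw [E3_tri o Γ Rp b g r m0 M U S N hb hS, E3_kmL]
  refine Finset.sum_le_sum (fun m _ => Finset.sum_le_sum (fun u hu => ?_))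
  rw [Finset.mem_range] at hu
  refine Finset.sum_le_sum_of_subset_of_nonneg ?_ (fun T _ _ => E3_nonneg o Γ Rp b g r U m u T)
  intro T hT
  rw [Finset.mem_Ico] at hT ⊢
  omega

end

end Pool.Agent.helper57.HPT
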