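import Pool.Agent.helper57.HPT.E3
import Pool.Agent.helper29.HP.E4
/-!
Module E4 of the project MP_5ae64c_pr: triple sums over words with a long hit after the junction.
-/

open scoped BigOperators Topology
open Filter MeasureTheory

namespace Pool.Agent.helper57.HPT

open Pool.Agent.helper20.HP

section
variable {V : Type} [Fintype V] [DecidableEq V] {K : HW V} {θ : ℝ} {h : ℕ}

/-- killed words split in three parts -/
theorem E4_split3 (o : V) (Γ : List V) (Rp : V → List V) (t m u : ℕ) (hmt : m ≤ t)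
    (f : V → List V → List (Aut K) → ℝ) :
    kmTL K o Γ Rp (t + u) f = ∑ i : Fin Γ.length, EL K o (t - m) (fun P => EL K o u (fun R =>
      EL K o m (fun F => ind (okL K o Γ (Γ.get i) (P ++ (R ++ F))) *
        f (Γ.get i) (Rp (Γ.get i)) (P ++ (R ++ F))))) := by
  unfold kmTL
  refine Finset.sum_congr rfl (fun i _ => ?_)
  have e : t + u = (t - m) + (u + m) := by omega
  rw [e, EL_split]
  refine EL_congr K o _ (fun P _ => ?_)
  rw [EL_split]

/-- killed words split in two parts -/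
theorem E4_split2 (o : V) (Γ : List V) (Rp : V → List V) (t m : ℕ) (hmt : m ≤ t)
    (f : V → List V → List (Aut K) → ℝ) :
    kmTL K o Γ Rp t f = ∑ i : Fin Γ.length, EL K o (t - m) (fun P => 
      EL K o m (fun F => ind (okL K o Γ (Γ.get i) (P ++ F)) *
        f (Γ.get i) (Rp (Γ.get i)) (P ++ F))) := by
  unfold kmTL
  refine Finset.sum_congr rfl (fun i _ => ?_)
  have e : t = (t - m) + m := by omega
  conv_lhs => rw [e, EL_split]

/-- one junction, fixed length, insertions summed -/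
theorem E4_term_a (hP : Par K θ h) (o : V) (Γ : List V) (Rp : V → List V) (g r m U t : ℕ)
    (hmt : m + 2 * h ≤ t) (hU : U ≤ Nat.sqrt (Fintype.card V)) :
    ∑ u ∈ Finset.range (U + 1), ∑ i : Fin Γ.length, EL K o (t - m) (fun P => EL K o u (fun R =>
      EL K o m (fun F => g1 K o Γ (2 * h) g r (Γ.get i) (Rp (Γ.get i)) P R F *
        ind (LHin (2 * h) F.length (Γ.get i) (Rp (Γ.get i)) (vp o (fr K o (Γ.get i)) (P ++ F))))))
      ≤ CZ θ * kmTL K o Γ Rp t (fun x ρ L => ind (LHin (2 * h) m x ρ (vp o (fr K o x) L)) *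
          ind (stL K o x ρ L = r + 1)) := by
  rw [E4_split2 o Γ Rp t m (by omega), Finset.sum_comm, Finset.mul_sum]
  refine Finset.sum_le_sum (fun i _ => ?_)
  rw [← EL_sum, ← EL_mul_left]
  refine EL_mono K o _ (fun P hPl => ?_)
  have e1 : ∑ u ∈ Finset.range (U + 1), EL K o u (fun R =>
      EL K o m (fun F => g1 K o Γ (2 * h) g r (Γ.get i) (Rp (Γ.get i)) P R F *
        ind (LHin (2 * h) F.length (Γ.get i) (Rp (Γ.get i)) (vp o (fr K o (Γ.get i)) (P ++ F)))))
      = EL K o m (fun F => ∑ u ∈ Finset.range (U + 1), EL K o u (fun R =>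
        g1 K o Γ (2 * h) g r (Γ.get i) (Rp (Γ.get i)) P R F *
        ind (LHin (2 * h) F.length (Γ.get i) (Rp (Γ.get i)) (vp o (fr K o (Γ.get i)) (P ++ F))))) := by
    rw [EL_sum]
    refine Finset.sum_congr rfl (fun u _ => ?_)
    exact EL_comm K o u m _
  rw [e1, ← EL_mul_left]
  refine EL_mono K o _ (fun F hFl => ?_)
  have e2 : ∑ u ∈ Finset.range (U + 1), EL K o u (fun R =>
        g1 K o Γ (2 * h) g r (Γ.get i) (Rp (Γ.get i)) P R F *
        ind (LHin (2 * h) F.length (Γ.get i) (Rp (Γ.get i)) (vp o (fr K o (Γ.get i)) (P ++ F))))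
      = (∑ u ∈ Finset.range (U + 1), EL K o u (fun R =>
          ind (Ev K o (2 * h) g (P.rtake (2 * h)) R (F.take (2 * h))))) *
        (ind (okL K o Γ (Γ.get i) (P ++ F)) * (ind (LHin (2 * h) m (Γ.get i) (Rp (Γ.get i))
          (vp o (fr K o (Γ.get i)) (P ++ F))) *
            ind (stL K o (Γ.get i) (Rp (Γ.get i)) (P ++ F) = r + 1))) := by
    rw [Finset.sum_mul]
    refine Finset.sum_congr rfl (fun u _ => ?_)
    rw [← EL_mul_right]
    refine EL_congr K o _ (fun R _ => ?_)
    unfold g1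
    rw [hFl]
    ring
  rw [e2]
  refine mul_le_mul_of_nonneg_right (E4_ins_le hP o (2 * h) g U hU P F (by omega)) ?_
  exact mul_nonneg (ind_nonneg _) (mul_nonneg (ind_nonneg _) (ind_nonneg _))

/-- words with a long hit near the end, letter form of `LH_mass` -/
theorem E4_mass (hP : Par K θ h) (o : V) (Γ : List V) (Rp : V → List V) {J : ℕ} (hΓ : Ok Γ Rp J) (S N r w : ℕ)
    (hw : 4 * w ≤ Nat.sqrt (Fintype.card V)) :
    ∑ t ∈ Finset.Ico S N, kmTL K o Γ Rp t (fun x ρ L =>
        ind (LHin (2 * h) w x ρ (vp o (fr K o x) L)) * ind (stL K o x ρ L = r + 1))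
      ≤ 3 / 2 * CZ θ * ((w : ℝ) + 1) := by
  refine le_trans ?_ (LH_mass hP Γ Rp hΓ N r w hw)
  unfold km
  have e : ∀ t, kmTL K o Γ Rp t (fun x ρ L =>
        ind (LHin (2 * h) w x ρ (vp o (fr K o x) L)) * ind (stL K o x ρ L = r + 1))
      = kmT K Γ Rp t (fun x ρ l => ind (LHin (2 * h) w x ρ l) * lev r x ρ l) := by
    intro t
    rw [kmT_eq_kmTL o]
    rfl
  rw [Finset.sum_congr rfl (fun t _ => e t)]
  refine Finset.sum_le_sum_of_subset_of_nonneg ?_ (fun t _ _ => ?_)
  · intro t ht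
    rw [Finset.mem_Ico] at ht
    exact Finset.mem_range.2 ht.2
  · exact kmT_nonneg K Γ Rp t (fun x ρ l => mul_nonneg (ind_nonneg _) (ind_nonneg _))

theorem err_a (hP : Par K θ h) (o : V) (Γ : List V) (Rp : V → List V) {J : ℕ} (hΓ : Ok Γ Rp J) (g r m0 M U S N : ℕ)
    (hb : 2 * h ≤ m0) (hS : m0 + M + 2 * h + U ≤ S)
    (hL : 4 * (m0 + M + U) ≤ Nat.sqrt (Fintype.card V)) :
    tri K o Γ Rp m0 M U S N (fun x ρ P R F => g1 K o Γ (2 * h) g r x ρ P R F *
        ind (LHin (2 * h) F.length x ρ (vp o (fr K o x) (P ++ F))))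
      ≤ 3 / 2 * CZ θ ^ 2 * (M * ((m0 : ℝ) + M + 1)) := by
  unfold tri
  have hC := E4_CZ_nonneg θ
  have key : ∀ m ∈ Finset.Ioc m0 (m0 + M), ∑ u ∈ Finset.range (U + 1), ∑ t ∈ Finset.Ico S N,
      ∑ i : Fin Γ.length, EL K o (t - m) (fun P => EL K o u (fun R => EL K o m (fun F =>
        g1 K o Γ (2 * h) g r (Γ.get i) (Rp (Γ.get i)) P R F *
        ind (LHin (2 * h) F.length (Γ.get i) (Rp (Γ.get i))
          (vp o (fr K o (Γ.get i)) (P ++ F)))))) ≤ 3 / 2 * CZ θ ^ 2 * ((m0 : ℝ) + M + 1) := by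
    intro m hm
    rw [Finset.mem_Ioc] at hm
    rw [Finset.sum_comm]
    have h1 : ∀ t ∈ Finset.Ico S N, ∑ u ∈ Finset.range (U + 1),
        ∑ i : Fin Γ.length, EL K o (t - m) (fun P => EL K o u (fun R => EL K o m (fun F =>
        g1 K o Γ (2 * h) g r (Γ.get i) (Rp (Γ.get i)) P R F *
        ind (LHin (2 * h) F.length (Γ.get i) (Rp (Γ.get i))
          (vp o (fr K o (Γ.get i)) (P ++ F))))))
        ≤ CZ θ * kmTL K o Γ Rp t (fun x ρ L => ind (LHin (2 * h) m x ρ (vp o (fr K o x) L)) *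
          ind (stL K o x ρ L = r + 1)) := by
      intro t ht
      rw [Finset.mem_Ico] at ht
      exact E4_term_a hP o Γ Rp g r m U t (by omega) (by omega)
    refine (Finset.sum_le_sum h1).trans ?_
    rw [← Finset.mul_sum]
    have h2 := E4_mass hP o Γ Rp hΓ S N r m (by omega)
    have h3 : (m : ℝ) ≤ (m0 : ℝ) + M := by exact_mod_cast hm.2
    calc _ ≤ CZ θ * (3 / 2 * CZ θ * ((m : ℝ) + 1)) := mul_le_mul_of_nonneg_left h2 hC
      _ ≤ CZ θ * (3 / 2 * CZ θ * ((m0 : ℝ) + M + 1)) := by gcongr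
      _ = _ := by ring
  refine (Finset.sum_le_sum key).trans ?_
  rw [Finset.sum_const, Nat.card_Ioc, nsmul_eq_mul]
  have : m0 + M - m0 = M := by omega
  rw [this]
  apply le_of_eq
  ring

theorem err_c (hP : Par K θ h) (o : V) (Γ : List V) (Rp : V → List V) {J : ℕ} (hΓ : Ok Γ Rp J) (g r m0 M U S N : ℕ) (hg : 1 ≤ g)
    (hb : 2 * h ≤ m0) (hS : m0 + M + 2 * h + U ≤ S)
    (hL : 4 * (m0 + M + U) ≤ Nat.sqrt (Fintype.card V)) :
    tri K o Γ Rp m0 M U S N (fun x ρ P R F => g2 K o Γ (2 * h) g r x ρ P R F *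
        ind (LHin (2 * h) (R.length + F.length) x ρ (vp o (fr K o x) (P ++ (R ++ F)))))
      ≤ 3 / 2 * CZ θ * (M * ((m0 : ℝ) + M + U + 1)) := by
  unfold tri
  have hC := E4_CZ_nonneg θ
  have key : ∀ m ∈ Finset.Ioc m0 (m0 + M), ∑ u ∈ Finset.range (U + 1), ∑ t ∈ Finset.Ico S N,
      ∑ i : Fin Γ.length, EL K o (t - m) (fun P => EL K o u (fun R => EL K o m (fun F =>
        g2 K o Γ (2 * h) g r (Γ.get i) (Rp (Γ.get i)) P R F *
        ind (LHin (2 * h) (R.length + F.length) (Γ.get i) (Rp (Γ.get i))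
          (vp o (fr K o (Γ.get i)) (P ++ (R ++ F))))))) ≤ 3 / 2 * CZ θ * ((m0 : ℝ) + M + U + 1) := by
    intro m hm
    rw [Finset.mem_Ioc] at hm
    -- the integrand through the whole word
    have h1 : ∀ u ∈ Finset.range (U + 1), ∀ t ∈ Finset.Ico S N,
        ∑ i : Fin Γ.length, EL K o (t - m) (fun P => EL K o u (fun R => EL K o m (fun F =>
        g2 K o Γ (2 * h) g r (Γ.get i) (Rp (Γ.get i)) P R F *
        ind (LHin (2 * h) (R.length + F.length) (Γ.get i) (Rp (Γ.get i))
          (vp o (fr K o (Γ.get i)) (P ++ (R ++ F)))))))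
        ≤ kmTL K o Γ Rp (t + u) (fun x ρ L =>
          ind (Ev K o (2 * h) g (((win (2 * h) U m L).drop (U - u)).take (2 * h))
            (((win (2 * h) U m L).drop (2 * h + U - u)).take u)
            ((win (2 * h) U m L).drop (2 * h + U))) *
          (ind (LHin (2 * h) (m + U) x ρ (vp o (fr K o x) L)) *
          ind (stL K o x ρ L = r + g + 1))) := by
      intro u hu t ht
      rw [Finset.mem_range] at hu
      rw [Finset.mem_Ico] at ht
      rw [E4_split3 o Γ Rp t m u (by omega)]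
      refine Finset.sum_le_sum (fun i _ => ?_)
      refine EL_mono K o _ (fun P hPl => ?_)
      refine EL_mono K o _ (fun R hRl => ?_)
      refine EL_mono K o _ (fun F hFl => ?_)
      obtain ⟨w1, w2, w3⟩ := E4_win (2 * h) U m P R F (by omega) (by omega) hFl
      rw [hRl] at w1 w2
      rw [w1, w2, w3]
      unfold g2
      have hm1 : ind (LHin (2 * h) (R.length + F.length) (Γ.get i) (Rp (Γ.get i))
          (vp o (fr K o (Γ.get i)) (P ++ (R ++ F))))
          ≤ ind (LHin (2 * h) (m + U) (Γ.get i) (Rp (Γ.get i))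
          (vp o (fr K o (Γ.get i)) (P ++ (R ++ F)))) :=
        ind_mono (fun hh => LHin_mono (by omega) hh)
      have n1 := ind_nonneg (Ev K o (2 * h) g (P.rtake (2 * h)) R (F.take (2 * h)))
      have n2 := ind_nonneg (okL K o Γ (Γ.get i) (P ++ (R ++ F)))
      have n3 := ind_nonneg (stL K o (Γ.get i) (Rp (Γ.get i)) (P ++ (R ++ F)) = r + g + 1)
      calc _ ≤ (ind (Ev K o (2 * h) g (P.rtake (2 * h)) R (F.take (2 * h))) *
            ind (okL K o Γ (Γ.get i) (P ++ (R ++ F))) *
            ind (stL K o (Γ.get i) (Rp (Γ.get i)) (P ++ (R ++ F)) = r + g + 1)) *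
            ind (LHin (2 * h) (m + U) (Γ.get i) (Rp (Γ.get i))
              (vp o (fr K o (Γ.get i)) (P ++ (R ++ F)))) :=
          mul_le_mul_of_nonneg_left hm1 (mul_nonneg (mul_nonneg n1 n2) n3)
        _ = _ := by ring
    have h2 := Finset.sum_le_sum (fun u hu => Finset.sum_le_sum (h1 u hu))
    refine h2.trans ?_
    refine (E4_reindex S N U (fun u t => kmTL K o Γ Rp t (fun x ρ L =>
          ind (Ev K o (2 * h) g (((win (2 * h) U m L).drop (U - u)).take (2 * h))
            (((win (2 * h) U m L).drop (2 * h + U - u)).take u)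
            ((win (2 * h) U m L).drop (2 * h + U))) *
          (ind (LHin (2 * h) (m + U) x ρ (vp o (fr K o x) L)) *
          ind (stL K o x ρ L = r + g + 1)))) (fun u t => ?_)).trans ?_
    · exact E0_kmTL_nonneg o Γ Rp t (fun x ρ L => mul_nonneg (ind_nonneg _)
        (mul_nonneg (ind_nonneg _) (ind_nonneg _)))
    · have h3 : ∀ t ∈ Finset.Ico S (N + U), ∑ u ∈ Finset.range (U + 1), kmTL K o Γ Rp t (fun x ρ L =>
          ind (Ev K o (2 * h) g (((win (2 * h) U m L).drop (U - u)).take (2 * h))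
            (((win (2 * h) U m L).drop (2 * h + U - u)).take u)
            ((win (2 * h) U m L).drop (2 * h + U))) *
          (ind (LHin (2 * h) (m + U) x ρ (vp o (fr K o x) L)) *
          ind (stL K o x ρ L = r + g + 1)))
          ≤ kmTL K o Γ Rp t (fun x ρ L => ind (LHin (2 * h) (m + U) x ρ (vp o (fr K o x) L)) *
            ind (stL K o x ρ L = r + g + 1)) := by
        intro t ht
        rw [Finset.mem_Ico] at ht
        rw [← kmTL_sum]
        refine kmTL_mono o Γ Rp t (fun i L hLl _ => ?_)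
        rw [← Finset.sum_mul]
        have h4 := f2_le_one K o (2 * h) g U (by have := hP.h_pos; omega) hg (win (2 * h) U m L)
          (E4_win_length (2 * h) U m L (by omega) (by omega))
        unfold f2 at h4
        calc _ ≤ 1 * (ind (LHin (2 * h) (m + U) (Γ.get i) (Rp (Γ.get i))
              (vp o (fr K o (Γ.get i)) L)) *
              ind (stL K o (Γ.get i) (Rp (Γ.get i)) L = r + g + 1)) :=
            mul_le_mul_of_nonneg_right h4 (mul_nonneg (ind_nonneg _) (ind_nonneg _))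
          _ = _ := by ring
      refine (Finset.sum_le_sum h3).trans ?_
      refine (E4_mass hP o Γ Rp hΓ S (N + U) (r + g) (m + U) (by omega)).trans ?_
      have h5 : (m : ℝ) ≤ (m0 : ℝ) + M := by exact_mod_cast hm.2
      push_cast
      have h6 : (m : ℝ) + U + 1 ≤ (m0 : ℝ) + M + U + 1 := by linarith
      exact mul_le_mul_of_nonneg_left h6 (by positivity)
  refine (Finset.sum_le_sum key).trans ?_
  rw [Finset.sum_const, Nat.card_Ioc, nsmul_eq_mul]
  have : m0 + M - m0 = M := by omega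
  rw [this]
  apply le_of_eq
  ring

end

end Pool.Agent.helper57.HPT
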