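import Pool.Agent.helper57.HPT.B7
import Pool.Agent.helper26.HP.E5
/-! Module ut:E5 of the project MP_5ae64c_pr: the error term `err_D`. -/

open scoped BigOperators Topology
open Filter MeasureTheory

namespace Pool.Agent.helper57.HPT

open Pool.Agent.helper20.HP

section
variable {V : Type} [Fintype V] [DecidableEq V] {K : HW V} {θ : ℝ} {h : ℕ}

/-- mass of words with given levels -/
theorem E5_mass (K : HW V) (Γ : List V) (Rp : V → List V) (N b : ℕ) (I : Finset ℕ) (c : ℝ) (hc : 0 ≤ c) :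
    ∑ s ∈ Finset.Ico b N, kmT K Γ Rp s (fun x ρ l => ∑ q ∈ I, c * lev q x ρ l)
      ≤ c * ∑ q ∈ I, PhiN K Γ Rp N q := by
  have hnn : ∀ q s, 0 ≤ kmT K Γ Rp s (lev q) := fun q s =>
    kmT_nonneg K Γ Rp s (fun x ρ l => ind_nonneg _)
  calc ∑ s ∈ Finset.Ico b N, kmT K Γ Rp s (fun x ρ l => ∑ q ∈ I, c * lev q x ρ l)
      = ∑ s ∈ Finset.Ico b N, ∑ q ∈ I, c * kmT K Γ Rp s (lev q) := by
        apply Finset.sum_congr rfl
        intro s _
        rw [kmT_sum]
        apply Finset.sum_congr rfl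
        intro q _
        exact kmT_mul_left K Γ Rp s c (lev q)
    _ ≤ ∑ s ∈ Finset.range N, ∑ q ∈ I, c * kmT K Γ Rp s (lev q) := by
        apply Finset.sum_le_sum_of_subset_of_nonneg
        · intro s hs
          rw [Finset.mem_Ico] at hs
          rw [Finset.mem_range]
          exact hs.2
        · intro s _ _
          exact Finset.sum_nonneg (fun q _ => mul_nonneg hc (hnn q s))
    _ = c * ∑ q ∈ I, PhiN K Γ Rp N q := by
        rw [Finset.sum_comm, Finset.mul_sum]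
        apply Finset.sum_congr rfl
        intro q _
        rw [← Finset.mul_sum]
        rfl


theorem E5_sub_nodup (Γ : List V) (Rp : V → List V) {J : ℕ} (hΓ : Ok Γ Rp J) (i : Fin Γ.length) :
    (Γ.get i :: Rp (Γ.get i)).Nodup := by
  exact (hΓ.path _ (List.get_mem Γ i)).1

/-- part with a long hit at the end of the first word -/
theorem E5_A (hP : Par K θ h) (Γ : List V) (Rp : V → List V) {J : ℕ} (hΓ : Ok Γ Rp J) (r K0 N : ℕ) :
    ∑ s ∈ Finset.Ico (2 * h) N, kmT K Γ Rp s (fun x ρ l => ∑ q ∈ Finset.Icc (r - K0) r,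
        CZ θ * (ind (LHin (2 * h) (2 * h) x ρ l) * lev q x ρ l))
      ≤ CZ θ * (((K0 : ℝ) + 1) * (3 / 2 * CZ θ * ((2 * h : ℕ) + 1))) := by
  have hCZ : 0 ≤ CZ θ := by unfold CZ; positivity
  have hnn : ∀ q s, 0 ≤ kmT K Γ Rp s (fun x ρ l => ind (LHin (2 * h) (2 * h) x ρ l) * lev q x ρ l) :=
    fun q s => kmT_nonneg K Γ Rp s (fun x ρ l => mul_nonneg (ind_nonneg _) (ind_nonneg _))
  calc ∑ s ∈ Finset.Ico (2 * h) N, kmT K Γ Rp s (fun x ρ l => ∑ q ∈ Finset.Icc (r - K0) r,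
        CZ θ * (ind (LHin (2 * h) (2 * h) x ρ l) * lev q x ρ l))
      = ∑ s ∈ Finset.Ico (2 * h) N, ∑ q ∈ Finset.Icc (r - K0) r,
        CZ θ * kmT K Γ Rp s (fun x ρ l => ind (LHin (2 * h) (2 * h) x ρ l) * lev q x ρ l) := by
        apply Finset.sum_congr rfl
        intro s _
        rw [kmT_sum]
        apply Finset.sum_congr rfl
        intro q _
        exact kmT_mul_left K Γ Rp s (CZ θ)
          (fun x ρ l => ind (LHin (2 * h) (2 * h) x ρ l) * lev q x ρ l)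
    _ ≤ ∑ s ∈ Finset.range N, ∑ q ∈ Finset.Icc (r - K0) r,
        CZ θ * kmT K Γ Rp s (fun x ρ l => ind (LHin (2 * h) (2 * h) x ρ l) * lev q x ρ l) := by
        apply Finset.sum_le_sum_of_subset_of_nonneg
        · intro s hs
          rw [Finset.mem_Ico] at hs
          rw [Finset.mem_range]
          exact hs.2
        · intro s _ _
          exact Finset.sum_nonneg (fun q _ => mul_nonneg hCZ (hnn q s))
    _ = ∑ q ∈ Finset.Icc (r - K0) r,
        CZ θ * km K Γ Rp N (fun x ρ l => ind (LHin (2 * h) (2 * h) x ρ l) * lev q x ρ l) := by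
        rw [Finset.sum_comm]
        apply Finset.sum_congr rfl
        intro q _
        rw [← Finset.mul_sum]
        rfl
    _ ≤ ∑ q ∈ Finset.Icc (r - K0) r, CZ θ * (3 / 2 * CZ θ * ((2 * h : ℕ) + 1)) := by
        apply Finset.sum_le_sum
        intro q _
        apply mul_le_mul_of_nonneg_left _ hCZ
        have h16 := hP.h_le
        exact_mod_cast LH_mass hP Γ Rp hΓ N q (2 * h) (by omega)
    _ = (Finset.Icc (r - K0) r).card * (CZ θ * (3 / 2 * CZ θ * ((2 * h : ℕ) + 1))) := by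
        rw [Finset.sum_const, nsmul_eq_mul]
    _ ≤ ((K0 : ℝ) + 1) * (CZ θ * (3 / 2 * CZ θ * ((2 * h : ℕ) + 1))) := by
        apply mul_le_mul_of_nonneg_right (E5_card r K0)
        positivity
    _ = CZ θ * (((K0 : ℝ) + 1) * (3 / 2 * CZ θ * ((2 * h : ℕ) + 1))) := by ring

theorem E5_B (hP : Par K θ h) (Γ : List V) (Rp : V → List V) {J : ℕ} (hΓ : Ok Γ Rp J) (r K0 N : ℕ)
    (hK : 4 * K0 ≤ Nat.sqrt (Fintype.card V)) :
    ∑ s ∈ Finset.Ico (2 * h) N, kmT K Γ Rp s (fun x ρ l =>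
      ind (¬ LHin (2 * h) (2 * h) x ρ l) *
        ∑ m ∈ Finset.range (K0 + 1), W K m (lst x l) (fun F =>
          ind ((run (x :: ρ) l).length + lel (lst x l) F = r + 1) *
          ind (∃ y ∈ F, y ∈ Γ ∨ y ∈ run (x :: ρ) (l.rdrop (2 * h)))))
      ≤ E5k1 θ (Fintype.card V) h K0 Γ.length r *
        ∑ q ∈ Finset.Icc (r - K0 - 2 * h) (r + 2 * h), PhiN K Γ Rp N q := by
  have hCZ : 0 ≤ CZ θ := by unfold CZ; positivity
  have hθ := hP.one_le
  have hk1 : 0 ≤ E5k1 θ (Fintype.card V) h K0 Γ.length r := by unfold E5k1; positivity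
  rw [Finset.sum_Ico_eq_sum_range]
  calc ∑ s ∈ Finset.range (N - 2 * h), kmT K Γ Rp (2 * h + s) (fun x ρ l =>
      ind (¬ LHin (2 * h) (2 * h) x ρ l) *
        ∑ m ∈ Finset.range (K0 + 1), W K m (lst x l) (fun F =>
          ind ((run (x :: ρ) l).length + lel (lst x l) F = r + 1) *
          ind (∃ y ∈ F, y ∈ Γ ∨ y ∈ run (x :: ρ) (l.rdrop (2 * h)))))
      ≤ ∑ s ∈ Finset.range (N - 2 * h), kmT K Γ Rp s (fun x ρ l =>
        ∑ q ∈ Finset.Icc (r - K0 - 2 * h) (r + 2 * h),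
          E5k1 θ (Fintype.card V) h K0 Γ.length r * lev q x ρ l) := by
        apply Finset.sum_le_sum
        intro s _
        rw [add_comm (2 * h) s, kmT_split]
        apply kmT_mono
        intro i l _ _
        exact E5_B1 hP Γ r K0 hK (Γ.get i) (Rp (Γ.get i)) l (E5_sub_nodup Γ Rp hΓ i)
    _ = ∑ s ∈ Finset.Ico 0 (N - 2 * h), kmT K Γ Rp s (fun x ρ l =>
        ∑ q ∈ Finset.Icc (r - K0 - 2 * h) (r + 2 * h),
          E5k1 θ (Fintype.card V) h K0 Γ.length r * lev q x ρ l) := by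
        rw [Finset.range_eq_Ico]
    _ ≤ E5k1 θ (Fintype.card V) h K0 Γ.length r *
        ∑ q ∈ Finset.Icc (r - K0 - 2 * h) (r + 2 * h), PhiN K Γ Rp (N - 2 * h) q :=
        E5_mass K Γ Rp (N - 2 * h) 0 _ _ hk1
    _ ≤ E5k1 θ (Fintype.card V) h K0 Γ.length r *
        ∑ q ∈ Finset.Icc (r - K0 - 2 * h) (r + 2 * h), PhiN K Γ Rp N q := by
        apply mul_le_mul_of_nonneg_left _ hk1
        apply Finset.sum_le_sum
        intro q _
        exact km_mono_N K Γ Rp (Nat.sub_le _ _) (fun x ρ l => ind_nonneg _)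

end

theorem err_D (θ : ℝ) : ∃ C : ℝ, 0 < C ∧ ∀ (V : Type) [Fintype V] [DecidableEq V] (K : HW V) (h : ℕ),
    Par K θ h → ∀ (Γ : List V) (Rp : V → List V) (J : ℕ), Ok Γ Rp J → ∀ A : ℝ, 1 ≤ A →
    (Γ.length : ℝ) ≤ A * Nat.sqrt (Fintype.card V) →
    ∀ r K0 N : ℕ, (r : ℝ) ≤ A * Nat.sqrt (Fintype.card V) → 2 * h ≤ K0 →
    4 * K0 ≤ Nat.sqrt (Fintype.card V) →
    ∑ m ∈ Finset.range (K0 + 1), ∑ s ∈ Finset.Ico (2 * h) N, kmT K Γ Rp s (fun x ρ l =>
      W K m (lst x l) (fun F =>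
        ind ((run (x :: ρ) l).length + lel (lst x l) F = r + 1) *
        ind ((∃ y ∈ F, y ∈ Γ ∨ y ∈ run (x :: ρ) (l.rdrop (2 * h))) ∨
          (∃ y ∈ F.drop (2 * h), y ∈ (x :: l).rtake (2 * h + 1)))))
      ≤ C * (A ^ 2 * J) * (((K0 : ℝ) + 1) * (K0 + h)) := by
  set C0 : ℝ := 9 / 2 * CZ θ ^ 2 + 171 / 2 * (CZ θ * θ * CP θ) with hC0
  refine ⟨|C0| + 1, by positivity, ?_⟩
  intro V _ _ K h hP Γ Rp J hΓ A hA1 hΓl r K0 N hr hK2 hK4
  have hJ1 : (1 : ℝ) ≤ J := by exact_mod_cast hΓ.pos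
  have hθ := hP.one_le
  have hh1 := hP.h_pos
  have hh16 := hP.h_le
  have hCZ : 0 ≤ CZ θ := by unfold CZ; positivity
  have hCP : 0 ≤ CP θ := by unfold CP; positivity
  set n := Fintype.card V with hn
  set L := Nat.sqrt n with hL
  have hL16 : 16 ≤ L := by omega
  have hLR : (16 : ℝ) ≤ L := by exact_mod_cast hL16
  have hLn : (L : ℝ) * L ≤ n := by exact_mod_cast Nat.sqrt_le n
  have hn0 : (0 : ℝ) < n := by nlinarith
  have hA0 : 0 ≤ A := by linarith
  -- exchange of sums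
  have hswap : ∑ m ∈ Finset.range (K0 + 1), ∑ s ∈ Finset.Ico (2 * h) N, kmT K Γ Rp s (fun x ρ l =>
      W K m (lst x l) (fun F =>
        ind ((run (x :: ρ) l).length + lel (lst x l) F = r + 1) *
        ind ((∃ y ∈ F, y ∈ Γ ∨ y ∈ run (x :: ρ) (l.rdrop (2 * h))) ∨
          (∃ y ∈ F.drop (2 * h), y ∈ (x :: l).rtake (2 * h + 1)))))
      = ∑ s ∈ Finset.Ico (2 * h) N, kmT K Γ Rp s (fun x ρ l =>
        ∑ m ∈ Finset.range (K0 + 1), W K m (lst x l) (fun F =>
        ind ((run (x :: ρ) l).length + lel (lst x l) F = r + 1) *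
        ind ((∃ y ∈ F, y ∈ Γ ∨ y ∈ run (x :: ρ) (l.rdrop (2 * h))) ∨
          (∃ y ∈ F.drop (2 * h), y ∈ (x :: l).rtake (2 * h + 1))))) := by
    rw [Finset.sum_comm]
    apply Finset.sum_congr rfl
    intro s _
    rw [kmT_sum]
  rw [hswap]
  have hpt : ∑ s ∈ Finset.Ico (2 * h) N, kmT K Γ Rp s (fun x ρ l =>
        ∑ m ∈ Finset.range (K0 + 1), W K m (lst x l) (fun F =>
        ind ((run (x :: ρ) l).length + lel (lst x l) F = r + 1) *
        ind ((∃ y ∈ F, y ∈ Γ ∨ y ∈ run (x :: ρ) (l.rdrop (2 * h))) ∨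
          (∃ y ∈ F.drop (2 * h), y ∈ (x :: l).rtake (2 * h + 1)))))
      ≤ ∑ s ∈ Finset.Ico (2 * h) N, (kmT K Γ Rp s (fun x ρ l => ∑ q ∈ Finset.Icc (r - K0) r,
          CZ θ * (ind (LHin (2 * h) (2 * h) x ρ l) * lev q x ρ l)) +
        kmT K Γ Rp s (fun x ρ l => ind (¬ LHin (2 * h) (2 * h) x ρ l) *
          ∑ m ∈ Finset.range (K0 + 1), W K m (lst x l) (fun F =>
            ind ((run (x :: ρ) l).length + lel (lst x l) F = r + 1) *
            ind (∃ y ∈ F, y ∈ Γ ∨ y ∈ run (x :: ρ) (l.rdrop (2 * h))))) +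
        kmT K Γ Rp s (fun x ρ l => ∑ q ∈ Finset.Icc (r - K0) r, E5k3 θ n h K0 * lev q x ρ l)) := by
    apply Finset.sum_le_sum
    intro s _
    rw [← kmT_add, ← kmT_add]
    apply kmT_mono
    intro i l _ _
    exact E5_point hP Γ r K0 hK4 _ _ l
  refine le_trans hpt ?_
  rw [Finset.sum_add_distrib, Finset.sum_add_distrib]
  have hTA := E5_A hP Γ Rp hΓ r K0 N
  have hTB := E5_B hP Γ Rp hΓ r K0 N hK4
  have hk3 : 0 ≤ E5k3 θ n h K0 := by unfold E5k3; positivity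
  have hk1 : 0 ≤ E5k1 θ n h K0 Γ.length r := by unfold E5k1; positivity
  have hTC := E5_mass K Γ Rp N (2 * h) (Finset.Icc (r - K0) r) (E5k3 θ n h K0) hk3
  have hK0R : (0 : ℝ) ≤ K0 := Nat.cast_nonneg _
  have hhR : (1 : ℝ) ≤ h := by exact_mod_cast hh1
  have hhL : 16 * (h : ℝ) ≤ L := by exact_mod_cast hh16
  have hKL : 4 * (K0 : ℝ) ≤ L := by exact_mod_cast hK4
  have hrR : (0 : ℝ) ≤ r := Nat.cast_nonneg _
  -- masses
  have hmassC : ∑ q ∈ Finset.Icc (r - K0) r, PhiN K Γ Rp N q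
      ≤ ((K0 : ℝ) + 1) * (J * (CP θ * ((1 + A) * L))) := by
    calc ∑ q ∈ Finset.Icc (r - K0) r, PhiN K Γ Rp N q
        ≤ ∑ q ∈ Finset.Icc (r - K0) r, J * (CP θ * ((1 + A) * L)) := by
          apply Finset.sum_le_sum
          intro q hq
          rw [Finset.mem_Icc] at hq
          refine le_trans (phi_bound hP Γ Rp hΓ N q) ?_
          apply mul_le_mul_of_nonneg_left _ (by linarith : (0 : ℝ) ≤ J)
          apply mul_le_mul_of_nonneg_left _ hCP
          have : (q : ℝ) ≤ r := by exact_mod_cast hq.2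
          linarith
      _ = (Finset.Icc (r - K0) r).card * (J * (CP θ * ((1 + A) * L))) := by
          rw [Finset.sum_const, nsmul_eq_mul]
      _ ≤ _ := by
          apply mul_le_mul_of_nonneg_right (E5_card r K0)
          positivity
  have hmassB : ∑ q ∈ Finset.Icc (r - K0 - 2 * h) (r + 2 * h), PhiN K Γ Rp N q
      ≤ ((K0 : ℝ) + 4 * h + 1) * (J * (CP θ * ((2 + A) * L))) := by
    calc ∑ q ∈ Finset.Icc (r - K0 - 2 * h) (r + 2 * h), PhiN K Γ Rp N q
        ≤ ∑ q ∈ Finset.Icc (r - K0 - 2 * h) (r + 2 * h), J * (CP θ * ((2 + A) * L)) := by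
          apply Finset.sum_le_sum
          intro q hq
          rw [Finset.mem_Icc] at hq
          refine le_trans (phi_bound hP Γ Rp hΓ N q) ?_
          apply mul_le_mul_of_nonneg_left _ (by linarith : (0 : ℝ) ≤ J)
          apply mul_le_mul_of_nonneg_left _ hCP
          have : (q : ℝ) ≤ r + 2 * h := by exact_mod_cast hq.2
          have hh2 : (2 : ℝ) * h ≤ L := by linarith
          have : (Nat.sqrt n : ℝ) = L := by rw [hL]
          nlinarith
      _ = (Finset.Icc (r - K0 - 2 * h) (r + 2 * h)).card * (J * (CP θ * ((2 + A) * L))) := by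
          rw [Finset.sum_const, nsmul_eq_mul]
      _ ≤ _ := by
          apply mul_le_mul_of_nonneg_right _ (by positivity)
          rw [Nat.card_Icc]
          have : r + 2 * h + 1 - (r - K0 - 2 * h) ≤ K0 + 4 * h + 1 := by omega
          calc ((r + 2 * h + 1 - (r - K0 - 2 * h) : ℕ) : ℝ) ≤ ((K0 + 4 * h + 1 : ℕ) : ℝ) := by
                exact_mod_cast this
            _ = (K0 : ℝ) + 4 * h + 1 := by push_cast; ring
  -- numerics
  have hT1 : CZ θ * (((K0 : ℝ) + 1) * (3 / 2 * CZ θ * ((2 * h : ℕ) + 1)))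
      ≤ 9 / 2 * CZ θ ^ 2 * (((K0 : ℝ) + 1) * (K0 + h)) := by
    push_cast
    have e : 2 * (h : ℝ) + 1 ≤ 3 * (K0 + h) := by linarith
    have : CZ θ * (((K0 : ℝ) + 1) * (3 / 2 * CZ θ * (2 * h + 1)))
        = 3 / 2 * CZ θ ^ 2 * ((K0 : ℝ) + 1) * (2 * h + 1) := by ring
    rw [this]
    calc 3 / 2 * CZ θ ^ 2 * ((K0 : ℝ) + 1) * (2 * h + 1)
        ≤ 3 / 2 * CZ θ ^ 2 * ((K0 : ℝ) + 1) * (3 * (K0 + h)) :=
          mul_le_mul_of_nonneg_left e (by positivity)
      _ = _ := by ring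
  have hT2 : E5k1 θ n h K0 Γ.length r *
        ∑ q ∈ Finset.Icc (r - K0 - 2 * h) (r + 2 * h), PhiN K Γ Rp N q
      ≤ 15 / 2 * (CZ θ * θ * CP θ * (2 * A + 1) * (A + 2)) * J * (((K0 : ℝ) + 1) * (K0 + h)) := by
    have hk1' : E5k1 θ n h K0 Γ.length r
        ≤ CZ θ * θ * (K0 * ((2 * A + 1) * L) * (3 / (2 * (n : ℝ)))) := by
      unfold E5k1
      apply mul_le_mul_of_nonneg_left _ (by positivity)
      apply mul_le_mul_of_nonneg_right _ (by positivity)
      apply mul_le_mul_of_nonneg_left _ hK0R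
      nlinarith
    calc E5k1 θ n h K0 Γ.length r *
        ∑ q ∈ Finset.Icc (r - K0 - 2 * h) (r + 2 * h), PhiN K Γ Rp N q
        ≤ (CZ θ * θ * (K0 * ((2 * A + 1) * L) * (3 / (2 * (n : ℝ))))) *
          (((K0 : ℝ) + 4 * h + 1) * (J * (CP θ * ((2 + A) * L)))) :=
          mul_le_mul hk1' hmassB (Finset.sum_nonneg (fun q _ => PhiN_nonneg K Γ Rp N q))
            (by positivity)
      _ = (CZ θ * θ * CP θ * (2 * A + 1) * (A + 2)) * J * (3 / 2) *
          ((K0 : ℝ) * (K0 + 4 * h + 1)) * ((L : ℝ) * L / n) := by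
          field_simp
          ring
      _ ≤ (CZ θ * θ * CP θ * (2 * A + 1) * (A + 2)) * J * (3 / 2) *
          ((K0 : ℝ) * (K0 + 4 * h + 1)) * 1 := by
          apply mul_le_mul_of_nonneg_left _ (by positivity)
          rw [div_le_one hn0]
          exact hLn
      _ = (CZ θ * θ * CP θ * (2 * A + 1) * (A + 2)) * J * (3 / 2) *
          ((K0 : ℝ) * (K0 + 4 * h + 1)) := by ring
      _ ≤ (CZ θ * θ * CP θ * (2 * A + 1) * (A + 2)) * J * (3 / 2) *
          (5 * (((K0 : ℝ) + 1) * (K0 + h))) := by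
          apply mul_le_mul_of_nonneg_left _ (by positivity)
          nlinarith
      _ = _ := by ring
  have hT3 : E5k3 θ n h K0 * ∑ q ∈ Finset.Icc (r - K0) r, PhiN K Γ Rp N q
      ≤ 9 * (CZ θ * θ * CP θ * (1 + A)) * J * (((K0 : ℝ) + 1) * (K0 + h)) := by
    calc E5k3 θ n h K0 * ∑ q ∈ Finset.Icc (r - K0) r, PhiN K Γ Rp N q
        ≤ E5k3 θ n h K0 * (((K0 : ℝ) + 1) * (J * (CP θ * ((1 + A) * L)))) :=
          mul_le_mul_of_nonneg_left hmassC hk3
      _ = (CZ θ * θ * CP θ * (1 + A)) * J * 3 * (2 * h + 1) * ((K0 : ℝ) + 1) *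
          ((K0 : ℝ) * L / n) := by
          unfold E5k3
          push_cast
          field_simp
      _ ≤ (CZ θ * θ * CP θ * (1 + A)) * J * 3 * (2 * h + 1) * ((K0 : ℝ) + 1) * 1 := by
          apply mul_le_mul_of_nonneg_left _ (by positivity)
          rw [div_le_one hn0]
          nlinarith
      _ = (CZ θ * θ * CP θ * (1 + A)) * J * 3 * ((K0 : ℝ) + 1) * (2 * h + 1) := by ring
      _ ≤ (CZ θ * θ * CP θ * (1 + A)) * J * 3 * ((K0 : ℝ) + 1) * (3 * (K0 + h)) := by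
          apply mul_le_mul_of_nonneg_left _ (by positivity)
          linarith
      _ = _ := by ring
  have hC0' : C0 ≤ |C0| + 1 := by
    have := le_abs_self C0
    linarith
  have hpos : 0 ≤ ((K0 : ℝ) + 1) * (K0 + h) := by positivity
  calc _ ≤ CZ θ * (((K0 : ℝ) + 1) * (3 / 2 * CZ θ * ((2 * h : ℕ) + 1))) +
        E5k1 θ n h K0 Γ.length r *
          ∑ q ∈ Finset.Icc (r - K0 - 2 * h) (r + 2 * h), PhiN K Γ Rp N q +
        E5k3 θ n h K0 * ∑ q ∈ Finset.Icc (r - K0) r, PhiN K Γ Rp N q :=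
        add_le_add (add_le_add hTA hTB) hTC
    _ ≤ (9 / 2 * CZ θ ^ 2 + 15 / 2 * (CZ θ * θ * CP θ * (2 * A + 1) * (A + 2)) * J +
          9 * (CZ θ * θ * CP θ * (1 + A)) * J) * (((K0 : ℝ) + 1) * (K0 + h)) := by
        linarith
    _ ≤ (C0 * (A ^ 2 * J)) * (((K0 : ℝ) + 1) * (K0 + h)) := by
        refine mul_le_mul_of_nonneg_right ?_ hpos
        have hD : 0 ≤ CZ θ * θ * CP θ := by positivity
        have e1 : (2 * A + 1) * (A + 2) ≤ 9 * A ^ 2 := by nlinarith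
        have e2 : 1 + A ≤ 2 * A ^ 2 := by nlinarith
        have e3 : 1 ≤ A ^ 2 * J := by nlinarith
        have f1 : CZ θ * θ * CP θ * (2 * A + 1) * (A + 2) * J ≤ CZ θ * θ * CP θ * (9 * A ^ 2) * J := by
          have := mul_le_mul_of_nonneg_left e1 hD
          have := mul_le_mul_of_nonneg_right this (by linarith : (0 : ℝ) ≤ J)
          calc _ = CZ θ * θ * CP θ * ((2 * A + 1) * (A + 2)) * J := by ring
            _ ≤ _ := this
        have f2 : CZ θ * θ * CP θ * (1 + A) * J ≤ CZ θ * θ * CP θ * (2 * A ^ 2) * J :=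
          mul_le_mul_of_nonneg_right (mul_le_mul_of_nonneg_left e2 hD) (by linarith)
        have f3 : 9 / 2 * CZ θ ^ 2 ≤ 9 / 2 * CZ θ ^ 2 * (A ^ 2 * J) :=
          le_mul_of_one_le_right (by positivity) e3
        rw [hC0]
        calc _ ≤ 9 / 2 * CZ θ ^ 2 * (A ^ 2 * J) + 15 / 2 * (CZ θ * θ * CP θ * (9 * A ^ 2) * J) +
            9 * (CZ θ * θ * CP θ * (2 * A ^ 2) * J) := by linarith
          _ = _ := by ring
    _ ≤ ((|C0| + 1) * (A ^ 2 * J)) * (((K0 : ℝ) + 1) * (K0 + h)) :=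
        mul_le_mul_of_nonneg_right (mul_le_mul_of_nonneg_right hC0' (by positivity)) hpos

end Pool.Agent.helper57.HPT
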