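import Pool.Agent.helper57.HPT.B7
import Pool.Agent.helper81.HP.E6
/-! # MP_5ae64c_pr, module E6: the error term err_B (helper81) -/

open scoped BigOperators Topology
open Filter MeasureTheory

namespace Pool.Agent.helper57.HPT

open Pool.Agent.helper20.HP

open Finset

section E6States

variable {V : Type} [DecidableEq V]

omit [DecidableEq V] in
theorem E6_nodup (Γ : List V) (Rp : V → List V) {J : ℕ} (hΓ : Ok Γ Rp J) (i : Fin Γ.length) :
    (Γ.get i :: Rp (Γ.get i)).Nodup := by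
  exact (hΓ.path _ (List.get_mem Γ i)).1

end E6States

variable {V : Type} [Fintype V] [DecidableEq V] {K : HW V} {θ : ℝ} {h : ℕ}

/-- moving the sums over `m` and `u` inside -/
theorem E6_swap (K : HW V) (Γ : List V) (Rp : V → List V) (K0 U a b : ℕ)
    (f : ℕ → ℕ → V → List V → List V → ℝ) :
    ∑ m ∈ range (K0 + 1), ∑ u ∈ range (U + 1), ∑ s ∈ Finset.Ico a b, kmT K Γ Rp s (f m u)
      = ∑ s ∈ Finset.Ico a b, kmT K Γ Rp s (fun x ρ l =>
          ∑ m ∈ range (K0 + 1), ∑ u ∈ range (U + 1), f m u x ρ l) := by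
  calc ∑ m ∈ range (K0 + 1), ∑ u ∈ range (U + 1), ∑ s ∈ Finset.Ico a b, kmT K Γ Rp s (f m u)
      = ∑ m ∈ range (K0 + 1), ∑ s ∈ Finset.Ico a b, ∑ u ∈ range (U + 1), kmT K Γ Rp s (f m u) :=
        Finset.sum_congr rfl fun m _ => Finset.sum_comm
    _ = ∑ s ∈ Finset.Ico a b, ∑ m ∈ range (K0 + 1), ∑ u ∈ range (U + 1), kmT K Γ Rp s (f m u) :=
        Finset.sum_comm
    _ = _ := by
        refine Finset.sum_congr rfl fun s _ => ?_
        rw [kmT_sum]
        refine Finset.sum_congr rfl fun m _ => ?_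
        rw [kmT_sum]

/-- the words with a long hit in the last `2h` steps -/
theorem E6_partLH (hP : Par K θ h) (Γ : List V) (Rp : V → List V) {J : ℕ} (hΓ : Ok Γ Rp J) (r g K0 U N : ℕ)
    (hKU : 4 * (K0 + U) ≤ Nat.sqrt (Fintype.card V)) :
    ∑ s ∈ Finset.Ico (2 * h) N, kmT K Γ Rp s (fun x ρ l => ind (LHin (2 * h) (2 * h) x ρ l) *
        ∑ m ∈ range (K0 + 1), ∑ u ∈ range (U + 1), E6_f K h Γ r g m u x ρ l)
      ≤ CZ θ ^ 2 * (((K0 : ℝ) + 1) * (3 / 2 * CZ θ * (2 * h + 1))) := by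
  have hCZ := E6_CZ_nonneg θ
  have hh := hP.h_le
  have hKs : K0 ≤ Nat.sqrt (Fintype.card V) := by omega
  have hUs : U ≤ Nat.sqrt (Fintype.card V) := by omega
  calc ∑ s ∈ Finset.Ico (2 * h) N, kmT K Γ Rp s (fun x ρ l => ind (LHin (2 * h) (2 * h) x ρ l) *
        ∑ m ∈ range (K0 + 1), ∑ u ∈ range (U + 1), E6_f K h Γ r g m u x ρ l)
      ≤ ∑ s ∈ Finset.Ico (2 * h) N, kmT K Γ Rp s (fun x ρ l => CZ θ ^ 2 *
          ∑ j ∈ range (K0 + 1), ind (LHin (2 * h) (2 * h) x ρ l) * lev (r - j) x ρ l) := by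
        refine Finset.sum_le_sum fun s _ => kmT_mono K Γ Rp s fun i l _ _ => ?_
        refine (mul_le_mul_of_nonneg_left (E6_crude hP Γ r g K0 U hKs hUs _ _ _)
          (ind_nonneg _)).trans ?_
        rw [← Finset.mul_sum]
        have h1 : ∑ j ∈ range (K0 + 1), ind ((run (Γ.get i :: Rp (Γ.get i)) l).length + j = r + 1)
            ≤ ∑ j ∈ range (K0 + 1), lev (r - j) (Γ.get i) (Rp (Γ.get i)) l :=
          Finset.sum_le_sum fun j _ => E6_lev _ _ _ _ _
        have h2 := mul_le_mul_of_nonneg_left h1 (ind_nonneg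
          (LHin (2 * h) (2 * h) (Γ.get i) (Rp (Γ.get i)) l))
        have h3 := mul_le_mul_of_nonneg_left h2 (pow_nonneg hCZ 2)
        linarith
    _ ≤ ∑ s ∈ Finset.range N, kmT K Γ Rp s (fun x ρ l => CZ θ ^ 2 *
          ∑ j ∈ range (K0 + 1), ind (LHin (2 * h) (2 * h) x ρ l) * lev (r - j) x ρ l) := by
        refine Finset.sum_le_sum_of_subset_of_nonneg (fun s hs => ?_) fun s _ _ => ?_
        · simp only [Finset.mem_Ico] at hs; simp [hs.2]
        · refine kmT_nonneg K Γ Rp s fun x ρ l => mul_nonneg (pow_nonneg hCZ 2)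
            (Finset.sum_nonneg fun j _ => mul_nonneg (ind_nonneg _) (ind_nonneg _))
    _ = CZ θ ^ 2 * ∑ j ∈ range (K0 + 1), km K Γ Rp N (fun x ρ l =>
          ind (LHin (2 * h) (2 * h) x ρ l) * lev (r - j) x ρ l) := by
        rw [← km_sum, ← km_mul_left]; rfl
    _ ≤ CZ θ ^ 2 * ∑ _j ∈ range (K0 + 1), 3 / 2 * CZ θ * (((2 * h : ℕ) : ℝ) + 1) :=
        mul_le_mul_of_nonneg_left (Finset.sum_le_sum fun j _ =>
          LH_mass hP Γ Rp hΓ N (r - j) (2 * h) (by omega)) (pow_nonneg hCZ 2)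
    _ = _ := by
        rw [Finset.sum_const, Finset.card_range, nsmul_eq_mul]
        push_cast
        ring

/-- the words without long hit in the last `2h` steps -/
theorem E6_partNo (hP : Par K θ h) (Γ : List V) (Rp : V → List V) {J : ℕ} (hΓ : Ok Γ Rp J) (A : ℝ)
    (hΓl : (Γ.length : ℝ) ≤ A * Nat.sqrt (Fintype.card V)) (r g K0 U N : ℕ)
    (hr : (r : ℝ) ≤ A * Nat.sqrt (Fintype.card V))
    (hKU : 4 * (K0 + U) ≤ Nat.sqrt (Fintype.card V)) :
    ∑ s ∈ Finset.Ico (2 * h) N, kmT K Γ Rp s (fun x ρ l => (1 - ind (LHin (2 * h) (2 * h) x ρ l)) *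
        ∑ m ∈ range (K0 + 1), ∑ u ∈ range (U + 1), E6_f K h Γ r g m u x ρ l)
      ≤ (CZ θ ^ 2 * θ * (3 / (2 * (Fintype.card V : ℝ))) *
        (((U : ℝ) + K0) * ((2 * A + 1) * Nat.sqrt (Fintype.card V)) +
          2 * K0 * Nat.sqrt (Fintype.card V))) *
        (((K0 : ℝ) + 4 * h + 1) * ((J * CP θ) * ((2 + A) * Nat.sqrt (Fintype.card V)))) := by
  set sn : ℝ := (Nat.sqrt (Fintype.card V) : ℝ) with hsn
  have hCZ := E6_CZ_nonneg θ
  have hh := hP.h_le
  have hθ : 0 ≤ θ := le_trans zero_le_one hP.one_le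
  have hCP : 0 ≤ CP θ := by unfold CP; positivity
  have hh1 := hP.h_pos
  have hsn0 : 0 ≤ sn := Nat.cast_nonneg _
  have hA0 : 0 ≤ A := by
    have h1 : (0 : ℝ) < sn := by
      rw [hsn]; exact_mod_cast (show 0 < Nat.sqrt (Fintype.card V) by omega)
    by_contra hneg
    push Not at hneg
    have := mul_neg_of_neg_of_pos hneg h1
    have h2 : (0 : ℝ) ≤ r := Nat.cast_nonneg _
    linarith
  set E : ℝ := CZ θ ^ 2 * θ * (3 / (2 * (Fintype.card V : ℝ))) *
        (((U : ℝ) + K0) * ((2 * A + 1) * sn) + 2 * K0 * sn) with hE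
  have hE0 : 0 ≤ E := by positivity
  -- the pointwise bound
  have key : ∀ (i : Fin Γ.length) (l : List V),
      W K (2 * h) (lst (Γ.get i) l) (fun B => ind (∀ y ∈ B, y ∉ Γ) *
        ((1 - ind (LHin (2 * h) (2 * h) (Γ.get i) (Rp (Γ.get i)) (l ++ B))) *
          ∑ m ∈ range (K0 + 1), ∑ u ∈ range (U + 1),
            E6_f K h Γ r g m u (Γ.get i) (Rp (Γ.get i)) (l ++ B)))
      ≤ ∑ j ∈ range (K0 + 4 * h + 1), E * lev (r + 2 * h - j) (Γ.get i) (Rp (Γ.get i)) l := by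
    intro i l
    set x := Γ.get i with hx
    set ρ := Rp (Γ.get i) with hρ
    have hnd : (x :: ρ).Nodup := E6_nodup Γ Rp hΓ i
    have hrhs0 : 0 ≤ ∑ j ∈ range (K0 + 4 * h + 1), E * lev (r + 2 * h - j) x ρ l :=
      Finset.sum_nonneg fun j _ => mul_nonneg hE0 (ind_nonneg _)
    by_cases hlev : (run (x :: ρ) l).length ≤ r + 2 * h + 1 ∧
        r + 1 ≤ (run (x :: ρ) l).length + K0 + 2 * h
    · have hL1 := E6_len_pos x ρ l
      have hsum : E ≤ ∑ j ∈ range (K0 + 4 * h + 1), E * lev (r + 2 * h - j) x ρ l := by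
        have hj : r + 2 * h + 1 - (run (x :: ρ) l).length ∈ range (K0 + 4 * h + 1) := by
          rw [Finset.mem_range]; omega
        have h1 := Finset.single_le_sum (f := fun j => E * lev (r + 2 * h - j) x ρ l)
          (fun j _ => mul_nonneg hE0 (ind_nonneg _)) hj
        refine le_trans (le_of_eq ?_) h1
        unfold lev
        rw [ind_true (by omega), mul_one]
      refine le_trans ?_ hsum
      calc W K (2 * h) (lst x l) (fun B => ind (∀ y ∈ B, y ∉ Γ) *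
            ((1 - ind (LHin (2 * h) (2 * h) x ρ (l ++ B))) *
            ∑ m ∈ range (K0 + 1), ∑ u ∈ range (U + 1), E6_f K h Γ r g m u x ρ (l ++ B)))
          ≤ W K (2 * h) (lst x l) (fun B =>
            ∑ m ∈ range (K0 + 1), ∑ u ∈ range (U + 1), E6_f K h Γ r g m u x ρ (l ++ B)) := by
            refine W_mono K _ _ fun B _ => ?_
            set Sf := ∑ m ∈ range (K0 + 1), ∑ u ∈ range (U + 1), E6_f K h Γ r g m u x ρ (l ++ B)
            have hSf : 0 ≤ Sf := Finset.sum_nonneg fun m _ => Finset.sum_nonneg fun u _ =>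
              E6_f_nonneg K h Γ r g m u x ρ _
            have a1 := ind_nonneg (∀ y ∈ B, y ∉ Γ)
            have a2 := ind_le_one (∀ y ∈ B, y ∉ Γ)
            have b1 := ind_nonneg (LHin (2 * h) (2 * h) x ρ (l ++ B))
            have b2 := ind_le_one (LHin (2 * h) (2 * h) x ρ (l ++ B))
            have c1 : (1 - ind (LHin (2 * h) (2 * h) x ρ (l ++ B))) * Sf ≤ 1 * Sf :=
              mul_le_mul_of_nonneg_right (by linarith) hSf
            have c2 : 0 ≤ (1 - ind (LHin (2 * h) (2 * h) x ρ (l ++ B))) * Sf :=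
              mul_nonneg (by linarith) hSf
            calc _ ≤ 1 * ((1 - ind (LHin (2 * h) (2 * h) x ρ (l ++ B))) * Sf) :=
                  mul_le_mul_of_nonneg_right a2 c2
              _ ≤ Sf := by linarith
        _ = ∑ m ∈ range (K0 + 1), ∑ u ∈ range (U + 1), W K (2 * h) (lst x l) (fun B =>
              E6_f K h Γ r g m u x ρ (l ++ B)) := by
            rw [W_sum]
            refine Finset.sum_congr rfl fun m _ => ?_
            rw [W_sum]
        _ ≤ CZ θ ^ 2 * θ * (3 / (2 * (Fintype.card V : ℝ))) *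
        (((U : ℝ) + K0) * (Γ ++ run (x :: ρ) l).length + 2 * K0 * (2 * h + 1 + U)) :=
            E6_fine hP Γ r g K0 U hKU x ρ l
        _ ≤ E := by
            have hlen : ((Γ ++ run (x :: ρ) l).length : ℝ) ≤ (2 * A + 1) * sn := by
              rw [List.length_append]
              push_cast
              have h1 : ((run (x :: ρ) l).length : ℝ) ≤ r + 2 * h + 1 := by
                exact_mod_cast hlev.1
              have h2 : (2 * (h : ℝ) + 1) ≤ sn := by
                rw [hsn]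
                exact_mod_cast (show 2 * h + 1 ≤ Nat.sqrt (Fintype.card V) by omega)
              linarith
            have hlen2 : (2 * (h : ℝ) + 1 + U) ≤ sn := by
              rw [hsn]
              exact_mod_cast (show 2 * h + 1 + U ≤ Nat.sqrt (Fintype.card V) by omega)
            rw [hE]
            gcongr
    · refine le_trans (le_of_eq ?_) hrhs0
      rw [W_congr K (2 * h) _ (g := fun _ => 0) fun B hB => ?_, W_const]
      by_cases hLH : LHin (2 * h) (2 * h) x ρ (l ++ B)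
      · rw [ind_true hLH]; ring
      · have hz : ∑ m ∈ range (K0 + 1), ∑ u ∈ range (U + 1), E6_f K h Γ r g m u x ρ (l ++ B) = 0 := by
          refine Finset.sum_eq_zero fun m hm => Finset.sum_eq_zero fun u _ => ?_
          unfold E6_f
          rw [W_congr K u _ (g := fun _ => 0) fun R _ => ?_, W_const]
          rw [W_congr K m _ (g := fun _ => 0) fun F hF => ?_, W_const]
          have hm' : m ≤ K0 := by simpa [Nat.lt_succ_iff] using Finset.mem_range.1 hm
          have : ind ((run (x :: ρ) (l ++ B)).length + lel (lst (lst x (l ++ B)) R) F = r + 1) = 0 :=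
            ind_false fun e => hlev (E6_levels h x ρ l B F r K0 m _ hnd hB hLH hF hm' e)
          rw [this]; ring
        rw [hz]; ring
  -- summation
  calc ∑ s ∈ Finset.Ico (2 * h) N, kmT K Γ Rp s (fun x ρ l =>
        (1 - ind (LHin (2 * h) (2 * h) x ρ l)) *
        ∑ m ∈ range (K0 + 1), ∑ u ∈ range (U + 1), E6_f K h Γ r g m u x ρ l)
      ≤ ∑ s ∈ Finset.range (N - 2 * h), kmT K Γ Rp s (fun x ρ l =>
          ∑ j ∈ range (K0 + 4 * h + 1), E * lev (r + 2 * h - j) x ρ l) := by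
        rw [Finset.sum_Ico_eq_sum_range]
        refine Finset.sum_le_sum fun s _ => ?_
        rw [Nat.add_comm (2 * h) s, kmT_split]
        exact kmT_mono K Γ Rp s fun i l _ _ => key i l
    _ = ∑ j ∈ range (K0 + 4 * h + 1), E * km K Γ Rp (N - 2 * h) (lev (r + 2 * h - j)) := by
        have h1 := km_sum K (range (K0 + 4 * h + 1)) Γ Rp (N - 2 * h)
          (fun j x ρ l => E * lev (r + 2 * h - j) x ρ l)
        unfold km at h1 ⊢
        rw [h1]
        refine Finset.sum_congr rfl fun j _ => ?_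
        have h2 := km_mul_left K Γ Rp (N - 2 * h) E (lev (r + 2 * h - j))
        unfold km at h2
        exact h2
    _ ≤ ∑ _j ∈ range (K0 + 4 * h + 1), E * ((J * CP θ) * ((2 + A) * sn)) := by
        refine Finset.sum_le_sum fun j _ => mul_le_mul_of_nonneg_left ?_ hE0
        refine (phi_bound hP Γ Rp hΓ (N - 2 * h) (r + 2 * h - j)).trans ?_
        rw [mul_assoc]
        refine mul_le_mul_of_nonneg_left ?_ (Nat.cast_nonneg J)
        refine mul_le_mul_of_nonneg_left ?_ hCP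
        have h1 : ((r + 2 * h - j : ℕ) : ℝ) ≤ r + 2 * h := by
          exact_mod_cast Nat.sub_le _ _
        have h2 : (2 * (h : ℝ)) ≤ sn := by
          rw [hsn]
          exact_mod_cast (show 2 * h ≤ Nat.sqrt (Fintype.card V) by omega)
        linarith
    _ = _ := by
        rw [Finset.sum_const, Finset.card_range, nsmul_eq_mul]
        push_cast
        ring

theorem err_B (θ : ℝ) : ∃ C : ℝ, 0 < C ∧ ∀ (V : Type) [Fintype V] [DecidableEq V] (K : HW V) (h : ℕ),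
    Par K θ h → ∀ (Γ : List V) (Rp : V → List V) (J : ℕ), Ok Γ Rp J → ∀ A : ℝ, 1 ≤ A →
    (Γ.length : ℝ) ≤ A * Nat.sqrt (Fintype.card V) →
    ∀ r g K0 U N : ℕ, (r : ℝ) ≤ A * Nat.sqrt (Fintype.card V) → 2 * h ≤ K0 →
    4 * (K0 + U) ≤ Nat.sqrt (Fintype.card V) →
    ∑ m ∈ Finset.range (K0 + 1), ∑ u ∈ Finset.range (U + 1), ∑ s ∈ Finset.Ico (2 * h) N,
      kmT K Γ Rp s (fun x ρ l => W K u (lst x l) (fun R => W K m (lst (lst x l) R) (fun F =>
        ind (lel (lst x l) R = g) *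
        ind ((run (x :: ρ) l).length + lel (lst (lst x l) R) F = r + 1) *
        ind ((∃ y ∈ R, y ∈ Γ ∨ y ∈ run (x :: ρ) (l.rdrop (2 * h))) ∨
          (∃ y ∈ F, y ∈ Γ ∨ y ∈ run (x :: ρ) (l.rdrop (2 * h))) ∨
          (∃ y ∈ F.drop (2 * h), y ∈ (x :: (l ++ R)).rtake (2 * h + 1 + R.length))))))
      ≤ C * (A ^ 2 * J) * (((K0 : ℝ) + 1) * (K0 + U + h)) := by
  have hθ0 : 0 ≤ max θ 0 := le_max_right _ _
  have hCZ := E6_CZ_nonneg θ
  have hCP' : 0 ≤ CP (max θ 0) := by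
    have := E6_CZ_nonneg (max θ 0)
    unfold CP; positivity
  refine ⟨1 + (9 / 2 * CZ θ ^ 3 + 9 / 2 * (CZ θ ^ 2 * (max θ 0) *
    (CP (max θ 0) * 15))), by positivity, ?_⟩
  intro V _ _ K h hP Γ Rp J hΓ A hA1 hΓl r g K0 U N hr hK0 hKU
  have hJ1 : (1 : ℝ) ≤ J := by exact_mod_cast hΓ.pos
  have hA0 : 0 ≤ A := by linarith
  have hθ1 : max θ 0 = θ := max_eq_left (le_trans zero_le_one hP.one_le)
  rw [hθ1] at hCP' hθ0 ⊢
  have hh := hP.h_le
  have hh1 := hP.h_pos
  have hswap := E6_swap K Γ Rp K0 U (2 * h) N (E6_f K h Γ r g)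
  change ∑ m ∈ Finset.range (K0 + 1), ∑ u ∈ Finset.range (U + 1), ∑ s ∈ Finset.Ico (2 * h) N,
      kmT K Γ Rp s (E6_f K h Γ r g m u) ≤ _
  rw [hswap]
  have hsplit : ∀ s, kmT K Γ Rp s (fun x ρ l =>
        ∑ m ∈ range (K0 + 1), ∑ u ∈ range (U + 1), E6_f K h Γ r g m u x ρ l)
      = kmT K Γ Rp s (fun x ρ l => ind (LHin (2 * h) (2 * h) x ρ l) *
          ∑ m ∈ range (K0 + 1), ∑ u ∈ range (U + 1), E6_f K h Γ r g m u x ρ l) +
        kmT K Γ Rp s (fun x ρ l => (1 - ind (LHin (2 * h) (2 * h) x ρ l)) *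
          ∑ m ∈ range (K0 + 1), ∑ u ∈ range (U + 1), E6_f K h Γ r g m u x ρ l) := by
    intro s
    rw [← kmT_add]
    refine kmT_congr K Γ Rp s fun i l _ _ => ?_
    ring
  simp only [hsplit, Finset.sum_add_distrib]
  have h1 := E6_partLH hP Γ Rp hΓ r g K0 U N hKU
  have h2 := E6_partNo hP Γ Rp hΓ A hΓl r g K0 U N hr hKU
  have hfin : (1 + (9 / 2 * CZ θ ^ 3 + 9 / 2 * (CZ θ ^ 2 * θ * ((J * CP θ) * ((2 * A + 3) * (2 + A)))))) *
      (((K0 : ℝ) + 1) * (K0 + U + h)) ≤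
      (1 + (9 / 2 * CZ θ ^ 3 + 9 / 2 * (CZ θ ^ 2 * θ * (CP θ * 15)))) * (A ^ 2 * J) *
        (((K0 : ℝ) + 1) * (K0 + U + h)) := by
    refine mul_le_mul_of_nonneg_right ?_ (by positivity)
    have hJ0 : (0 : ℝ) ≤ J := by linarith
    have hA2 : 1 ≤ A ^ 2 := by nlinarith
    have e1 : (2 * A + 3) * (2 + A) ≤ 15 * A ^ 2 := by nlinarith
    have e2 : 1 ≤ A ^ 2 * J := by nlinarith
    have hD : 0 ≤ CZ θ ^ 2 * θ * (J * CP θ) := by positivity
    have e3 := mul_le_mul_of_nonneg_left e1 hD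
    have e4 : (1 + 9 / 2 * CZ θ ^ 3) ≤ (1 + 9 / 2 * CZ θ ^ 3) * (A ^ 2 * J) :=
      le_mul_of_one_le_right (by positivity) e2
    calc _ = (1 + 9 / 2 * CZ θ ^ 3) + 9 / 2 * (CZ θ ^ 2 * θ * (J * CP θ) *
          ((2 * A + 3) * (2 + A))) := by ring
      _ ≤ (1 + 9 / 2 * CZ θ ^ 3) * (A ^ 2 * J) + 9 / 2 * (CZ θ ^ 2 * θ * (J * CP θ) *
          (15 * A ^ 2)) := by linarith
      _ = _ := by ring
  refine le_trans ?_ hfin
  refine E6_arith (CZ θ) θ (J * CP θ) A (Fintype.card V : ℝ) (Nat.sqrt (Fintype.card V) : ℝ)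
    (h : ℝ) (K0 : ℝ) (U : ℝ) hCZ hθ0 (mul_nonneg (Nat.cast_nonneg J) hCP') hA0 ?_ ?_ ?_ ?_
    (Nat.cast_nonneg _) _ _ h1 h2
  · exact_mod_cast (show 1 ≤ Nat.sqrt (Fintype.card V) by omega)
  · exact_mod_cast Nat.sqrt_le (Fintype.card V)
  · exact_mod_cast hh1
  · exact_mod_cast hK0

end Pool.Agent.helper57.HPT
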