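import Pool.Agent.helper57.HPT.E4
import Pool.Agent.helper57.HPT.E5
import Pool.Agent.helper57.HPT.E6
import Pool.Agent.helper63.HP.E7
/-!
Module E7 of the project MP_5ae64c_pr : comparison of the two triple sums.
-/

open scoped BigOperators Topology
open Filter MeasureTheory

namespace Pool.Agent.helper57.HPT

open Pool.Agent.helper20.HP

section
variable {V : Type} [Fintype V] [DecidableEq V] {K : HW V} {θ : ℝ} {h : ℕ}

/-- killed words followed by two words, letter form -/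
theorem E7_kmT3 (o : V) (Γ : List V) (Rp : V → List V) (s u m : ℕ)
    (f : V → List V → List V → List V → List V → ℝ) :
    kmT K Γ Rp s (fun x ρ l => W K u (lst x l) (fun R => W K m (lst (lst x l) R) (fun F =>
        f x ρ l R F)))
      = ∑ i : Fin Γ.length, EL K o s (fun P => EL K o u (fun R => EL K o m (fun F =>
        ind (okL K o Γ (Γ.get i) P) * f (Γ.get i) (Rp (Γ.get i)) (vp o (fr K o (Γ.get i)) P)
          (vp o (fr K o (Γ.get i) * P.prod) R) (vp o (fr K o (Γ.get i) * P.prod * R.prod) F)))) := by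
  rw [kmT_eq_kmTL o]
  unfold kmTL
  refine Finset.sum_congr rfl (fun i _ => ?_)
  refine EL_congr K o s (fun P _ => ?_)
  have e1 : lst (Γ.get i) (vp o (fr K o (Γ.get i)) P) = (fr K o (Γ.get i) * P.prod).1 o := by
    have := vp_lst (K := K) o (fr K o (Γ.get i)) P
    rwa [fr_spec] at this
  beta_reduce
  rw [e1, W_eq_EL, ← EL_mul_left]
  refine EL_congr K o u (fun R _ => ?_)
  rw [vp_lst, W_eq_EL, ← EL_mul_left]

/-- killed words followed by a word, letter form -/
theorem E7_kmT2 (o : V) (Γ : List V) (Rp : V → List V) (s m : ℕ)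
    (f : V → List V → List V → List V → ℝ) :
    kmT K Γ Rp s (fun x ρ l => W K m (lst x l) (fun F => f x ρ l F))
      = ∑ i : Fin Γ.length, EL K o s (fun P => EL K o m (fun F =>
        ind (okL K o Γ (Γ.get i) P) * f (Γ.get i) (Rp (Γ.get i)) (vp o (fr K o (Γ.get i)) P)
          (vp o (fr K o (Γ.get i) * P.prod) F))) := by
  rw [kmT_eq_kmTL o]
  unfold kmTL
  refine Finset.sum_congr rfl (fun i _ => ?_)
  refine EL_congr K o s (fun P _ => ?_)
  have e1 : lst (Γ.get i) (vp o (fr K o (Γ.get i)) P) = (fr K o (Γ.get i) * P.prod).1 o := by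
    have := vp_lst (K := K) o (fr K o (Γ.get i)) P
    rwa [fr_spec] at this
  beta_reduce
  rw [e1, W_eq_EL, ← EL_mul_left]

/-- comparison of triple sums from a pointwise comparison -/
theorem E7_tri_le3 (o : V) (Γ : List V) (Rp : V → List V) (m0 M U S N : ℕ)
    (f f1 f2 f3 : V → List V → List (Aut K) → List (Aut K) → List (Aut K) → ℝ)
    (hf : ∀ m u t : ℕ, m ∈ Finset.Ioc m0 (m0 + M) → u ∈ Finset.range (U + 1) →
      t ∈ Finset.Ico S N → ∀ x ρ P R F, P.length = t - m → R.length = u → F.length = m →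
        f x ρ P R F ≤ f1 x ρ P R F + f2 x ρ P R F + f3 x ρ P R F) :
    tri K o Γ Rp m0 M U S N f ≤ tri K o Γ Rp m0 M U S N f1 + tri K o Γ Rp m0 M U S N f2
      + tri K o Γ Rp m0 M U S N f3 := by
  unfold tri
  simp only [← Finset.sum_add_distrib, ← EL_add]
  refine Finset.sum_le_sum (fun m hm => ?_)
  refine Finset.sum_le_sum (fun u hu => ?_)
  refine Finset.sum_le_sum (fun t ht => ?_)
  refine Finset.sum_le_sum (fun i _ => ?_)
  refine EL_mono K o _ (fun P hP => ?_)
  refine EL_mono K o _ (fun R hR => ?_)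
  refine EL_mono K o _ (fun F hF => ?_)
  exact hf m u t hm hu ht _ _ P R F hP hR hF

end

theorem tri_compare (θ : ℝ) : ∃ C : ℝ, 0 < C ∧ ∀ (V : Type) [Fintype V] [DecidableEq V] (K : HW V)
    (h : ℕ), Par K θ h → ∀ (o : V) (Γ : List V) (Rp : V → List V) (J : ℕ), Ok Γ Rp J →
    ∀ A : ℝ, 1 ≤ A → (Γ.length : ℝ) ≤ A * Nat.sqrt (Fintype.card V) →
    ∀ r g m0 M U S N : ℕ, (r : ℝ) ≤ A * Nat.sqrt (Fintype.card V) → 1 ≤ g → 2 * h ≤ m0 →
    m0 + M + 2 * h + U ≤ S → 4 * (m0 + M + U) ≤ Nat.sqrt (Fintype.card V) →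
    |tri K o Γ Rp m0 M U S N (g1 K o Γ (2 * h) g r) - tri K o Γ Rp m0 M U S N (g2 K o Γ (2 * h) g r)|
      ≤ C * (A ^ 2 * J) * (((m0 : ℝ) + M + 1) * (m0 + M + U + h)) := by
  obtain ⟨CB', hCB', HB⟩ := err_B θ
  obtain ⟨CD', hCD', HD⟩ := err_D θ
  have hCZ : 0 ≤ CZ θ := by unfold CZ; positivity
  refine ⟨3 / 2 * CZ θ ^ 2 + 3 / 2 * CZ θ + CB' + CZ θ * CD', by positivity, ?_⟩
  intro V _ _ K h hP o Γ Rp J hΓ A hA1 hΓl r g m0 M U S N hr hg hm0 hS hL
  have hJ1 : (1 : ℝ) ≤ J := by exact_mod_cast hΓ.pos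
  have hAJ1 : 1 ≤ A ^ 2 * J := by nlinarith
  set CB : ℝ := CB' * (A ^ 2 * J) with hCBd
  set CD : ℝ := CD' * (A ^ 2 * J) with hCDd
  have hCB : 0 < CB := by positivity
  have hCD : 0 < CD := by positivity
  have hh := hP.h_pos
  set Q : ℝ := ((m0 : ℝ) + M + 1) * (m0 + M + U + h) with hQ
  have hQ0 : 0 ≤ Q := by positivity
  have hh1 : (1 : ℝ) ≤ h := by exact_mod_cast hh
  have hm0r : (0 : ℝ) ≤ m0 := Nat.cast_nonneg _
  have hMr : (0 : ℝ) ≤ M := Nat.cast_nonneg _
  have hUr : (0 : ℝ) ≤ U := Nat.cast_nonneg _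
  -- the four errors
  have ha := err_a hP o Γ Rp hΓ g r m0 M U S N hm0 hS hL
  have hc := err_c hP o Γ Rp hΓ g r m0 M U S N hg hm0 hS hL
  have ha' : (M : ℝ) * ((m0 : ℝ) + M + 1) ≤ Q := by
    rw [hQ, mul_comm]
    refine mul_le_mul_of_nonneg_left ?_ (by positivity)
    linarith
  have hc' : (M : ℝ) * ((m0 : ℝ) + M + U + 1) ≤ Q := by
    rw [hQ]
    refine mul_le_mul ?_ ?_ (by positivity) (by positivity)
    · linarith
    · linarith
  -- error B
  set fB : V → List V → List (Aut K) → List (Aut K) → List (Aut K) → ℝ := fun x ρ P R F =>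
    ind (okL K o Γ x P) *
        (ind (lel (lst x (vp o (fr K o x) P)) (vp o (fr K o x * P.prod) R) = g) *
         ind ((run (x :: ρ) (vp o (fr K o x) P)).length +
            lel (lst (lst x (vp o (fr K o x) P)) (vp o (fr K o x * P.prod) R))
              (vp o (fr K o x * P.prod * R.prod) F) = r + 1) *
         ind (E7_badB Γ (2 * h) x ρ (vp o (fr K o x) P) (vp o (fr K o x * P.prod) R)
            (vp o (fr K o x * P.prod * R.prod) F))) with hfB
  have hB : tri K o Γ Rp m0 M U S N fB ≤ CB * Q := by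
    have h1 := HB V K h hP Γ Rp J hΓ A hA1 hΓl r g (m0 + M) U N hr (by omega) (by omega)
    have h2 : tri K o Γ Rp m0 M U S N fB ≤ ∑ m ∈ Finset.range (m0 + M + 1),
        ∑ u ∈ Finset.range (U + 1), ∑ s ∈ Finset.Ico (2 * h) N,
      kmT K Γ Rp s (fun x ρ l => W K u (lst x l) (fun R => W K m (lst (lst x l) R) (fun F =>
        ind (lel (lst x l) R = g) *
        ind ((run (x :: ρ) l).length + lel (lst (lst x l) R) F = r + 1) *
        ind ((∃ y ∈ R, y ∈ Γ ∨ y ∈ run (x :: ρ) (l.rdrop (2 * h))) ∨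
          (∃ y ∈ F, y ∈ Γ ∨ y ∈ run (x :: ρ) (l.rdrop (2 * h))) ∨
          (∃ y ∈ F.drop (2 * h), y ∈ (x :: (l ++ R)).rtake (2 * h + 1 + R.length)))))) := by
      have hnn : ∀ m u s, 0 ≤ kmT K Γ Rp s (fun x ρ l => W K u (lst x l) (fun R =>
          W K m (lst (lst x l) R) (fun F =>
        ind (lel (lst x l) R = g) *
        ind ((run (x :: ρ) l).length + lel (lst (lst x l) R) F = r + 1) *
        ind ((∃ y ∈ R, y ∈ Γ ∨ y ∈ run (x :: ρ) (l.rdrop (2 * h))) ∨
          (∃ y ∈ F, y ∈ Γ ∨ y ∈ run (x :: ρ) (l.rdrop (2 * h))) ∨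
          (∃ y ∈ F.drop (2 * h), y ∈ (x :: (l ++ R)).rtake (2 * h + 1 + R.length)))))) := by
        intro m u s
        refine kmT_nonneg K Γ Rp s (fun x ρ l => ?_)
        refine W_nonneg K u _ (fun R _ => ?_)
        refine W_nonneg K m _ (fun F _ => ?_)
        exact mul_nonneg (mul_nonneg (ind_nonneg _) (ind_nonneg _)) (ind_nonneg _)
      unfold tri
      refine le_trans ?_ (Finset.sum_le_sum_of_subset_of_nonneg
        (s := Finset.Ioc m0 (m0 + M)) ?_ (fun m _ _ => Finset.sum_nonneg (fun u _ =>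
          Finset.sum_nonneg (fun s _ => hnn m u s))))
      · refine Finset.sum_le_sum (fun m hm => ?_)
        rw [Finset.mem_Ioc] at hm
        refine Finset.sum_le_sum (fun u _ => ?_)
        refine le_trans (le_of_eq ?_) (E7_reindex S N m (2 * h) (by omega) _ (fun s => hnn m u s))
        refine Finset.sum_congr rfl (fun t _ => ?_)
        exact (E7_kmT3 o Γ Rp (t - m) u m (fun x ρ l R F => ind (lel (lst x l) R = g) *
          ind ((run (x :: ρ) l).length + lel (lst (lst x l) R) F = r + 1) *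
          ind (E7_badB Γ (2 * h) x ρ l R F))).symm
      · intro m hm
        rw [Finset.mem_Ioc] at hm
        rw [Finset.mem_range]
        omega
    refine h2.trans (h1.trans (le_of_eq ?_))
    rw [hQ]
    push_cast
    ring
  -- error D
  set fD : V → List V → List (Aut K) → List (Aut K) → List (Aut K) → ℝ := fun x ρ P R F =>
    ind (lel o (vp o 1 R) = g) * (ind (okL K o Γ x P) *
         (ind ((run (x :: ρ) (vp o (fr K o x) P)).length +
            lel (lst x (vp o (fr K o x) P)) (vp o (fr K o x * P.prod) F) = r + 1) *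
         ind (E7_badD Γ (2 * h) x ρ (vp o (fr K o x) P) (vp o (fr K o x * P.prod) F)))) with hfD
  have hD : tri K o Γ Rp m0 M U S N fD ≤ CZ θ * (CD * Q) := by
    have h1 := HD V K h hP Γ Rp J hΓ A hA1 hΓl r (m0 + M) N hr (by omega) (by omega)
    set kD : ℕ → ℕ → ℝ := fun m s => kmT K Γ Rp s (fun x ρ l =>
      W K m (lst x l) (fun F =>
        ind ((run (x :: ρ) l).length + lel (lst x l) F = r + 1) *
        ind ((∃ y ∈ F, y ∈ Γ ∨ y ∈ run (x :: ρ) (l.rdrop (2 * h))) ∨
          (∃ y ∈ F.drop (2 * h), y ∈ (x :: l).rtake (2 * h + 1))))) with hkD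
    have hnn : ∀ m s, 0 ≤ kD m s := by
      intro m s
      refine kmT_nonneg K Γ Rp s (fun x ρ l => ?_)
      refine W_nonneg K m _ (fun F _ => ?_)
      exact mul_nonneg (ind_nonneg _) (ind_nonneg _)
    have hZ : ∑ u ∈ Finset.range (U + 1), EL K o u (fun R => ind (lel o (vp o 1 R) = g)) ≤ CZ θ := by
      have hz := Zq_le hP U g o (by omega)
      unfold Zq at hz
      refine le_trans (le_of_eq ?_) hz
      refine Finset.sum_congr rfl (fun u _ => ?_)
      have := W_eq_EL K o (1 : Aut K) u (fun l => ind (lel o l = g))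
      exact this.symm
    have h2 : tri K o Γ Rp m0 M U S N fD ≤ CZ θ * ∑ m ∈ Finset.range (m0 + M + 1),
        ∑ s ∈ Finset.Ico (2 * h) N, kD m s := by
      unfold tri
      rw [Finset.mul_sum]
      refine le_trans ?_ (Finset.sum_le_sum_of_subset_of_nonneg
        (s := Finset.Ioc m0 (m0 + M)) ?_ (fun m _ _ => mul_nonneg hCZ
          (Finset.sum_nonneg (fun s _ => hnn m s))))
      · refine Finset.sum_le_sum (fun m hm => ?_)
        rw [Finset.mem_Ioc] at hm
        have e1 : ∀ u ∈ Finset.range (U + 1), ∑ t ∈ Finset.Ico S N, ∑ i : Fin Γ.length,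
            EL K o (t - m) (fun P => EL K o u (fun R => EL K o m (fun F =>
              fD (Γ.get i) (Rp (Γ.get i)) P R F)))
            = EL K o u (fun R => ind (lel o (vp o 1 R) = g)) * ∑ t ∈ Finset.Ico S N, kD m (t - m) := by
          intro u _
          rw [Finset.mul_sum]
          refine Finset.sum_congr rfl (fun t _ => ?_)
          have e2 : kD m (t - m) = _ := E7_kmT2 o Γ Rp (t - m) m (fun x ρ l F =>
            ind ((run (x :: ρ) l).length + lel (lst x l) F = r + 1) *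
            ind (E7_badD Γ (2 * h) x ρ l F))
          rw [e2, Finset.mul_sum]
          refine Finset.sum_congr rfl (fun i _ => ?_)
          rw [← EL_mul_left]
          refine EL_congr K o _ (fun P _ => ?_)
          rw [← EL_mul_right]
          refine EL_congr K o _ (fun R _ => ?_)
          rw [← EL_mul_left]
        rw [Finset.sum_congr rfl e1, ← Finset.sum_mul]
        have e3 := E7_reindex S N m (2 * h) (by omega) (kD m) (hnn m)
        refine mul_le_mul hZ e3 (Finset.sum_nonneg (fun t _ => hnn m _)) hCZ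
      · intro m hm
        rw [Finset.mem_Ioc] at hm
        rw [Finset.mem_range]
        omega
    refine h2.trans (mul_le_mul_of_nonneg_left (h1.trans ?_) hCZ)
    refine mul_le_mul_of_nonneg_left ?_ hCD.le
    rw [hQ]
    push_cast
    refine mul_le_mul_of_nonneg_left ?_ (by positivity)
    linarith
  have hlen : ∀ m t : ℕ, m ∈ Finset.Ioc m0 (m0 + M) → t ∈ Finset.Ico S N → 2 * h ≤ t - m := by
    intro m t hm ht
    rw [Finset.mem_Ioc] at hm
    rw [Finset.mem_Ico] at ht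
    omega
  have t1 := E7_tri_le3 (K := K) o Γ Rp m0 M U S N (g1 K o Γ (2 * h) g r) (g2 K o Γ (2 * h) g r)
    (fun x ρ P R F => g1 K o Γ (2 * h) g r x ρ P R F *
        ind (LHin (2 * h) F.length x ρ (vp o (fr K o x) (P ++ F)))) fB
    (fun m u t hm _ ht x ρ P R F hPl _ _ =>
      E7_point1 o Γ (2 * h) g r x ρ P R F (by rw [hPl]; exact hlen m t hm ht))
  have t2 := E7_tri_le3 (K := K) o Γ Rp m0 M U S N (g2 K o Γ (2 * h) g r) (g1 K o Γ (2 * h) g r)
    (fun x ρ P R F => g2 K o Γ (2 * h) g r x ρ P R F *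
        ind (LHin (2 * h) (R.length + F.length) x ρ (vp o (fr K o x) (P ++ (R ++ F))))) fD
    (fun m u t hm _ ht x ρ P R F hPl _ _ =>
      E7_point2 o Γ (2 * h) g r x ρ P R F (by rw [hPl]; exact hlen m t hm ht))
  have q1 : 3 / 2 * CZ θ ^ 2 * ((M : ℝ) * ((m0 : ℝ) + M + 1)) ≤ 3 / 2 * CZ θ ^ 2 * Q :=
    mul_le_mul_of_nonneg_left ha' (by positivity)
  have q2 : 3 / 2 * CZ θ * ((M : ℝ) * ((m0 : ℝ) + M + U + 1)) ≤ 3 / 2 * CZ θ * Q :=
    mul_le_mul_of_nonneg_left hc' (by positivity)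
  have p1 : 0 ≤ 3 / 2 * CZ θ ^ 2 * Q := by positivity
  have p2 : 0 ≤ 3 / 2 * CZ θ * Q := by positivity
  have p3 : 0 ≤ CB * Q := by positivity
  have p4 : 0 ≤ CZ θ * (CD * Q) := by positivity
  have p5 : (3 / 2 * CZ θ ^ 2 + 3 / 2 * CZ θ) * Q ≤ (3 / 2 * CZ θ ^ 2 + 3 / 2 * CZ θ) * (A ^ 2 * J) * Q := by
    refine mul_le_mul_of_nonneg_right ?_ hQ0
    exact le_mul_of_one_le_right (by positivity) hAJ1
  have p6 : (3 / 2 * CZ θ ^ 2 + 3 / 2 * CZ θ + CB' + CZ θ * CD') * (A ^ 2 * J) * Q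
      = (3 / 2 * CZ θ ^ 2 + 3 / 2 * CZ θ) * (A ^ 2 * J) * Q + CB * Q + CZ θ * (CD * Q) := by
    rw [hCBd, hCDd]; ring
  rw [p6, abs_le]
  constructor
  · linarith
  · linarith

end Pool.Agent.helper57.HPT
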