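import Pool.Agent.helper57.HPT.E8
import Pool.Agent.helper20.HP.F02

/-!
Shifts of the profile function of a skeleton by multiples of a fixed integer; the skeleton may have
`n^(1/2+α/200)` vertices and width `n^(α/200)` (MP_5ae64c_pr, functional form, part C).
-/

open scoped BigOperators Topology
open Filter MeasureTheory

namespace Pool.Agent.helper57.HPT

open Pool.Agent.helper20.HP

/-- asymptotics -/
theorem F0_asym2 (α c b η : ℝ) (hα : 0 < α) (hb : 0 < b) (hη : 0 < η) :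
    ∃ n0 : ℕ, ∀ n : ℕ, n0 ≤ n → 1 ≤ n ∧ c ≤ (n : ℝ) ^ (α / 200) ∧
      c * (n : ℝ) ^ 3 * Real.exp (-(b * (n : ℝ) ^ (α / 200))) ≤ η := by
  have hα8 : 0 < α / 200 := by positivity
  have h1 : Tendsto (fun n : ℕ => (n : ℝ) ^ (α / 200)) atTop atTop :=
    (tendsto_rpow_atTop hα8).comp tendsto_natCast_atTop_atTop
  have h2 : Tendsto (fun y : ℝ => c * (y ^ (600 / α) * Real.exp (-b * y))) atTop (𝓝 0) := by
    have := (tendsto_rpow_mul_exp_neg_mul_atTop_nhds_zero (600 / α) b hb).const_mul c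
    simpa using this
  have h3 := h2.comp h1
  have e3 : ∀ᶠ n : ℕ in atTop, c * (((n : ℝ) ^ (α / 200)) ^ (600 / α)
      * Real.exp (-b * (n : ℝ) ^ (α / 200))) < η := by
    have := h3.eventually (gt_mem_nhds hη)
    simpa [Function.comp_def] using this
  have e2 : ∀ᶠ n : ℕ in atTop, c ≤ (n : ℝ) ^ (α / 200) := h1.eventually_ge_atTop c
  have e1 : ∀ᶠ n : ℕ in atTop, 1 ≤ n := eventually_ge_atTop 1
  obtain ⟨n0, hn0⟩ := Filter.eventually_atTop.1 (e1.and (e2.and e3))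
  refine ⟨n0, fun n hn => ?_⟩
  obtain ⟨a1, a2, a3⟩ := hn0 n hn
  refine ⟨a1, a2, ?_⟩
  have hpow : ((n : ℝ) ^ (α / 200)) ^ (600 / α) = (n : ℝ) ^ 3 := by
    rw [← Real.rpow_mul (Nat.cast_nonneg n)]
    have : α / 200 * (600 / α) = 3 := by field_simp; norm_num
    rw [this]
    norm_num
  rw [hpow] at a3
  have : -(b * (n : ℝ) ^ (α / 200)) = -b * (n : ℝ) ^ (α / 200) := by ring
  rw [this, mul_assoc]
  exact a3.le

theorem F0_qT (n : ℕ) (α : ℝ) (hn : 1 ≤ n) :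
    (n : ℝ) ^ (α / 8) = ((n : ℝ) ^ (α / 200)) ^ 25 := by
  have hn0 : (0 : ℝ) ≤ n := Nat.cast_nonneg n
  rw [← Real.rpow_natCast, ← Real.rpow_mul hn0]
  congr 1
  push_cast
  ring

theorem F0_q4 (n : ℕ) (α : ℝ) (hα : 0 < α) (hα' : α ≤ 1 / 4) (hn : 1 ≤ n) :
    1 ≤ (n : ℝ) ^ (α / 200) ∧ ((n : ℝ) ^ (α / 200)) ^ 4 ≤ n := by
  have hn1 : (1 : ℝ) ≤ n := by exact_mod_cast hn
  have hn0 : (0 : ℝ) ≤ n := Nat.cast_nonneg n
  refine ⟨Real.one_le_rpow hn1 (by positivity), ?_⟩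
  rw [← Real.rpow_natCast, ← Real.rpow_mul hn0]
  calc (n : ℝ) ^ (α / 200 * ((4 : ℕ) : ℝ)) ≤ (n : ℝ) ^ (1 : ℝ) :=
        Real.rpow_le_rpow_of_exponent_le hn1 (by push_cast; linarith)
    _ = n := Real.rpow_one _

section
variable {V : Type} [Fintype V] [DecidableEq V] {K : HW V} {θ : ℝ} {h : ℕ}

/-- passage to the limit in the number of steps -/
theorem F0_limit (Γ : List V) (Rp : V → List V) {J : ℕ} (hΓ : Ok Γ Rp J) (r g U : ℕ) (κ E : ℝ) (hκ : 0 < κ)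
    (hex : ∀ N : ℕ, κ * PhiN K Γ Rp N r ≤ κ * PhiN K Γ Rp (N + U) (r + g) + E ∧
      κ * PhiN K Γ Rp N (r + g) ≤ κ * PhiN K Γ Rp N r + E) :
    |Phi K Γ Rp r - Phi K Γ Rp (r + g)| ≤ E / κ := by
  have t1 := PhiN_tendsto K Γ Rp hΓ r
  have t2 := PhiN_tendsto K Γ Rp hΓ (r + g)
  have t3 : Tendsto (fun N => PhiN K Γ Rp (N + U) (r + g)) atTop (𝓝 (Phi K Γ Rp (r + g))) :=
    t2.comp (tendsto_add_atTop_nat U)
  have a1 : κ * Phi K Γ Rp r ≤ κ * Phi K Γ Rp (r + g) + E :=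
    le_of_tendsto_of_tendsto' (t1.const_mul κ) ((t3.const_mul κ).add_const E) (fun N => (hex N).1)
  have a2 : κ * Phi K Γ Rp (r + g) ≤ κ * Phi K Γ Rp r + E :=
    le_of_tendsto_of_tendsto' (t2.const_mul κ) ((t1.const_mul κ).add_const E) (fun N => (hex N).2)
  rw [abs_le]
  constructor
  · rw [neg_le, le_div_iff₀ hκ]
    nlinarith
  · rw [le_div_iff₀ hκ]
    nlinarith

end

/-- from the constants: `C P (D + ε1 L + X) ≤ ε / δ0 * L * κ0` -/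
theorem F0_f2 (C η0 Q L D ε1 X ε δ0 κ0 : ℝ) (hC : 0 < C) (hδ0 : 0 < δ0) (hη : 0 < η0) (hQ : 1 ≤ Q)
    (hηdef : η0 = ε * κ0 / (3 * C * δ0)) (hL : 1 ≤ L) (hε1η : ε1 ≤ η0 / Q)
    (hD : D ≤ η0 / Q * L) (hX : X ≤ η0 / Q) : C * Q * (D + ε1 * L + X) ≤ ε / δ0 * L * κ0 := by
  have hL0 : 0 ≤ L := by linarith
  have hQ0 : 0 < Q := by linarith
  have hη' : 0 < η0 / Q := by positivity
  have e1 : D + ε1 * L + X ≤ 3 * (η0 / Q) * L := by
    have t2 : ε1 * L ≤ η0 / Q * L := by gcongr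
    have t3 : X ≤ η0 / Q * L := hX.trans (le_mul_of_one_le_right hη'.le hL)
    linarith
  calc C * Q * (D + ε1 * L + X) ≤ C * Q * (3 * (η0 / Q) * L) := by gcongr
    _ = ε / δ0 * L * κ0 := by rw [hηdef]; field_simp

theorem F0_e4 (η0 q c1 Z : ℝ) (hq : 0 < q) (hc : 0 < c1) (hZ : 0 < Z) :
    (η0 / q ^ 4) ^ 2 / (16 * Z ^ 2) * (η0 / q ^ 4 * q ^ 25 / (2 * c1) - 1)
      = η0 ^ 3 / (32 * Z ^ 2 * c1) * q ^ 13 - (η0 / q ^ 4) ^ 2 / (16 * Z ^ 2) := by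
  have h1 : η0 / q ^ 4 * q ^ 25 = η0 * q ^ 21 := by
    rw [div_mul_eq_mul_div, div_eq_iff (by positivity)]; ring
  rw [h1, mul_sub, mul_one]
  congr 1
  rw [div_pow, div_div, div_mul_div_comm, div_mul_eq_mul_div, div_eq_div_iff (by positivity) (by positivity)]
  ring

theorem shift_mult (θ : ℝ) : ∃ δ0 : ℕ, 1 ≤ δ0 ∧ ∀ A α ε : ℝ, 0 < α → α ≤ 1 / 4 →
    0 < ε → ∃ n0 : ℕ,
    ∀ (V : Type) [Fintype V] [DecidableEq V] (K : HW V) (h : ℕ), Par K θ h → n0 ≤ Fintype.card V →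
    (h : ℝ) ≤ (Fintype.card V : ℝ) ^ (1 / 2 - α) →
    ∀ (Γ : List V) (Rp : V → List V) (J : ℕ), Ok Γ Rp J →
    (J : ℝ) ≤ (Fintype.card V : ℝ) ^ (α / 200) →
    (Γ.length : ℝ) ≤ (Fintype.card V : ℝ) ^ (α / 200) * Nat.sqrt (Fintype.card V) →
    ∀ r v : ℕ, (r : ℝ) ≤ A * Nat.sqrt (Fintype.card V) → 1 ≤ v →
    ((δ0 * v : ℕ) : ℝ) ≤ 2 * (Fintype.card V : ℝ) ^ (1 / 2 - α / 8) →
    |Phi K Γ Rp r - Phi K Γ Rp (r + δ0 * v)| ≤ ε * Nat.sqrt (Fintype.card V) := by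
  by_cases hθ : 1 ≤ θ
  swap
  · exact ⟨1, le_rfl, fun A α ε _ _ _ => ⟨0, fun V _ _ K h hP => absurd hP.one_le hθ⟩⟩
  obtain ⟨Mc, hMcdef⟩ : ∃ Mc : ℕ, Mc = ⌈16 * θ ^ 2⌉₊ := ⟨_, rfl⟩
  have hθ2 : 1 ≤ θ ^ 2 := one_le_pow₀ hθ
  have hMcge : 16 * θ ^ 2 ≤ (Mc : ℝ) := by rw [hMcdef]; exact Nat.le_ceil _
  have hMc1 : 1 ≤ Mc := by
    have : (1 : ℝ) ≤ Mc := by linarith
    exact_mod_cast this
  refine ⟨Nat.factorial Mc, Nat.factorial_pos Mc, fun A α ε hα hα' hε => ?_⟩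
  obtain ⟨δ0, hδ0def⟩ : ∃ δ0 : ℕ, δ0 = Nat.factorial Mc := ⟨_, rfl⟩
  rw [← hδ0def]
  have hδ0 : (0 : ℝ) < δ0 := by rw [hδ0def]; exact_mod_cast Nat.factorial_pos Mc
  obtain ⟨C', hC', hex⟩ := exchange θ
  obtain ⟨A4, hA4⟩ : ∃ A4 : ℝ, A4 = |A| + 4 := ⟨_, rfl⟩
  have hA41 : 1 ≤ A4 := by rw [hA4]; linarith [abs_nonneg A]
  obtain ⟨C, hCdef⟩ : ∃ C : ℝ, C = C' * A4 ^ 2 := ⟨_, rfl⟩
  have hC : 0 < C := by rw [hCdef]; positivity
  have hMcR : (0 : ℝ) < Mc := by exact_mod_cast hMc1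
  obtain ⟨κ0, hκ0def⟩ : ∃ κ0 : ℝ, κ0 = 1 / (16 * θ ^ 2) / Mc := ⟨_, rfl⟩
  have hκ0 : 0 < κ0 := by rw [hκ0def]; positivity
  obtain ⟨η0, hη0def⟩ : ∃ η : ℝ, η = ε * κ0 / (3 * C * δ0) := ⟨_, rfl⟩
  have hη0 : 0 < η0 := by rw [hη0def]; positivity
  have hCZ : 0 < CZ θ := by unfold CZ; positivity
  obtain ⟨c1, hc1def⟩ : ∃ c1 : ℝ, c1 = 32 * θ ^ 2 + 6 := ⟨_, rfl⟩
  have hc1 : 0 < c1 := by rw [hc1def]; positivity
  -- `b q^13` is a lower bound of the exponent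
  obtain ⟨b', hb'def⟩ : ∃ b' : ℝ, b' = η0 ^ 3 / (32 * CZ θ ^ 2 * c1) := ⟨_, rfl⟩
  have hb' : 0 < b' := by rw [hb'def]; positivity
  obtain ⟨c, hcdef⟩ : ∃ c : ℝ, c = 48 * θ ^ 2 * c1 ^ 2 + 2 * c1 / η0 + 32 * c1 + c1 * Real.exp 1
      + 8 * η0 + η0 / CZ θ := ⟨_, rfl⟩
  have q1 : 0 < 48 * θ ^ 2 * c1 ^ 2 := by positivity
  have q2 : 0 < 2 * c1 / η0 := by positivity
  have q3 : 0 < 32 * c1 := by positivity
  have q4 : 0 < c1 * Real.exp 1 := by positivity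
  have q5 : 0 < 8 * η0 := by positivity
  have q6 : 0 < η0 / CZ θ := by positivity
  obtain ⟨n0, hn0⟩ := F0_asym2 α c b' η0 hα hb' hη0
  refine ⟨n0, fun V _ _ K h hP hn hh Γ Rp J hΓ hJq hΓl r v hr hv hδv => ?_⟩
  obtain ⟨hn1, hcq, hexp⟩ := hn0 (Fintype.card V) hn
  obtain ⟨hx1, hT1, hxT, hxT2, hxh, hL1⟩ := F0_num (Fintype.card V) α hα hα' hn1
  obtain ⟨hq1, hq4⟩ := F0_q4 (Fintype.card V) α hα hα' hn1
  have hTq := F0_qT (Fintype.card V) α hn1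
  obtain ⟨n, hndef⟩ : ∃ n : ℕ, n = Fintype.card V := ⟨_, rfl⟩
  obtain ⟨L, hLdef⟩ : ∃ L : ℕ, L = Nat.sqrt (Fintype.card V) := ⟨_, rfl⟩
  obtain ⟨x, hxdef⟩ : ∃ x : ℝ, x = (Fintype.card V : ℝ) ^ (1 / 2 - α / 8) := ⟨_, rfl⟩
  obtain ⟨T, hTdef⟩ : ∃ T : ℝ, T = (Fintype.card V : ℝ) ^ (α / 8) := ⟨_, rfl⟩
  obtain ⟨q, hqdef⟩ : ∃ q : ℝ, q = (Fintype.card V : ℝ) ^ (α / 200) := ⟨_, rfl⟩
  rw [← hxdef] at hx1 hxT hxT2 hxh hδv
  rw [← hTdef] at hT1 hxT hxT2 hTq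
  rw [← hqdef] at hq1 hq4 hTq hcq hexp hJq hΓl
  rw [← hLdef] at hxT hL1 hr hΓl
  rw [← hLdef]
  rw [← hndef] at hn1 hexp hxT2 hq4
  have hn1' : (1 : ℝ) ≤ n := by exact_mod_cast hn1
  have hhx : (h : ℝ) ≤ x := hh.trans hxh
  have hx0 : 0 < x := by linarith
  have hT0 : 0 < T := by linarith
  have hL0 : (0 : ℝ) < L := by linarith
  have hq0 : 0 < q := by linarith
  have hqn : ∀ k : ℕ, 1 ≤ q ^ k := fun k => one_le_pow₀ hq1
  have hqT : c * q ^ 4 ≤ T := by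
    rw [hTq]
    calc c * q ^ 4 ≤ q * q ^ 4 := by gcongr
      _ = q ^ 5 * 1 := by ring
      _ ≤ q ^ 5 * q ^ 20 := by gcongr; exact hqn 20
      _ = q ^ 25 := by ring
  have hc0 : 0 < c := by rw [hcdef]; positivity
  have hcT : c ≤ T := by
    refine le_trans ?_ hqT
    exact le_mul_of_one_le_right hc0.le (hqn 4)
  obtain ⟨η, hηdef⟩ : ∃ η : ℝ, η = η0 / q ^ 4 := ⟨_, rfl⟩
  have hη : 0 < η := by rw [hηdef]; positivity
  have hη8 : η ≤ 1 / 8 := by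
    rw [hηdef, div_le_iff₀ (by positivity)]
    have : 8 * η0 ≤ q ^ 4 := by
      calc 8 * η0 ≤ c := by rw [hcdef]; linarith
        _ ≤ q := hcq
        _ = q * 1 := by ring
        _ ≤ q * q ^ 3 := by gcongr; exact hqn 3
        _ = q ^ 4 := by ring
    linarith
  have hηCZ : η ≤ CZ θ := by
    rw [hηdef, div_le_iff₀ (by positivity)]
    have : η0 / CZ θ ≤ q ^ 4 := by
      calc η0 / CZ θ ≤ c := by rw [hcdef]; linarith
        _ ≤ q := hcq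
        _ = q * 1 := by ring
        _ ≤ q * q ^ 3 := by gcongr; exact hqn 3
        _ = q ^ 4 := by ring
    rw [div_le_iff₀ hCZ] at this
    linarith
  -- a vertex
  have hcard : 0 < Fintype.card V := by rw [← hndef]; omega
  obtain ⟨o⟩ : Nonempty V := Fintype.card_pos_iff.1 hcard
  -- the truncation
  obtain ⟨U, hUdef⟩ : ∃ U : ℕ, U = ⌈32 * θ ^ 2 * x⌉₊ := ⟨_, rfl⟩
  have hU1 : 32 * θ ^ 2 * x ≤ (U : ℝ) := by rw [hUdef]; exact Nat.le_ceil _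
  have hU2 : (U : ℝ) ≤ 32 * θ ^ 2 * x + 1 := by
    rw [hUdef]; exact (Nat.ceil_lt_add_one (by positivity)).le
  have hD1 : (U : ℝ) + 4 * h + 1 ≤ c1 * x := by
    rw [hc1def]; exact F0_a θ x U h hx1 hhx hU2
  -- x T bounds
  have hxc : ∀ s : ℝ, 0 ≤ s → s ≤ T → s * x ≤ 2 * L := by
    intro s hs0 hs
    calc s * x ≤ T * x := by gcongr
      _ = x * T := by ring
      _ ≤ 2 * L := hxT
  have hxL : x ≤ 2 * L := by
    calc x = x * 1 := by ring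
      _ ≤ x * T := by gcongr
      _ ≤ 2 * L := hxT
  have hc1L : c1 * x ≤ η * L := by
    have h1 : 2 * c1 / η ≤ T := by
      refine le_trans ?_ hqT
      have : 2 * c1 / η = 2 * c1 / η0 * q ^ 4 := by rw [hηdef]; field_simp
      rw [this]
      gcongr
      rw [hcdef]; linarith
    have := hxc (2 * c1 / η) (by positivity) h1
    have h2 : 2 * c1 / η * x = 2 * (c1 * x) / η := by ring
    rw [h2, div_le_iff₀ hη] at this
    linarith
  have hc32 : 32 * c1 * x ≤ 2 * L := hxc _ q3.le (by rw [hcdef] at hcT; linarith)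
  have h48 : 48 * θ ^ 2 * ((U : ℝ) + 4 * h + 1) ^ 2 ≤ (n : ℝ) := by
    refine F0_b θ c1 x T _ _ hT1 (by positivity) hD1 (le_trans ?_ hcT) hxT2
    rw [hcdef]; linarith
  -- the good multiple
  have hvx : (δ0 : ℝ) * v ≤ 2 * x := by exact_mod_cast hδv
  have hδ01 : (1 : ℝ) ≤ δ0 := by
    rw [hδ0def]; exact_mod_cast Nat.factorial_pos Mc
  have hvx' : (v : ℝ) ≤ 2 * x := by
    have : (v : ℝ) ≤ δ0 * v := le_mul_of_one_le_left (Nat.cast_nonneg v) hδ01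
    linarith
  have hsum := kap_pos hP o U v Mc hv (F0_d θ x v U hvx' hU1) (by linarith)
    (by rw [← hndef]; exact h48)
  obtain ⟨j, hj1, hj2, hj3⟩ := F0_pick Mc hMc1 _ _ hsum
  rw [← hκ0def] at hj3
  obtain ⟨m, hm1, hm2⟩ := F0_ratio Mc j hj1 hj2
  rw [← hδ0def] at hm1 hm2
  obtain ⟨g, hgdef⟩ : ∃ g : ℕ, g = j * v := ⟨_, rfl⟩
  rw [← hgdef] at hj3
  have hg1 : 1 ≤ g := by rw [hgdef]; exact Nat.mul_pos hj1 hv
  have hmg : m * g = δ0 * v := by rw [hgdef, ← hm1]; ring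
  have hκ : 0 < kap K o (2 * h) g U := lt_of_lt_of_le hκ0 hj3
  -- N0
  have hh1 : (1 : ℝ) ≤ h := by exact_mod_cast hP.h_pos
  obtain ⟨D, hDdef⟩ : ∃ D : ℝ, D = ((4 * h + U : ℕ) : ℝ) := ⟨_, rfl⟩
  have hDc : D ≤ c1 * x := by
    rw [hDdef]; push_cast; linarith
  have hD0 : 0 < D := by
    rw [hDdef]; push_cast
    have : (0 : ℝ) ≤ U := Nat.cast_nonneg U
    linarith
  obtain ⟨N0, hN0def⟩ : ∃ N0 : ℕ, N0 = ⌊η * L / D⌋₊ := ⟨_, rfl⟩
  have hN0a : D * N0 ≤ η * L := by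
    have : (N0 : ℝ) ≤ η * L / D := by rw [hN0def]; exact Nat.floor_le (by positivity)
    rw [le_div_iff₀ hD0] at this
    linarith
  have hN0b : 1 ≤ N0 := by
    rw [hN0def]
    apply Nat.one_le_iff_ne_zero.2
    intro h0
    have := Nat.lt_one_of_floor_lt_one (a := η * L / D) (by omega)
    rw [div_lt_one hD0] at this
    linarith
  have hN0c : η * T / (2 * c1) - 1 ≤ N0 := by
    have e1 : η * L / D < N0 + 1 := by rw [hN0def]; exact Nat.lt_floor_add_one _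
    have e2 : η * T / (2 * c1) ≤ η * L / D := by
      rw [div_le_div_iff₀ (by positivity) hD0]
      calc η * T * D ≤ η * T * (c1 * x) := by gcongr
        _ = η * c1 * (x * T) := by ring
        _ ≤ η * c1 * (2 * L) := by gcongr
        _ = η * L * (2 * c1) := by ring
    linarith
  -- the error
  obtain ⟨X, hXdef⟩ : ∃ X : ℝ, X = (Fintype.card V : ℝ) * D
      * Real.exp (-(η ^ 2 * N0 / (16 * CZ θ ^ 2))) := ⟨_, rfl⟩
  have hX : X ≤ η0 / q ^ 4 := by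
    have e0 : x ≤ n := F0_c x T n hx1 hT1 hxT2
    have e1 : Real.exp (-(η ^ 2 * N0 / (16 * CZ θ ^ 2))) ≤ Real.exp 1 * Real.exp (-(b' * q)) := by
      rw [← Real.exp_add]
      apply Real.exp_le_exp.2
      obtain ⟨b, hbdef⟩ : ∃ b : ℝ, b = η ^ 2 / (16 * CZ θ ^ 2) := ⟨_, rfl⟩
      have hb0 : 0 ≤ b := by rw [hbdef]; positivity
      have hb1 : b ≤ 1 := by
        rw [hbdef, div_le_one (by positivity)]
        have h1 : η ^ 2 ≤ CZ θ ^ 2 := pow_le_pow_left₀ hη.le hηCZ 2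
        have h2 : CZ θ ^ 2 ≤ 16 * CZ θ ^ 2 := le_mul_of_one_le_left (sq_nonneg _) (by norm_num)
        exact h1.trans h2
      have : η ^ 2 * N0 / (16 * CZ θ ^ 2) = b * N0 := by rw [hbdef]; ring
      rw [this]
      have e3 : b * (η * T / (2 * c1) - 1) ≤ b * N0 := by gcongr
      have e4 : b * (η * T / (2 * c1) - 1) = b' * q ^ 13 - b := by
        rw [hb'def, hbdef, hηdef, hTq]; exact F0_e4 η0 q c1 (CZ θ) hq0 hc1 hCZ
      have e5 : b' * q ≤ b' * q ^ 13 := by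
        gcongr
        calc q = q * 1 := by ring
          _ ≤ q * q ^ 12 := by gcongr; exact hqn 12
          _ = q ^ 13 := by ring
      linarith
    rw [le_div_iff₀ (by positivity)]
    calc X * q ^ 4 = (n : ℝ) * D * Real.exp (-(η ^ 2 * N0 / (16 * CZ θ ^ 2))) * q ^ 4 := by
          rw [hXdef, hndef]
      _ ≤ (n : ℝ) * (c1 * n) * (Real.exp 1 * Real.exp (-(b' * q))) * n := by
          gcongr
          exact hDc.trans (by gcongr)
      _ = (c1 * Real.exp 1) * (n : ℝ) ^ 3 * Real.exp (-(b' * q)) := by ring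
      _ ≤ c * (n : ℝ) ^ 3 * Real.exp (-(b' * q)) := by
          gcongr
          rw [hcdef]; linarith
      _ ≤ η0 := hexp
  -- constants of the exchange inequality
  obtain ⟨Aq, hAqdef⟩ : ∃ Aq : ℝ, Aq = A4 * q := ⟨_, rfl⟩
  have hAq1 : 1 ≤ Aq := by
    rw [hAqdef]
    exact one_le_mul_of_one_le_of_one_le hA41 hq1
  have hJ1 : (1 : ℝ) ≤ J := by exact_mod_cast hΓ.pos
  obtain ⟨E, hEdef⟩ : ∃ E : ℝ, E = C' * (Aq ^ 2 * J ^ 2) * (D * N0 + η * L + X) := ⟨_, rfl⟩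
  have hX0 : 0 ≤ X := by rw [hXdef]; positivity
  have hE : E ≤ ε / δ0 * L * κ0 := by
    have e1 : C' * (Aq ^ 2 * J ^ 2) ≤ C * q ^ 4 := by
      rw [hCdef, hAqdef]
      calc C' * ((A4 * q) ^ 2 * (J : ℝ) ^ 2) ≤ C' * ((A4 * q) ^ 2 * q ^ 2) := by gcongr
        _ = _ := by ring
    have e2 := F0_f2 C η0 (q ^ 4) L (D * N0) η X ε δ0 κ0 hC hδ0 hη0 (hqn 4) hη0def hL1
      (le_of_eq hηdef) (by rw [← hηdef]; exact hN0a) hX
    rw [hEdef]
    refine le_trans ?_ e2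
    gcongr
  have hEκ : E / kap K o (2 * h) g U ≤ ε / δ0 * L := by
    rw [div_le_iff₀ hκ]
    calc E ≤ ε / δ0 * L * κ0 := hE
      _ ≤ ε / δ0 * L * kap K o (2 * h) g U := by gcongr
  have hA4L : A4 * (L : ℝ) ≤ Aq * L := by
    rw [hAqdef]
    have : A4 ≤ A4 * q := le_mul_of_one_le_right (by linarith) hq1
    gcongr
  -- one shift
  have hstep : ∀ i < m, |Phi K Γ Rp (r + i * g) - Phi K Γ Rp (r + (i + 1) * g)| ≤ ε / δ0 * L := by
    intro i hi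
    have hri : (((r + i * g : ℕ) : ℝ) + g) ≤ Aq * L := by
      have s1 : r + i * g + g ≤ r + δ0 * v := by
        have : (i + 1) * g ≤ m * g := Nat.mul_le_mul_right g hi
        rw [hmg] at this
        linarith
      have s2 : ((r + i * g : ℕ) : ℝ) + g ≤ (r : ℝ) + δ0 * v := by exact_mod_cast s1
      have := F0_g A L r _ hL0.le hr (by linarith : ((r + i * g : ℕ) : ℝ) + g ≤ r + 4 * L)
      rw [← hA4] at this
      exact this.trans hA4L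
    have hΓA : (Γ.length : ℝ) ≤ Aq * Nat.sqrt (Fintype.card V) := by
      rw [← hLdef, hAqdef]
      refine hΓl.trans ?_
      have : q ≤ A4 * q := le_mul_of_one_le_left hq0.le hA41
      gcongr
    have hcond1 : 2 * h ≤ (4 * h + U) * N0 := by
      calc 2 * h ≤ 4 * h + U := by omega
        _ = (4 * h + U) * 1 := by ring
        _ ≤ (4 * h + U) * N0 := Nat.mul_le_mul_left _ hN0b
    have hcond2 : 4 * (2 * h + (4 * h + U) * N0 + 2 * h + 2 * U) ≤ Nat.sqrt (Fintype.card V) := by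
      rw [← hLdef]
      have : (4 : ℝ) * (2 * h + D * N0 + 2 * h + 2 * U) ≤ L :=
        F0_e h U D c1 x L η _ (by rw [hDdef]; push_cast; ring) hDc hc32 hη8 hL0.le hN0a
          (by linarith)
      rw [hDdef] at this
      exact_mod_cast this
    have key : ∀ N : ℕ, kap K o (2 * h) g U * PhiN K Γ Rp N (r + i * g)
          ≤ kap K o (2 * h) g U * PhiN K Γ Rp (N + U) (r + i * g + g) + E ∧
        kap K o (2 * h) g U * PhiN K Γ Rp N (r + i * g + g)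
          ≤ kap K o (2 * h) g U * PhiN K Γ Rp N (r + i * g) + E := by
      intro N
      have := hex V K h hP o Γ Rp J hΓ Aq hAq1 hΓA (r + i * g) g (2 * h) U N0 N
        (by rw [← hLdef]; exact hri) hg1 le_rfl hcond1 hcond2 η hη (by linarith)
      rw [← hLdef, ← hDdef, ← hXdef, ← hEdef] at this
      exact this
    have h2 := F0_limit Γ Rp hΓ (r + i * g) g U _ E hκ key
    have h3 : r + (i + 1) * g = r + i * g + g := by ring
    rw [h3]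
    exact h2.trans hEκ
  have hfin := F0_iter (fun s => Phi K Γ Rp s) r g m _ hstep
  rw [hmg] at hfin
  refine hfin.trans ?_
  have hmδ : (m : ℝ) ≤ δ0 := by exact_mod_cast hm2
  calc (m : ℝ) * (ε / δ0 * L) ≤ δ0 * (ε / δ0 * L) := by gcongr
    _ = ε * L := by field_simp

end Pool.Agent.helper57.HPT
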