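import Pool.Agent.helper57.HPT.B7
import Pool.Agent.helper65.HP.MacD
/-! # MP_5ae64c_pr, macroscopic step, part D: windows of levels and the forward estimate -/

open scoped BigOperators Topology
open Filter MeasureTheory

namespace Pool.Agent.helper57.HPT

open Pool.Agent.helper20.HP

variable {V : Type} [Fintype V] [DecidableEq V] {K : HW V} {θ : ℝ} {h : ℕ}

theorem MacD_km_win (K : HW V) (Γ : List V) (Rp : V → List V) (N r w : ℕ) :
    km K Γ Rp N (Mac_win r w) = ∑ y ∈ Finset.range w, PhiN K Γ Rp N (r + y) := by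
  have : (Mac_win r w : V → List V → List V → ℝ) = fun x ρ l => ∑ y ∈ Finset.range w, lev (r + y) x ρ l := by
    funext x ρ l
    exact MacD_win_eq r w x ρ l
  rw [this, km_sum]
  rfl

theorem MacD_km_win_le (hP : Par K θ h) (Γ : List V) (Rp : V → List V) {J : ℕ} (hΓ : Ok Γ Rp J) (N r w : ℕ) :
    km K Γ Rp N (Mac_win r w) ≤ (w : ℝ) * (((J : ℝ) * CP θ) * ((Nat.sqrt (Fintype.card V) : ℝ) + (r + w))) := by
  rw [MacD_km_win]
  have hCP : 0 ≤ CP θ := by
    unfold CP CZ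
    have := hP.one_le
    positivity
  have h1 : ∀ y ∈ Finset.range w, PhiN K Γ Rp N (r + y)
      ≤ ((J : ℝ) * CP θ) * ((Nat.sqrt (Fintype.card V) : ℝ) + (r + w)) := by
    intro y hy
    rw [Finset.mem_range] at hy
    refine (phi_bound hP Γ Rp hΓ N (r + y)).trans ?_
    rw [mul_assoc]
    have : (y : ℝ) ≤ w := by exact_mod_cast hy.le
    push_cast
    gcongr
  refine (Finset.sum_le_sum h1).trans ?_
  rw [Finset.sum_const, Finset.card_range, nsmul_eq_mul]

theorem MacD_km_short (hP : Par K θ h) (Γ : List V) (Rp : V → List V) {J : ℕ} (hΓ : Ok Γ Rp J) (s r w : ℕ)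
    (hs : 4 * s ≤ Nat.sqrt (Fintype.card V)) :
    km K Γ Rp s (Mac_win r w) ≤ (w : ℝ) * ((s : ℝ) * ((J : ℝ) * CZ θ)) := by
  have hCZ : 0 ≤ CZ θ := by unfold CZ; positivity
  rw [MacD_km_win]
  have h1 : ∀ y ∈ Finset.range w, PhiN K Γ Rp s (r + y) ≤ (s : ℝ) * ((J : ℝ) * CZ θ) := by
    intro y _
    rcases Nat.eq_zero_or_pos s with h0 | h0
    · subst h0
      unfold PhiN km
      simp
    · obtain ⟨T, rfl⟩ : ∃ T, s = T + 1 := ⟨s - 1, by omega⟩
      have := short_words hP Γ Rp hΓ T (r + y) (by omega)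
      push_cast
      refine this.trans (le_of_eq ?_)
      ring
  refine (Finset.sum_le_sum h1).trans ?_
  rw [Finset.sum_const, Finset.card_range, nsmul_eq_mul]

theorem MacD_km_LH (hP : Par K θ h) (Γ : List V) (Rp : V → List V) {J : ℕ} (hΓ : Ok Γ Rp J) (N r w k : ℕ)
    (hk : 4 * k ≤ Nat.sqrt (Fintype.card V)) :
    km K Γ Rp N (fun x ρ l => ind (LHin (2 * h) k x ρ l) * Mac_win r w x ρ l)
      ≤ (w : ℝ) * (3 / 2 * ((J : ℝ) * CZ θ) * ((k : ℝ) + 1)) := by
  have hJ1 : (1 : ℝ) ≤ J := by exact_mod_cast hΓ.pos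
  have hCZ : 0 ≤ CZ θ := by unfold CZ; positivity
  have e : (fun (x : V) (ρ l : List V) => ind (LHin (2 * h) k x ρ l) * Mac_win r w x ρ l)
      = fun x ρ l => ∑ y ∈ Finset.range w, ind (LHin (2 * h) k x ρ l) * lev (r + y) x ρ l := by
    funext x ρ l
    rw [MacD_win_eq, Finset.mul_sum]
  rw [e, km_sum]
  refine (Finset.sum_le_sum fun y _ => LH_mass hP Γ Rp hΓ N (r + y) k hk).trans ?_
  rw [Finset.sum_const, Finset.card_range, nsmul_eq_mul]
  have h1 : CZ θ ≤ (J : ℝ) * CZ θ := le_mul_of_one_le_left hCZ hJ1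
  gcongr


end Pool.Agent.helper57.HPT
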