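import Pool.Agent.helper57.HPT.MacE
import Pool.Agent.helper65.HP.MacF
/-! # MP_5ae64c_pr, macroscopic step, part F: the shift inequality with explicit errors -/

open scoped BigOperators Topology
open Filter MeasureTheory

namespace Pool.Agent.helper57.HPT

open Pool.Agent.helper20.HP

variable {V : Type} [Fintype V] [DecidableEq V] {K : HW V} {θ : ℝ} {h : ℕ}

/-- **Shift inequality with explicit errors.** -/
theorem MacF_main (hP : Par K θ h) (Γ : List V) (Rp : V → List V) {J : ℕ} (hΓ : Ok Γ Rp J) (x0 : V) (N r a w η M B N0 : ℕ)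
    (hM : 1 ≤ M) (hB1 : 1 ≤ B) (hB : 2 * M * (2 * h) ≤ B) (ε0 : ℝ) (hε0 : 0 < ε0)
    (hη : |2 * N0 * MacF_mean K (2 * h) M B x0 - a| + 2 * ε0 * N0 + 5 * B ≤ η) (π : ℝ)
    (hπ : (((2 * B * (N0 + 1) : ℕ) : ℝ) + 1) * (1 - 1 / (2 * θ)) ^ M
        + 2 * ((2 * B : ℕ) : ℝ) * Real.exp (- (ε0 ^ 2 * N0 / (16 * ((2 * B : ℕ) : ℝ) ^ 2))) ≤ π) :
    |km K Γ Rp (N + 2 * B * (N0 + 1)) (Mac_win (r + a) w) - km K Γ Rp N (Mac_win r w)|
      ≤ km K Γ Rp (2 * B * (N0 + 1)) (Mac_win (r + a) w)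
        + km K Γ Rp (N + 2 * B * (N0 + 1)) (fun x ρ l =>
            ind (LHin (2 * h) (2 * B * (N0 + 1)) x ρ l) * Mac_win (r + a) w x ρ l)
        + km K Γ Rp N (fun x ρ l => Mac_win r w x ρ l * MacE_bad K (2 * h) (2 * B * (N0 + 1)) Γ x ρ l)
        + (km K Γ Rp N (Mac_win (r - η) (2 * η)) + km K Γ Rp N (Mac_win (r + w - η) (2 * η)))
        + π * (km K Γ Rp N (Mac_win r w) + km K Γ Rp N (Mac_win (r + a - 2 * B * (N0 + 1))
            (w + 2 * (2 * B * (N0 + 1)) + 2 * h))) := by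
  set s := 2 * B * (N0 + 1) with hs
  have hh1 := hP.h_pos
  rw [km_split]
  set f1 : V → List V → List V → ℝ := fun x ρ l =>
      W K s (lst x l) (fun l' => ind (∀ y ∈ l', y ∉ Γ) * Mac_win (r + a) w x ρ (l ++ l')) with hf1
  have e1 : km K Γ Rp s (Mac_win (r + a) w) + km K Γ Rp N f1 - km K Γ Rp N (Mac_win r w)
      = km K Γ Rp s (Mac_win (r + a) w) + km K Γ Rp N (fun x ρ l => f1 x ρ l + (-1) * Mac_win r w x ρ l) := by
    rw [km_add, km_mul_left]
    ring
  rw [e1]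
  have hkn : 0 ≤ km K Γ Rp s (Mac_win (r + a) w) :=
    km_nonneg K Γ Rp s fun x ρ l => MacD_win_nonneg _ _ _ _ _
  refine (abs_add_le _ _).trans ?_
  rw [abs_of_nonneg hkn]
  have hπ0 : 0 ≤ π := by
    refine le_trans ?_ hπ
    have hθ := hP.one_le
    have hq : 0 ≤ 1 - 1 / (2 * θ) := by
      rw [sub_nonneg, div_le_one (by linarith)]
      linarith
    positivity
  -- the main comparison
  have key : |km K Γ Rp N (fun x ρ l => f1 x ρ l + (-1) * Mac_win r w x ρ l)|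
      ≤ km K Γ Rp N (fun x ρ l => (W K s (lst x l) (fun l' => ind (∀ y ∈ l', y ∉ Γ) *
          (ind (LHin (2 * h) s x ρ (l ++ l')) * Mac_win (r + a) w x ρ (l ++ l')))
        + Mac_win r w x ρ l * MacE_bad K (2 * h) s Γ x ρ l)
        + ((Mac_win (r - η) (2 * η) x ρ l + Mac_win (r + w - η) (2 * η) x ρ l)
        + π * (Mac_win r w x ρ l + Mac_win (r + a - s) (w + 2 * s + 2 * h) x ρ l))) := by
    have habs : |km K Γ Rp N (fun x ρ l => f1 x ρ l + (-1) * Mac_win r w x ρ l)|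
        ≤ km K Γ Rp N (fun x ρ l => |f1 x ρ l + (-1) * Mac_win r w x ρ l|) := by
      unfold km
      refine (Finset.abs_sum_le_sum_abs _ _).trans (Finset.sum_le_sum fun t _ => ?_)
      exact kmT_abs_le K Γ Rp t _
    refine habs.trans (km_mono K Γ Rp N fun i l _ _ => ?_)
    set x := Γ.get i with hx
    set ρ := Rp (Γ.get i) with hρ
    have hnd : (x :: ρ).Nodup := MacE_nodup hΓ i
    have e2 : f1 x ρ l + (-1) * Mac_win r w x ρ l = W K s (lst x l) (fun l' =>
        ind (∀ y ∈ l', y ∉ Γ) * Mac_win (r + a) w x ρ (l ++ l') - Mac_win r w x ρ l) := by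
      rw [W_sub, W_const]
      ring
    rw [e2]
    refine (W_abs_le K s _ _).trans ?_
    have e3 : W K s (lst x l) (fun l' =>
        |ind (∀ y ∈ l', y ∉ Γ) * Mac_win (r + a) w x ρ (l ++ l') - Mac_win r w x ρ l|)
        ≤ W K s (lst x l) (fun l' =>
          ind (∀ y ∈ l', y ∉ Γ) * (ind (LHin (2 * h) s x ρ (l ++ l')) * Mac_win (r + a) w x ρ (l ++ l'))
          + Mac_win r w x ρ l * ind (¬ ((∀ y ∈ l', y ∉ Γ) ∧ NoLH (2 * h) x ρ l l'))
          + (Mac_win (r - η) (2 * η) x ρ l + Mac_win (r + w - η) (2 * η) x ρ l)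
          + ind (MacF_bad K (2 * h) M B N0 ε0 (lst x l) l')
            * (Mac_win r w x ρ l + Mac_win (r + a - s) (w + 2 * s + 2 * h) x ρ l)) := by
      refine W_mono K s _ fun l' hl' => ?_
      refine MacF_pointwise s r a w η (2 * h) (by omega) Γ x ρ l l' hnd hl'
        (MacF_bad K (2 * h) M B N0 ε0 (lst x l) l') ?_
      intro hgood hno
      refine MacF_level (K := K) M B N0 hM hB1 hh1 hB ε0 a η x ρ l l' ?_ hnd hno hl' hgood
      rw [MacF_mean_inv (2 * h) M B (lst x l) x0]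
      exact hη
    refine e3.trans ?_
    rw [W_add, W_add, W_add, W_mul_left, W_const, W_mul_right]
    have hpr := MacF_prob hP M B N0 hM hB1 hB ε0 hε0 (lst x l)
    have hpr2 := hpr.trans hπ
    have hw := add_nonneg (MacD_win_nonneg r w x ρ l)
      (MacD_win_nonneg (r + a - s) (w + 2 * s + 2 * h) x ρ l)
    have h5 := mul_le_mul_of_nonneg_right hpr2 hw
    unfold MacE_bad
    linarith
  have hsplit := MacE_km_split_le (K := K) Γ Rp N s (fun x ρ l =>
    ind (LHin (2 * h) s x ρ l) * Mac_win (r + a) w x ρ l)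
    (fun x ρ l => mul_nonneg (ind_nonneg _) (MacD_win_nonneg _ _ _ _ _))
  have hR : km K Γ Rp N (fun x ρ l => (W K s (lst x l) (fun l' => ind (∀ y ∈ l', y ∉ Γ) *
          (ind (LHin (2 * h) s x ρ (l ++ l')) * Mac_win (r + a) w x ρ (l ++ l')))
        + Mac_win r w x ρ l * MacE_bad K (2 * h) s Γ x ρ l)
        + ((Mac_win (r - η) (2 * η) x ρ l + Mac_win (r + w - η) (2 * η) x ρ l)
        + π * (Mac_win r w x ρ l + Mac_win (r + a - s) (w + 2 * s + 2 * h) x ρ l)))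
      = (km K Γ Rp N (fun x ρ l => W K s (lst x l) (fun l' => ind (∀ y ∈ l', y ∉ Γ) *
          (ind (LHin (2 * h) s x ρ (l ++ l')) * Mac_win (r + a) w x ρ (l ++ l'))))
        + km K Γ Rp N (fun x ρ l => Mac_win r w x ρ l * MacE_bad K (2 * h) s Γ x ρ l))
        + ((km K Γ Rp N (Mac_win (r - η) (2 * η)) + km K Γ Rp N (Mac_win (r + w - η) (2 * η)))
        + π * (km K Γ Rp N (Mac_win r w) + km K Γ Rp N (Mac_win (r + a - s) (w + 2 * s + 2 * h)))) := by
    rw [km_add, km_add, km_add, km_add, km_mul_left, km_add]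
  rw [hR] at key
  linarith

end Pool.Agent.helper57.HPT
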