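import Pool.Agent.helper57.HPT.MacF
import Pool.Agent.helper65.HP.MacG
/-! # MP_5ae64c_pr, macroscopic step, part G: simplified errors, passage to `Phi` -/

open scoped BigOperators Topology
open Filter MeasureTheory

namespace Pool.Agent.helper57.HPT

open Pool.Agent.helper20.HP

variable {V : Type} [Fintype V] [DecidableEq V] {K : HW V} {θ : ℝ} {h : ℕ}

theorem MacG_km_win_tendsto (Γ : List V) (Rp : V → List V) {J : ℕ} (hΓ : Ok Γ Rp J) (r w : ℕ) :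
    Tendsto (fun N => km K Γ Rp N (Mac_win r w)) atTop
      (𝓝 (∑ y ∈ Finset.range w, Phi K Γ Rp (r + y))) := by
  simp_rw [MacD_km_win]
  exact tendsto_finsetSum _ fun y _ => PhiN_tendsto K Γ Rp hΓ (r + y)

/-- **Shift inequality, simplified errors**, for the truncated sums. -/
theorem MacG_fin (hP : Par K θ h) (A : ℝ) (hA : 0 ≤ A) (Γ : List V) (Rp : V → List V) {J : ℕ} (hΓ : Ok Γ Rp J)
    (hΓA : (Γ.length : ℝ) ≤ A * Nat.sqrt (Fintype.card V)) (x0 : V) (N r a w η M B N0 : ℕ)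
    (hM : 1 ≤ M) (hB1 : 1 ≤ B) (hB : 2 * M * (2 * h) ≤ B) (ε0 : ℝ) (hε0 : 0 < ε0)
    (h4s : 4 * (2 * B * (N0 + 1)) ≤ Nat.sqrt (Fintype.card V))
    (hη : |2 * N0 * MacF_mean K (2 * h) M B x0 - a| + 2 * ε0 * N0 + 5 * B ≤ η) (π : ℝ)
    (hπ : (((2 * B * (N0 + 1) : ℕ) : ℝ) + 1) * (1 - 1 / (2 * θ)) ^ M
        + 2 * ((2 * B : ℕ) : ℝ) * Real.exp (- (ε0 ^ 2 * N0 / (16 * ((2 * B : ℕ) : ℝ) ^ 2))) ≤ π)
    (hr : (r : ℝ) + a ≤ A * Nat.sqrt (Fintype.card V))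
    (hwL : w + 4 * h ≤ Nat.sqrt (Fintype.card V)) (hhw : h ≤ w) (hηw : η ≤ w) :
    |km K Γ Rp (N + 2 * B * (N0 + 1)) (Mac_win (r + a) w) - km K Γ Rp N (Mac_win r w)|
      ≤ (w : ℝ) * ((2 * B * (N0 + 1) : ℕ) : ℝ) * (5 / 2 * ((J : ℝ) * CZ θ) + 15 / 2 * ((J : ℝ) * CP θ) * ((A + 2) * (2 * A + 2)))
        + w * ((h : ℝ) + 1) * (5 * ((J : ℝ) * CZ θ))
        + η * (Nat.sqrt (Fintype.card V) : ℝ) * (4 * ((J : ℝ) * CP θ) * (A + 4))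
        + π * ((Nat.sqrt (Fintype.card V) : ℝ) ^ 2) * (((J : ℝ) * CP θ) * (3 * A + 8)) := by
  have key := MacF_main hP Γ Rp hΓ x0 N r a w η M B N0 hM hB1 hB ε0 hε0 hη π hπ
  have hπ0 : 0 ≤ π := MacG_pi hP _ M B N0 ε0 π hπ
  clear hπ hη hε0 hB hB1 hM
  have hCP : 0 ≤ ((J : ℝ) * CP θ) := mul_nonneg (Nat.cast_nonneg _) (MacG_CP_nonneg hP)
  have hCZ : 0 ≤ ((J : ℝ) * CZ θ) := mul_nonneg (Nat.cast_nonneg _) (MacG_CZ_nonneg θ)
  have hn0 : (0 : ℝ) < Fintype.card V := by exact_mod_cast hP.card_pos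
  have hLn : ((Nat.sqrt (Fintype.card V) : ℕ) : ℝ) * (Nat.sqrt (Fintype.card V) : ℕ)
      ≤ Fintype.card V := by
    have := Nat.sqrt_le (Fintype.card V)
    exact_mod_cast this
  have T1 := MacD_km_short hP Γ Rp hΓ (2 * B * (N0 + 1)) (r + a) w h4s
  have T2 := MacD_km_LH hP Γ Rp hΓ (N + 2 * B * (N0 + 1)) (r + a) w (2 * B * (N0 + 1)) h4s
  have T3 := MacE_forward hP Γ Rp hΓ N r w (2 * B * (N0 + 1))
  have T4a := MacD_km_win_le hP Γ Rp hΓ N (r - η) (2 * η)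
  have T4b := MacD_km_win_le hP Γ Rp hΓ N (r + w - η) (2 * η)
  have T5a := MacD_km_win_le hP Γ Rp hΓ N r w
  have T5b := MacD_km_win_le hP Γ Rp hΓ N (r + a - 2 * B * (N0 + 1)) (w + 2 * (2 * B * (N0 + 1)) + 2 * h)
  have r1 : ((r - η : ℕ) : ℝ) ≤ r := by exact_mod_cast Nat.sub_le r η
  have r2 : ((r + w - η : ℕ) : ℝ) ≤ (r : ℝ) + w := by exact_mod_cast Nat.sub_le (r + w) η
  have r3 : ((r + a - 2 * B * (N0 + 1) : ℕ) : ℝ) ≤ (r : ℝ) + a := by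
    exact_mod_cast Nat.sub_le (r + a) (2 * B * (N0 + 1))
  have r1' : (0 : ℝ) ≤ ((r - η : ℕ) : ℝ) := Nat.cast_nonneg _
  have r2' : (0 : ℝ) ≤ ((r + w - η : ℕ) : ℝ) := Nat.cast_nonneg _
  have r3' : (0 : ℝ) ≤ ((r + a - 2 * B * (N0 + 1) : ℕ) : ℝ) := Nat.cast_nonneg _
  have hL0 : (0 : ℝ) ≤ (Nat.sqrt (Fintype.card V) : ℕ) := Nat.cast_nonneg _
  have hsL : (4 : ℝ) * ((2 * B * (N0 + 1) : ℕ) : ℝ) ≤ (Nat.sqrt (Fintype.card V) : ℕ) := by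
    exact_mod_cast h4s
  have hs0 : (0 : ℝ) ≤ ((2 * B * (N0 + 1) : ℕ) : ℝ) := Nat.cast_nonneg _
  have hwL' : (w : ℝ) + 4 * h ≤ (Nat.sqrt (Fintype.card V) : ℕ) := by exact_mod_cast hwL
  have hhw' : (h : ℝ) ≤ w := by exact_mod_cast hhw
  have hηw' : (η : ℝ) ≤ w := by exact_mod_cast hηw
  have hw0 : (0 : ℝ) ≤ w := Nat.cast_nonneg _
  have hh0 : (0 : ℝ) ≤ h := Nat.cast_nonneg _
  have hη0 : (0 : ℝ) ≤ η := Nat.cast_nonneg _
  have hr0 : (0 : ℝ) ≤ r := Nat.cast_nonneg _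
  have ha0 : (0 : ℝ) ≤ a := Nat.cast_nonneg _
  have hΓ0 : (0 : ℝ) ≤ Γ.length := Nat.cast_nonneg _
  have cw : ((w + 2 * (2 * B * (N0 + 1)) + 2 * h : ℕ) : ℝ)
      = w + 2 * ((2 * B * (N0 + 1) : ℕ) : ℝ) + 2 * h := by push_cast; ring
  have ch : (((2 * h : ℕ) : ℝ)) = 2 * h := by push_cast; ring
  have cη : (((2 * η : ℕ) : ℝ)) = 2 * η := by push_cast; ring
  rw [cη] at T4a T4b
  rw [ch] at T3
  rw [cw] at T5b
  generalize ((2 * B * (N0 + 1) : ℕ) : ℝ) = s at *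
  generalize ((r - η : ℕ) : ℝ) = x1 at *
  generalize ((r + w - η : ℕ) : ℝ) = x2 at *
  generalize ((r + a - 2 * B * (N0 + 1) : ℕ) : ℝ) = x3 at *
  generalize km K Γ Rp (2 * B * (N0 + 1)) (Mac_win (r + a) w) = K1 at *
  generalize km K Γ Rp (N + 2 * B * (N0 + 1)) (fun x ρ l =>
    ind (LHin (2 * h) (2 * B * (N0 + 1)) x ρ l) * Mac_win (r + a) w x ρ l) = K2 at *
  generalize km K Γ Rp N (fun x ρ l =>
    Mac_win r w x ρ l * MacE_bad K (2 * h) (2 * B * (N0 + 1)) Γ x ρ l) = K3 at *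
  generalize km K Γ Rp N (Mac_win (r - η) (2 * η)) = K4 at *
  generalize km K Γ Rp N (Mac_win (r + w - η) (2 * η)) = K5 at *
  generalize km K Γ Rp N (Mac_win (r + a - 2 * B * (N0 + 1))
    (w + 2 * (2 * B * (N0 + 1)) + 2 * h)) = K7 at *
  generalize ((Nat.sqrt (Fintype.card V) : ℕ) : ℝ) = L at *
  generalize (Fintype.card V : ℝ) = n at *
  generalize (Γ.length : ℝ) = γ at *
  generalize (w : ℝ) = w' at *
  generalize (h : ℝ) = h' at *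
  generalize (η : ℝ) = e at *
  generalize (r : ℝ) = r' at *
  generalize (a : ℝ) = a' at *
  refine key.trans ?_
  clear key
  generalize km K Γ Rp N (Mac_win r w) = K6 at *
  have hT3 := MacG_t3 L w' h' s r' γ n A (((J : ℝ) * CP θ)) hA hCP hL0 hw0 hs0 hn0 hLn (by linarith) hr0 hh0
    hwL' hhw' hΓA hΓ0 hsL
  have hT4a := MacG_t4 L e x1 A (((J : ℝ) * CP θ)) hη0 hCP (by linarith)
  have hT4b := MacG_t4 L e x2 A (((J : ℝ) * CP θ)) hη0 hCP (by linarith)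
  have hT5a := MacG_t5 L w' (r' + w') 1 (A + 2) (((J : ℝ) * CP θ)) hL0 hCP zero_le_one (by linarith)
    (by linarith) (by linarith)
  have hT5b := MacG_t5 L (w' + 2 * s + 2 * h') (x3 + (w' + 2 * s + 2 * h')) 2 (A + 3) (((J : ℝ) * CP θ)) hL0 hCP
    zero_le_two (by linarith) (by linarith) (by linarith)
  have hT5 : π * (K6 + K7) ≤ π * (L ^ 2 * (((J : ℝ) * CP θ) * (3 * A + 8))) := by
    refine mul_le_mul_of_nonneg_left ?_ hπ0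
    have e1 : L ^ 2 * (((J : ℝ) * CP θ) * (1 * (A + 2))) + L ^ 2 * (((J : ℝ) * CP θ) * (2 * (A + 3)))
        = L ^ 2 * (((J : ℝ) * CP θ) * (3 * A + 8)) := by ring
    linarith
  have hT4 : K4 + K5 ≤ e * L * (4 * ((J : ℝ) * CP θ) * (A + 4)) := by
    have e1 : e * L * (2 * ((J : ℝ) * CP θ) * (A + 4)) + e * L * (2 * ((J : ℝ) * CP θ) * (A + 4))
        = e * L * (4 * ((J : ℝ) * CP θ) * (A + 4)) := by ring
    linarith
  have fin := MacG_sum w' s h' (((J : ℝ) * CZ θ)) (15 / 2 * ((J : ℝ) * CP θ) * ((A + 2) * (2 * A + 2))) K1 K2 K3 (K4 + K5)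
    (π * (K6 + K7)) _ _ (mul_nonneg hw0 hCZ) T1 T2 (by linarith) hT4 hT5
  refine fin.trans (le_of_eq ?_)
  ring

end Pool.Agent.helper57.HPT
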