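import Pool.Agent.helper57.HPT.MacG
import Pool.Agent.helper65.HP.MacH
/-! # MP_5ae64c_pr, macroscopic step, part H: limit and choice of parameters -/

open scoped BigOperators Topology
open Filter MeasureTheory

namespace Pool.Agent.helper57.HPT

open Pool.Agent.helper20.HP

variable {V : Type} [Fintype V] [DecidableEq V] {K : HW V} {θ : ℝ} {h : ℕ}

theorem MacH_lim (Γ : List V) (Rp : V → List V) {J : ℕ} (hΓ : Ok Γ Rp J) (r a w s : ℕ) (E : ℝ)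
    (hE : ∀ N, |km K Γ Rp (N + s) (Mac_win (r + a) w) - km K Γ Rp N (Mac_win r w)| ≤ E) :
    |∑ y ∈ Finset.range w, Phi K Γ Rp (r + a + y) - ∑ y ∈ Finset.range w, Phi K Γ Rp (r + y)| ≤ E := by
  have h1 := MacG_km_win_tendsto (K := K) Γ Rp hΓ (r + a) w
  have h2 := MacG_km_win_tendsto (K := K) Γ Rp hΓ r w
  have h3 : Tendsto (fun N => km K Γ Rp (N + s) (Mac_win (r + a) w)) atTop
      (𝓝 (∑ y ∈ Finset.range w, Phi K Γ Rp (r + a + y))) :=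
    h1.comp (tendsto_add_atTop_nat s)
  have h4 := (h3.sub h2).abs
  exact le_of_tendsto h4 (Filter.Eventually.of_forall hE)

theorem MacH_Phi_le (hP : Par K θ h) (Γ : List V) (Rp : V → List V) {J : ℕ} (hΓ : Ok Γ Rp J) (r : ℕ) :
    Phi K Γ Rp r ≤ ((J : ℝ) * CP θ) * ((Nat.sqrt (Fintype.card V) : ℝ) + r) :=
  le_of_tendsto (PhiN_tendsto K Γ Rp hΓ r) (Filter.Eventually.of_forall fun N => by
    rw [mul_assoc]; exact phi_bound hP Γ Rp hΓ N r)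

/-- small shifts -/
theorem MacH_small (hP : Par K θ h) (Γ : List V) (Rp : V → List V) {J : ℕ} (hΓ : Ok Γ Rp J) (r a w : ℕ) :
    |∑ y ∈ Finset.range w, Phi K Γ Rp (r + a + y) - ∑ y ∈ Finset.range w, Phi K Γ Rp (r + y)|
      ≤ a * (((J : ℝ) * CP θ) * ((Nat.sqrt (Fintype.card V) : ℝ) + (r + w + a))) := by
  have hCP : 0 ≤ ((J : ℝ) * CP θ) := mul_nonneg (Nat.cast_nonneg _) (MacG_CP_nonneg hP)
  have e1 : ∑ y ∈ Finset.range w, Phi K Γ Rp (r + y) + ∑ y ∈ Finset.range a, Phi K Γ Rp (r + w + y)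
      = ∑ y ∈ Finset.range (w + a), Phi K Γ Rp (r + y) := by
    rw [Finset.sum_range_add]
    simp_rw [← add_assoc]
  have e2 : ∑ y ∈ Finset.range a, Phi K Γ Rp (r + y) + ∑ y ∈ Finset.range w, Phi K Γ Rp (r + a + y)
      = ∑ y ∈ Finset.range (w + a), Phi K Γ Rp (r + y) := by
    rw [add_comm w a, Finset.sum_range_add]
    simp_rw [← add_assoc]
  have hb : ∀ r', r' = r ∨ r' = r + w → ∑ y ∈ Finset.range a, Phi K Γ Rp (r' + y)
      ≤ a * (((J : ℝ) * CP θ) * ((Nat.sqrt (Fintype.card V) : ℝ) + (r + w + a))) := by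
    intro r' hr'
    have h1 : ∀ y ∈ Finset.range a, Phi K Γ Rp (r' + y)
        ≤ ((J : ℝ) * CP θ) * ((Nat.sqrt (Fintype.card V) : ℝ) + (r + w + a)) := by
      intro y hy
      rw [Finset.mem_range] at hy
      refine (MacH_Phi_le hP Γ Rp hΓ (r' + y)).trans ?_
      have h2 : r' + y ≤ r + w + a := by
        rcases hr' with h | h <;> omega
      have h3 : ((r' + y : ℕ) : ℝ) ≤ (r : ℝ) + w + a := by exact_mod_cast h2
      gcongr
    refine (Finset.sum_le_sum h1).trans ?_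
    rw [Finset.sum_const, Finset.card_range, nsmul_eq_mul]
  have hb1 := hb r (Or.inl rfl)
  have hb2 := hb (r + w) (Or.inr rfl)
  have n1 : 0 ≤ ∑ y ∈ Finset.range a, Phi K Γ Rp (r + y) :=
    Finset.sum_nonneg fun y _ => Phi_nonneg K Γ Rp _
  have n2 : 0 ≤ ∑ y ∈ Finset.range a, Phi K Γ Rp (r + w + y) :=
    Finset.sum_nonneg fun y _ => Phi_nonneg K Γ Rp _
  rw [abs_le]
  constructor <;> linarith

/-- the shift inequality with chosen parameters -/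
theorem MacH_core (hP : Par K θ h) (A : ℝ) (hA : 0 ≤ A) (Γ : List V) (Rp : V → List V) {J : ℕ} (hΓ : Ok Γ Rp J)
    (hΓA : (Γ.length : ℝ) ≤ A * Nat.sqrt (Fintype.card V)) (x0 : V) (r a w M B : ℕ)
    (hM : 1 ≤ M) (hB1 : 1 ≤ B) (hMB : 8 * h * M ≤ B)
    (δ ε1 : ℝ) (hδ : δ * (64 * θ) ≤ 1) (hε1 : 0 < ε1) (hε1' : ε1 ≤ 1 / 8)
    (haδ : (a : ℝ) ≤ δ * Nat.sqrt (Fintype.card V))
    (haB : 4 * B < a) (hBL : 16 * B ≤ Nat.sqrt (Fintype.card V))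
    (hr : (r : ℝ) + a ≤ A * Nat.sqrt (Fintype.card V))
    (hwL : w + 4 * h ≤ Nat.sqrt (Fintype.card V)) (hhw : h ≤ w)
    (hBw : 9 * (B : ℝ) + 1 ≤ ε1 * w) (π : ℝ)
    (hπ : (Nat.sqrt (Fintype.card V) : ℝ) * (1 - 1 / (2 * θ)) ^ M
        + 4 * (B : ℝ) * Real.exp (- (ε1 ^ 2 * w ^ 2 / (2 * ((Nat.sqrt (Fintype.card V) : ℝ) * B)))) ≤ π) :
    |∑ y ∈ Finset.range w, Phi K Γ Rp (r + a + y) - ∑ y ∈ Finset.range w, Phi K Γ Rp (r + y)|
      ≤ (w : ℝ) * (4 * θ * δ * Nat.sqrt (Fintype.card V) + 2 * B)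
          * (5 / 2 * ((J : ℝ) * CZ θ) + 15 / 2 * ((J : ℝ) * CP θ) * ((A + 2) * (2 * A + 2)))
        + w * ((h : ℝ) + 1) * (5 * ((J : ℝ) * CZ θ))
        + (3 * ε1 * w) * (Nat.sqrt (Fintype.card V) : ℝ) * (4 * ((J : ℝ) * CP θ) * (A + 4))
        + π * ((Nat.sqrt (Fintype.card V) : ℝ) ^ 2) * (((J : ℝ) * CP θ) * (3 * A + 8)) := by
  have hθ := hP.one_le
  have hCP : 0 ≤ ((J : ℝ) * CP θ) := mul_nonneg (Nat.cast_nonneg _) (MacG_CP_nonneg hP)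
  have hCZ : 0 ≤ ((J : ℝ) * CZ θ) := mul_nonneg (Nat.cast_nonneg _) (MacG_CZ_nonneg θ)
  have hBp : (0 : ℝ) < B := by exact_mod_cast hB1
  have hB1' : (1 : ℝ) ≤ B := by exact_mod_cast hB1
  obtain ⟨hB2, hκ1, hκ2⟩ := MacH_mean_bounds hP M B hM hMB x0 hBL
  obtain ⟨N0, η, ε0, hε0p, h4s, hs1, hηh, hη3, hη5, hexp⟩ := MacH_choice θ δ ε1
    (MacF_mean K (2 * h) M B x0) a B w (Nat.sqrt (Fintype.card V)) hθ hδ hε1 hε1' hκ1 hκ2 hB1
    haδ haB hBL hBw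
  have hq : 0 ≤ 1 - 1 / (2 * θ) := by
    rw [sub_nonneg, div_le_one (by linarith)]
    linarith
  have hπ' : (((2 * B * (N0 + 1) : ℕ) : ℝ) + 1) * (1 - 1 / (2 * θ)) ^ M
        + 2 * ((2 * B : ℕ) : ℝ) * Real.exp (- (ε0 ^ 2 * N0 / (16 * ((2 * B : ℕ) : ℝ) ^ 2))) ≤ π := by
    refine le_trans (add_le_add ?_ ?_) hπ
    · refine mul_le_mul_of_nonneg_right ?_ (pow_nonneg hq _)
      have h1 : (((2 * B * (N0 + 1)) * 4 : ℕ) : ℝ) ≤ (Nat.sqrt (Fintype.card V) : ℕ) := by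
        rw [mul_comm]; exact_mod_cast h4s
      have h2 : (1 : ℝ) ≤ ((2 * B * (N0 + 1) : ℕ) : ℝ) := by
        have : 1 ≤ 2 * B * (N0 + 1) := Nat.mul_pos (by omega) (by omega)
        exact_mod_cast this
      rw [Nat.cast_mul, Nat.cast_ofNat] at h1
      linarith
    · have e2 : 2 * ((2 * B : ℕ) : ℝ) = 4 * (B : ℝ) := by push_cast; ring
      rw [e2]
      refine mul_le_mul_of_nonneg_left ?_ (by linarith)
      exact Real.exp_le_exp.2 (neg_le_neg hexp)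
  have key := MacH_lim (K := K) Γ Rp hΓ r a w (2 * B * (N0 + 1)) _ (fun N =>
    MacG_fin hP A hA Γ Rp hΓ hΓA x0 N r a w η M B N0 hM hB1 hB2 ε0 hε0p h4s hηh π hπ' hr hwL hhw hη5)
  refine key.trans ?_
  have hD1 : 0 ≤ 5 / 2 * ((J : ℝ) * CZ θ) + 15 / 2 * ((J : ℝ) * CP θ) * ((A + 2) * (2 * A + 2)) :=
    add_nonneg (mul_nonneg (by norm_num) hCZ) (mul_nonneg (mul_nonneg (by norm_num) hCP)
      (mul_nonneg (by linarith) (by linarith)))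
  have hD3 : 0 ≤ 4 * ((J : ℝ) * CP θ) * (A + 4) := mul_nonneg (by linarith) (by linarith)
  exact MacH_combine _ _ _ _ _ _ _ _ _ _ _ _ (Nat.cast_nonneg _) hs1 hη3 (Nat.cast_nonneg _) hD1 hD3

end Pool.Agent.helper57.HPT
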