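import Pool.Agent.helper57.HPT.MacH
import Pool.Agent.helper65.HP.MacI

/-!
Elementary estimates for the quantitative macroscopic step of a skeleton (MP_5ae64c_pr, functional form,
part C).
-/

open scoped BigOperators Topology
open Filter MeasureTheory

namespace Pool.Agent.helper57.HPT

/-- asymptotics -/
theorem RtA_asym (θ α : ℝ) (hθ : 1 ≤ θ) (hα : 0 < α) :
    ∃ n0 : ℕ, ∀ n : ℕ, n0 ≤ n → 4 ≤ n ∧ 64 ≤ (n : ℝ) ^ (α / 16) ∧
      20 * ((n : ℝ) * Real.exp (-(1 / (16 * θ)) * (n : ℝ) ^ (α / 16))) ≤ 1 := by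
  have hc' : 0 < 1 / (16 * θ) := by positivity
  have h0 : Tendsto (fun x : ℝ => x ^ (α / 16)) atTop atTop := tendsto_rpow_atTop (by positivity)
  have h2 : Tendsto (fun x : ℝ => x * Real.exp (-(1 / (16 * θ)) * x ^ (α / 16))) atTop (𝓝 0) := by
    have h3 := tendsto_rpow_mul_exp_neg_mul_atTop_nhds_zero (16 / α) (1 / (16 * θ)) hc'
    have h5 := h3.comp h0
    refine h5.congr' ?_
    filter_upwards [eventually_gt_atTop 0] with x hx
    simp only [Function.comp]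
    rw [← Real.rpow_mul hx.le]
    have : α / 16 * (16 / α) = 1 := by field_simp
    rw [this, Real.rpow_one]
  have e1 : ∀ᶠ x : ℝ in atTop, 64 ≤ x ^ (α / 16) := h0.eventually_ge_atTop 64
  have e2 : ∀ᶠ x : ℝ in atTop, x * Real.exp (-(1 / (16 * θ)) * x ^ (α / 16)) ≤ 1 / 20 :=
    (h2.eventually (ge_mem_nhds (by norm_num)))
  have e3 : ∀ᶠ n : ℕ in atTop, 64 ≤ (n : ℝ) ^ (α / 16) :=
    tendsto_natCast_atTop_atTop.eventually e1
  have e4 : ∀ᶠ n : ℕ in atTop, (n : ℝ) * Real.exp (-(1 / (16 * θ)) * (n : ℝ) ^ (α / 16)) ≤ 1 / 20 :=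
    tendsto_natCast_atTop_atTop.eventually e2
  obtain ⟨n0, hn0⟩ := eventually_atTop.1 ((eventually_ge_atTop 4).and (e3.and e4))
  refine ⟨n0, fun n hn => ?_⟩
  obtain ⟨a1, a2, a3⟩ := hn0 n hn
  exact ⟨a1, a2, by linarith⟩

/-- the powers of `n` in terms of `q = n^(α/16)` and `u = n^(1/2-α)` -/
theorem RtA_pow (n : ℕ) (α : ℝ) (hα : 0 < α) (hα' : α ≤ 1 / 4) (hn : 1 ≤ n) :
    (n : ℝ) ^ (1 / 2 : ℝ) * (n : ℝ) ^ (1 / 2 : ℝ) = n ∧
    (n : ℝ) ^ (1 / 2 : ℝ) = (n : ℝ) ^ (1 / 2 - α) * ((n : ℝ) ^ (α / 16)) ^ 16 ∧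
    (n : ℝ) ^ (1 / 2 - α / 8) = (n : ℝ) ^ (1 / 2 - α) * ((n : ℝ) ^ (α / 16)) ^ 14 ∧
    1 ≤ (n : ℝ) ^ (1 / 2 - α) ∧ (n : ℝ) ^ (-(α / 16)) * (n : ℝ) ^ (α / 16) = 1 := by
  have hn1 : (1 : ℝ) ≤ n := by exact_mod_cast hn
  have hX : (0 : ℝ) < n := by linarith
  have key : ∀ k : ℕ, ((n : ℝ) ^ (α / 16)) ^ k = (n : ℝ) ^ (α / 16 * k) := by
    intro k
    rw [Real.rpow_mul hX.le, Real.rpow_natCast]
  refine ⟨?_, ?_, ?_, ?_, ?_⟩
  · rw [← Real.rpow_add hX]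
    norm_num
  · rw [key, ← Real.rpow_add hX]
    congr 1
    push_cast
    ring
  · rw [key, ← Real.rpow_add hX]
    congr 1
    push_cast
    ring
  · exact Real.one_le_rpow hn1 (by linarith)
  · rw [← Real.rpow_add hX]
    have : -(α / 16) + α / 16 = 0 := by ring
    rw [this, Real.rpow_zero]

/-- sizes -/
theorem RtA_sizes (u q L B w h : ℝ) (hu : 1 ≤ u) (hq : 64 ≤ q) (hL1 : L ≤ u * q ^ 16)
    (hL2 : u * q ^ 16 ≤ 2 * L) (hB1 : u * q ^ 8 ≤ B) (hB2 : B ≤ u * q ^ 8 + 1)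
    (hw1 : u * q ^ 14 ≤ 2 * w) (hw2 : w ≤ 2 * (u * q ^ 14)) (hh1 : 1 ≤ h) (hh : h ≤ u) :
    16 * B ≤ L ∧ w + 4 * h ≤ L ∧ h ≤ w ∧ 9 * B + 1 ≤ 1 / q * w ∧ 2 * B ≤ L / q ∧ h + 1 ≤ L / q ∧
    4 * B ≤ w / q ∧ B ≤ 2 * (u * q ^ 8) ∧ 1 / 2 ≤ w / q ∧ 0 < w ∧ w ≤ L ∧ 1 ≤ L := by
  have hq0 : 0 < q := by linarith
  have hu0 : 0 < u := by linarith
  have step : ∀ k : ℕ, 64 * (u * q ^ k) ≤ u * q ^ (k + 1) := by
    intro k
    have : 0 ≤ u * q ^ k := by positivity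
    calc 64 * (u * q ^ k) ≤ q * (u * q ^ k) := by gcongr
      _ = u * q ^ (k + 1) := by ring
  have pos : ∀ k : ℕ, 1 ≤ u * q ^ k := fun k =>
    one_le_mul_of_one_le_of_one_le hu (one_le_pow₀ (by linarith))
  have s0 := step 0
  have s8 := step 8
  have s9 := step 9
  have s10 := step 10
  have s11 := step 11
  have s12 := step 12
  have s13 := step 13
  have s14 := step 14
  have s15 := step 15
  have s1 := step 1
  have s2 := step 2
  have s3 := step 3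
  have s4 := step 4
  have s5 := step 5
  have s6 := step 6
  have s7 := step 7
  have p8 := pos 8
  have p1 := pos 1
  have p13 := pos 13
  have e0 : u * q ^ 0 = u := by ring
  have e9 : u * q ^ 8 * q = u * q ^ 9 := by ring
  have e1 : u * q = u * q ^ 1 := by ring
  have e14 : u * q ^ 13 * q = u * q ^ 14 := by ring
  norm_num at s0 s8 s9 s10 s11 s12 s13 s14 s15 s1 s2 s3 s4 s5 s6 s7
  have hB3 : B ≤ 2 * (u * q ^ 8) := by linarith
  have hw0 : 0 < w := by linarith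
  refine ⟨by linarith, by linarith, by linarith, ?_, ?_, ?_, ?_, hB3, ?_, hw0, by linarith, by linarith⟩
  · rw [one_div, inv_mul_eq_div, le_div_iff₀ hq0]
    have : (9 * B + 1) * q ≤ 19 * (u * q ^ 8) * q := by gcongr; linarith
    linarith
  · rw [le_div_iff₀ hq0]
    have : 2 * B * q ≤ 2 * (2 * (u * q ^ 8)) * q := by gcongr
    linarith
  · rw [le_div_iff₀ hq0]
    have : (h + 1) * q ≤ (2 * u) * q := by gcongr; linarith
    linarith
  · rw [le_div_iff₀ hq0]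
    have : 4 * B * q ≤ 4 * (2 * (u * q ^ 8)) * q := by gcongr
    linarith
  · rw [le_div_iff₀ hq0]
    have : q ≤ u * q := le_mul_of_one_le_left hq0.le hu
    linarith

/-- the second exponential -/
theorem RtA_exp2 (u q L B w θ : ℝ) (hu : 1 ≤ u) (hq : 64 ≤ q) (hθ : 1 ≤ θ) (hL0 : 0 < L) (hB0 : 0 < B)
    (hL1 : L ≤ u * q ^ 16) (hB3 : B ≤ 2 * (u * q ^ 8)) (hw1 : u * q ^ 14 ≤ 2 * w) :
    Real.exp (- ((1 / q) ^ 2 * w ^ 2 / (2 * (L * B)))) ≤ Real.exp (-(1 / (16 * θ)) * q) := by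
  have hq0 : 0 < q := by linarith
  have hu0 : 0 < u := by linarith
  apply Real.exp_le_exp.2
  have h2 : 1 / (16 * θ) * q ≤ (1 / q) ^ 2 * w ^ 2 / (2 * (L * B)) := by
    rw [le_div_iff₀ (by positivity)]
    have h3 : 1 / (16 * θ) ≤ 1 / 16 := by
      rw [div_le_div_iff₀ (by positivity) (by norm_num)]
      linarith
    have h4 : (u * q ^ 14 / 2) ^ 2 ≤ w ^ 2 := by
      have : u * q ^ 14 / 2 ≤ w := by linarith
      gcongr
    calc 1 / (16 * θ) * q * (2 * (L * B)) ≤ 1 / 16 * q * (2 * ((u * q ^ 16) * (2 * (u * q ^ 8)))) := by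
          gcongr
      _ = (u ^ 2 * q ^ 25 / 4) * 1 := by ring
      _ ≤ (u ^ 2 * q ^ 25 / 4) * q := by gcongr; linarith
      _ = (1 / q) ^ 2 * (u * q ^ 14 / 2) ^ 2 := by
          rw [one_div, inv_pow, eq_comm, inv_mul_eq_div, div_eq_iff (by positivity)]
          ring
      _ ≤ (1 / q) ^ 2 * w ^ 2 := by gcongr
  linarith

/-- total of the two exponentials -/
theorem RtA_pi (u q L B w θ E1 E : ℝ) (n : ℝ) (hu : 1 ≤ u) (hq : 64 ≤ q) (hL0 : 0 < L) (hB0 : 0 < B)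
    (hn : (u * q ^ 16) * (u * q ^ 16) = n) (hE0 : 0 ≤ E) (hE1 : E1 ≤ 2 * E)
    (hL1 : L ≤ u * q ^ 16) (hB3 : B ≤ 2 * (u * q ^ 8)) (hw : 1 / 2 ≤ w / q)
    (hE : 20 * (n * E) ≤ 1) (E2 : ℝ) (hE2 : E2 ≤ E) :
    (L * E1 + 4 * B * E2) * L ^ 2 ≤ w * (L / q) := by
  have hq0 : 0 < q := by linarith
  have hu0 : 0 < u := by linarith
  have h1 : L * E1 + 4 * B * E2 ≤ L * (2 * E) + 4 * B * E := by gcongr
  have h8 : u * q ^ 8 ≤ u * q ^ 16 := by
    have : q ^ 8 ≤ q ^ 16 := pow_le_pow_right₀ (by linarith) (by norm_num)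
    gcongr
  have h2 : (L * E1 + 4 * B * E2) * L ≤ 1 / 2 := by
    calc (L * E1 + 4 * B * E2) * L ≤ (L * (2 * E) + 4 * B * E) * L := by gcongr
      _ = 2 * (L * L) * E + 4 * (B * L) * E := by ring
      _ ≤ 2 * ((u * q ^ 16) * (u * q ^ 16)) * E + 4 * ((2 * (u * q ^ 16)) * (u * q ^ 16)) * E := by
          gcongr
          linarith
      _ = 10 * (n * E) := by rw [← hn]; ring
      _ ≤ 1 / 2 := by linarith
  calc (L * E1 + 4 * B * E2) * L ^ 2 = ((L * E1 + 4 * B * E2) * L) * L := by ring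
    _ ≤ (w / q) * L := by gcongr; linarith
    _ = w * (L / q) := by ring

/-- addition of the error terms -/
theorem RtA_sum (w a L D A J θ Z P δL B2 h1 e1 X : ℝ) (hA : 1 ≤ A) (hJ : 0 ≤ J) (hZ : 0 ≤ Z)
    (hP : 0 ≤ P) (hθ : 1 ≤ θ) (hw : 0 ≤ w) (ha : 0 ≤ a) (hD : 0 ≤ D)
    (hδ : δL = a) (hB : B2 ≤ D) (hh : h1 ≤ D) (he : e1 * L = D) (hX : X ≤ w * D) :
    w * (4 * θ * δL + B2) * (5 / 2 * (J * Z) + 15 / 2 * (J * P) * ((A + 2) * (2 * A + 2)))
        + w * h1 * (5 * (J * Z)) + (3 * e1 * w) * L * (4 * (J * P) * (A + 4))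
        + X * ((J * P) * (3 * A + 8))
      ≤ (16 * θ * Z + 1000 * θ * P + 1) * (A ^ 2 * J) * (w * (a + D)) := by
  have hA2 : 1 ≤ A ^ 2 := one_le_pow₀ hA
  have hAA : A ≤ A ^ 2 := by
    calc A = A * 1 := by ring
      _ ≤ A * A := by gcongr
      _ = A ^ 2 := by ring
  have q1 : (A + 2) * (2 * A + 2) ≤ 12 * A ^ 2 := by
    calc (A + 2) * (2 * A + 2) ≤ (3 * A) * (4 * A) := by gcongr <;> linarith
      _ = 12 * A ^ 2 := by ring
  have q2 : A + 4 ≤ 5 * A ^ 2 := by linarith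
  have q3 : 3 * A + 8 ≤ 11 * A ^ 2 := by linarith
  have hwD : w * D ≤ w * (a + D) := by gcongr; linarith
  have hWD : 0 ≤ w * (a + D) := by positivity
  have hJA : 0 ≤ A ^ 2 * J := by positivity
  have t1 : w * (4 * θ * δL + B2) * (5 / 2 * (J * Z) + 15 / 2 * (J * P) * ((A + 2) * (2 * A + 2)))
      ≤ (10 * θ * Z + 360 * θ * P) * (A ^ 2 * J) * (w * (a + D)) := by
    have e1 : w * (4 * θ * δL + B2) ≤ 4 * θ * (w * (a + D)) := by
      rw [hδ]
      calc w * (4 * θ * a + B2) ≤ w * (4 * θ * a + 4 * θ * D) := by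
            gcongr
            calc B2 ≤ D := hB
              _ = 1 * D := by ring
              _ ≤ (4 * θ) * D := by gcongr; linarith
        _ = 4 * θ * (w * (a + D)) := by ring
    have e2 : 5 / 2 * (J * Z) + 15 / 2 * (J * P) * ((A + 2) * (2 * A + 2))
        ≤ (5 / 2 * Z + 90 * P) * (A ^ 2 * J) := by
      calc 5 / 2 * (J * Z) + 15 / 2 * (J * P) * ((A + 2) * (2 * A + 2))
          ≤ 5 / 2 * (J * Z) * A ^ 2 + 15 / 2 * (J * P) * (12 * A ^ 2) := by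
            refine add_le_add (le_mul_of_one_le_right (by positivity) hA2) ?_
            gcongr
        _ = _ := by ring
    calc w * (4 * θ * δL + B2) * (5 / 2 * (J * Z) + 15 / 2 * (J * P) * ((A + 2) * (2 * A + 2)))
        ≤ (4 * θ * (w * (a + D))) * ((5 / 2 * Z + 90 * P) * (A ^ 2 * J)) := by gcongr
      _ = _ := by ring
  have t2 : w * h1 * (5 * (J * Z)) ≤ (5 * Z) * (A ^ 2 * J) * (w * (a + D)) := by
    calc w * h1 * (5 * (J * Z)) ≤ w * D * (5 * (J * Z)) := by gcongr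
      _ ≤ (w * (a + D)) * (5 * (J * Z)) := by gcongr
      _ = (5 * Z) * J * (w * (a + D)) := by ring
      _ ≤ (5 * Z) * (A ^ 2 * J) * (w * (a + D)) := by
          gcongr
          exact le_mul_of_one_le_left hJ hA2
  have t3 : (3 * e1 * w) * L * (4 * (J * P) * (A + 4)) ≤ (60 * P) * (A ^ 2 * J) * (w * (a + D)) := by
    calc (3 * e1 * w) * L * (4 * (J * P) * (A + 4)) = 3 * (w * (e1 * L)) * (4 * (J * P) * (A + 4)) := by
          ring
      _ = 3 * (w * D) * (4 * (J * P) * (A + 4)) := by rw [he]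
      _ ≤ 3 * (w * (a + D)) * (4 * (J * P) * (5 * A ^ 2)) := by gcongr
      _ = _ := by ring
  have t4 : X * ((J * P) * (3 * A + 8)) ≤ (11 * P) * (A ^ 2 * J) * (w * (a + D)) := by
    calc X * ((J * P) * (3 * A + 8)) ≤ (w * D) * ((J * P) * (3 * A + 8)) := by gcongr
      _ ≤ (w * (a + D)) * ((J * P) * (11 * A ^ 2)) := by gcongr
      _ = _ := by ring
  have t5 : (10 * θ * Z + 360 * θ * P) * (A ^ 2 * J) * (w * (a + D))
        + (5 * Z) * (A ^ 2 * J) * (w * (a + D)) + (60 * P) * (A ^ 2 * J) * (w * (a + D))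
        + (11 * P) * (A ^ 2 * J) * (w * (a + D))
      = (10 * θ * Z + 360 * θ * P + 5 * Z + 71 * P) * (A ^ 2 * J) * (w * (a + D)) := by ring
  have t6 : 10 * θ * Z + 360 * θ * P + 5 * Z + 71 * P ≤ 16 * θ * Z + 1000 * θ * P + 1 := by
    have a1 : Z ≤ θ * Z := le_mul_of_one_le_left hZ hθ
    have a2 : P ≤ θ * P := le_mul_of_one_le_left hP hθ
    have a3 : 0 ≤ θ * Z := by positivity
    have a4 : 0 ≤ θ * P := by positivity
    linarith
  have t7 : (10 * θ * Z + 360 * θ * P + 5 * Z + 71 * P) * (A ^ 2 * J) * (w * (a + D))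
      ≤ (16 * θ * Z + 1000 * θ * P + 1) * (A ^ 2 * J) * (w * (a + D)) := by gcongr
  linarith

end Pool.Agent.helper57.HPT
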