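import Pool.Agent.helper57.HPT.RtA
import Pool.Agent.helper20.HP.Defs3

/-!
Quantitative macroscopic step of a skeleton (MP_5ae64c_pr, functional form, part C).
-/

open scoped BigOperators Topology
open Filter MeasureTheory

namespace Pool.Agent.helper57.HPT

open Pool.Agent.helper20.HP

theorem RtB_num1 (a w L q A J P r Z θ : ℝ) (hA : 1 ≤ A) (hJ : 0 ≤ J) (hP : 0 ≤ P) (hZ : 0 ≤ Z)
    (hθ : 1 ≤ θ) (hw0 : 0 ≤ w) (hL : 0 ≤ L) (hq : 0 < q) (ha0 : 0 ≤ a) (hr0 : 0 ≤ r) (ha : a ≤ w / q)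
    (hr : r + a ≤ A * L) (hwL : w ≤ L) : a * ((J * P) * (L + (r + w + a))) ≤
      (16 * θ * Z + 1000 * θ * P + 1) * (A ^ 2 * J) * (w * (a + L / q)) := by
  have hAA : A ≤ A ^ 2 := by
    calc A = A * 1 := by ring
      _ ≤ A * A := by gcongr
      _ = A ^ 2 := by ring
  have h3 : A + 2 ≤ 3 * A ^ 2 := by linarith
  have h4 : L + (r + w + a) ≤ (A + 2) * L := by linarith
  calc a * ((J * P) * (L + (r + w + a))) ≤ (w / q) * ((J * P) * ((A + 2) * L)) := by gcongr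
    _ ≤ (w / q) * ((J * P) * ((3 * A ^ 2) * L)) := by gcongr
    _ = (3 * P) * (A ^ 2 * J) * (w * (0 + L / q)) := by ring
    _ ≤ (16 * θ * Z + 1000 * θ * P + 1) * (A ^ 2 * J) * (w * (a + L / q)) := by
        gcongr
        have a2 : P ≤ θ * P := le_mul_of_one_le_left hP hθ
        have a3 : 0 ≤ θ * Z := by positivity
        linarith

theorem RtB_num2 (a w L D A J P r Z θ S1 S2 : ℝ) (hA : 1 ≤ A) (hJ : 0 ≤ J) (hP : 0 ≤ P) (hZ : 0 ≤ Z)
    (hθ : 1 ≤ θ) (hw0 : 0 ≤ w) (hL : 0 ≤ L) (hD : 0 ≤ D) (ha0 : 0 ≤ a)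
    (ha : L ≤ 64 * θ * a) (hr : r + a ≤ A * L) (hwL : w ≤ L) (h1 : 0 ≤ S1) (h2 : 0 ≤ S2)
    (h3 : S1 ≤ w * ((J * P) * (L + (r + w + a)))) (h4 : S2 ≤ w * ((J * P) * (L + (r + w + a)))) :
    |S1 - S2| ≤ (16 * θ * Z + 1000 * θ * P + 1) * (A ^ 2 * J) * (w * (a + D)) := by
  have hAA : A ≤ A ^ 2 := by
    calc A = A * 1 := by ring
      _ ≤ A * A := by gcongr
      _ = A ^ 2 := by ring
  have h5 : A + 2 ≤ 3 * A ^ 2 := by linarith
  have h6 : L + (r + w + a) ≤ (A + 2) * L := by linarith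
  have h7 : |S1 - S2| ≤ w * ((J * P) * (L + (r + w + a))) := by
    rw [abs_le]
    constructor <;> linarith
  refine h7.trans ?_
  calc w * ((J * P) * (L + (r + w + a))) ≤ w * ((J * P) * ((A + 2) * L)) := by gcongr
    _ ≤ w * ((J * P) * ((3 * A ^ 2) * (64 * θ * a))) := by gcongr
    _ = (192 * θ * P) * (A ^ 2 * J) * (w * (a + 0)) := by ring
    _ ≤ (16 * θ * Z + 1000 * θ * P + 1) * (A ^ 2 * J) * (w * (a + D)) := by
        gcongr
        have a3 : 0 ≤ θ * Z := by positivity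
        have a4 : 0 ≤ θ * P := by positivity
        linarith

section
variable {V : Type} [Fintype V] [DecidableEq V] {K : HW V} {θ : ℝ} {h : ℕ}

theorem RtB_win_le (hP : Par K θ h) (Γ : List V) (Rp : V → List V) {J : ℕ} (hΓ : Ok Γ Rp J)
    (s w b : ℕ) (hb : s + w ≤ b) :
    0 ≤ ∑ y ∈ Finset.range w, Phi K Γ Rp (s + y) ∧
    ∑ y ∈ Finset.range w, Phi K Γ Rp (s + y)
      ≤ w * (((J : ℝ) * CP θ) * ((Nat.sqrt (Fintype.card V) : ℝ) + b)) := by
  have hCP : 0 ≤ ((J : ℝ) * CP θ) := mul_nonneg (Nat.cast_nonneg _) (MacG_CP_nonneg hP)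
  refine ⟨Finset.sum_nonneg fun y _ => Phi_nonneg K Γ Rp _, ?_⟩
  have h1 : ∀ y ∈ Finset.range w, Phi K Γ Rp (s + y)
      ≤ ((J : ℝ) * CP θ) * ((Nat.sqrt (Fintype.card V) : ℝ) + b) := by
    intro y hy
    rw [Finset.mem_range] at hy
    refine (MacH_Phi_le hP Γ Rp hΓ (s + y)).trans ?_
    have h3 : ((s + y : ℕ) : ℝ) ≤ b := by exact_mod_cast (by omega)
    gcongr
  refine (Finset.sum_le_sum h1).trans ?_
  rw [Finset.sum_const, Finset.card_range, nsmul_eq_mul]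

end

theorem Rt_core (θ : ℝ) : ∃ C : ℝ, 1 ≤ C ∧ ∀ α : ℝ, 0 < α → α ≤ 1 / 4 → ∃ n0 : ℕ,
    ∀ (V : Type) [Fintype V] [DecidableEq V] (K : HW V) (h : ℕ), Par K θ h → n0 ≤ Fintype.card V →
    (h : ℝ) ≤ (Fintype.card V : ℝ) ^ (1 / 2 - α) →
    ∀ (Γ : List V) (Rp : V → List V) (J : ℕ), Ok Γ Rp J → ∀ A : ℝ, 1 ≤ A →
    (Γ.length : ℝ) ≤ A * Nat.sqrt (Fintype.card V) →
    ∀ r a w : ℕ, (Fintype.card V : ℝ) ^ (1 / 2 - α / 8) ≤ 2 * w →
      (w : ℝ) ≤ 2 * (Fintype.card V : ℝ) ^ (1 / 2 - α / 8) →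
      (r : ℝ) + a ≤ A * Nat.sqrt (Fintype.card V) →
    |∑ y ∈ Finset.range w, Phi K Γ Rp (r + a + y) - ∑ y ∈ Finset.range w, Phi K Γ Rp (r + y)|
      ≤ C * (A ^ 2 * J) *
        (w * (a + Nat.sqrt (Fintype.card V) / (Fintype.card V : ℝ) ^ (α / 16))) := by
  by_cases hθ : 1 ≤ θ
  swap
  · exact ⟨1, le_rfl, fun α _ _ => ⟨0, fun V _ _ K h hP => absurd hP.one_le hθ⟩⟩
  have hZ : 0 ≤ CZ θ := by unfold CZ; positivity
  have hPP : 0 ≤ CP θ := by unfold CP CZ; positivity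
  refine ⟨16 * θ * CZ θ + 1000 * θ * CP θ + 1, ?_, fun α hα hα' => ?_⟩
  · have a3 : 0 ≤ θ * CZ θ := by positivity
    have a4 : 0 ≤ θ * CP θ := by positivity
    linarith
  obtain ⟨n0, hn0⟩ := RtA_asym θ α hθ hα
  refine ⟨n0, fun V _ _ K h hP hn hh Γ Rp J hΓ A hA hΓA r a w hw1 hw2 hr => ?_⟩
  obtain ⟨n4, hq64, hexp⟩ := hn0 (Fintype.card V) hn
  obtain ⟨hpp, hp16, hx14, hu1, _⟩ := RtA_pow (Fintype.card V) α hα hα' (by omega)
  have hp0 : 0 < (Fintype.card V : ℝ) ^ (1 / 2 : ℝ) := by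
    apply Real.rpow_pos_of_pos
    have : 0 < Fintype.card V := by omega
    exact_mod_cast this
  obtain ⟨hL1, hL2, _⟩ := MacI_sqrt (Fintype.card V) n4 _ hp0 hpp
  obtain ⟨u, hu⟩ : ∃ u : ℝ, u = (Fintype.card V : ℝ) ^ (1 / 2 - α) := ⟨_, rfl⟩
  obtain ⟨q, hq⟩ : ∃ q : ℝ, q = (Fintype.card V : ℝ) ^ (α / 16) := ⟨_, rfl⟩
  rw [← hu, ← hq] at hp16 hx14
  rw [← hu] at hu1 hh
  rw [← hq] at hq64 hexp ⊢
  rw [hp16] at hL1 hL2 hpp
  rw [hx14] at hw1 hw2
  obtain ⟨B, hB⟩ : ∃ B : ℕ, B = ⌈u * q ^ 8⌉₊ := ⟨_, rfl⟩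
  have hq0 : 0 < q := by linarith
  have hu0 : 0 < u := by linarith
  have hB1 : u * q ^ 8 ≤ B := by rw [hB]; exact Nat.le_ceil _
  have hB2 : (B : ℝ) ≤ u * q ^ 8 + 1 := by
    rw [hB]; exact (Nat.ceil_lt_add_one (by positivity)).le
  have hh1 : (1 : ℝ) ≤ h := by exact_mod_cast hP.h_pos
  obtain ⟨z1, z2, z3, z4, z5, z6, z7, z8, z9, z10, z11, z12⟩ :=
    RtA_sizes u q (Nat.sqrt (Fintype.card V)) B w h hu1 hq64 hL1 hL2 hB1 hB2 hw1 hw2 hh1 hh
  have ha0 : (0 : ℝ) ≤ a := Nat.cast_nonneg a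
  have hr0 : (0 : ℝ) ≤ r := Nat.cast_nonneg r
  have hJ0 : (0 : ℝ) ≤ J := Nat.cast_nonneg J
  have hL0 : (0 : ℝ) ≤ Nat.sqrt (Fintype.card V) := Nat.cast_nonneg _
  have hLp : (0 : ℝ) < Nat.sqrt (Fintype.card V) := by linarith
  rcases Nat.lt_or_ge (4 * B) a with haB | haB
  · by_cases haL : 64 * θ * (a : ℝ) < Nat.sqrt (Fintype.card V)
    · -- the main case
      have hu8 : 1 ≤ u * q ^ 8 := one_le_mul_of_one_le_of_one_le hu1 (one_le_pow₀ (by linarith))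
      have hB1n : 1 ≤ B := by
        have : (1 : ℝ) ≤ B := by linarith
        exact_mod_cast this
      have hhn : 1 ≤ h := hP.h_pos
      have h8q : 8 * (h : ℝ) ≤ B := by
        have h64 : (8 : ℝ) ≤ q ^ 8 := by
          calc (8 : ℝ) ≤ 64 := by norm_num
            _ ≤ q := hq64
            _ = q ^ 1 := (pow_one q).symm
            _ ≤ q ^ 8 := pow_le_pow_right₀ (by linarith) (by norm_num)
        calc 8 * (h : ℝ) ≤ q ^ 8 * u := by gcongr
          _ = u * q ^ 8 := by ring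
          _ ≤ B := hB1
      have h8n : 8 * h ≤ B := by exact_mod_cast h8q
      obtain ⟨M, hM⟩ : ∃ M : ℕ, M = B / (8 * h) := ⟨_, rfl⟩
      have hM1 : 1 ≤ M := by
        rw [hM, Nat.one_le_div_iff (by omega)]; exact h8n
      have hMB : 8 * h * M ≤ B := by rw [hM]; exact Nat.mul_div_le B (8 * h)
      have hM2 : q ^ 8 / 8 ≤ (M : ℝ) + 1 := by
        have h1 : B < 8 * h * (M + 1) := by rw [hM]; exact Nat.lt_mul_div_succ B (by omega)
        have h2 : (B : ℝ) < ((8 * h * (M + 1) : ℕ) : ℝ) := by exact_mod_cast h1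
        push_cast at h2
        have h3 : u * q ^ 8 ≤ 8 * u * ((M : ℝ) + 1) := by
          calc u * q ^ 8 ≤ B := hB1
            _ ≤ 8 * h * ((M : ℝ) + 1) := h2.le
            _ ≤ 8 * u * ((M : ℝ) + 1) := by gcongr
        have h4 : u * (q ^ 8 / 8) ≤ u * ((M : ℝ) + 1) := by
          have e1 : u * (q ^ 8 / 8) = u * q ^ 8 / 8 := by ring
          have e2 : u * ((M : ℝ) + 1) = 8 * u * ((M : ℝ) + 1) / 8 := by ring
          rw [e1, e2]
          gcongr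
        exact le_of_mul_le_mul_left h4 hu0
      have hBp : (0 : ℝ) < B := by linarith
      have x0 : V := Classical.choice (Fintype.card_pos_iff.1 (by omega))
      have hE1 : (1 - 1 / (2 * θ)) ^ M ≤ 2 * Real.exp (-(1 / (16 * θ)) * q) := by
        have h1 := MacI_exp1 θ (1 / (16 * θ)) (q ^ 8) hθ M (by positivity) hM2 le_rfl
        refine h1.trans ?_
        have h2 : -(1 / (16 * θ)) * q ^ 8 ≤ -(1 / (16 * θ)) * q := by
          have h3 : q ≤ q ^ 8 := by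
            calc q = q ^ 1 := (pow_one q).symm
              _ ≤ q ^ 8 := pow_le_pow_right₀ (by linarith) (by norm_num)
          have h4 : 0 < 1 / (16 * θ) := by positivity
          have h5 : 1 / (16 * θ) * q ≤ 1 / (16 * θ) * q ^ 8 := by gcongr
          linarith
        have := Real.exp_le_exp.2 h2
        linarith
      have hE2 := RtA_exp2 u q (Nat.sqrt (Fintype.card V)) B w θ hu1 hq64 hθ hLp hBp hL1 z8 hw1
      have hpi := RtA_pi u q (Nat.sqrt (Fintype.card V)) B w θ _ _ (Fintype.card V) hu1 hq64 hLp hBp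
        hpp (Real.exp_pos _).le hE1 hL1 z8 z9 hexp _ hE2
      have hmain := MacH_core hP A (by linarith) Γ Rp hΓ hΓA x0 r a w M B hM1 hB1n hMB
        ((a : ℝ) / Nat.sqrt (Fintype.card V)) (1 / q)
        (by rw [div_mul_eq_mul_div, div_le_one hLp]; linarith)
        (by positivity) (by rw [div_le_div_iff₀ hq0 (by norm_num)]; linarith)
        (le_of_eq (div_mul_cancel₀ _ hLp.ne').symm) haB (by exact_mod_cast z1) hr
        (by exact_mod_cast z2) (by exact_mod_cast z3) z4 _ le_rfl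
      refine hmain.trans ?_
      have hsum := RtA_sum w a (Nat.sqrt (Fintype.card V)) (Nat.sqrt (Fintype.card V) / q) A J θ
        (CZ θ) (CP θ) (((a : ℝ) / Nat.sqrt (Fintype.card V)) * Nat.sqrt (Fintype.card V)) (2 * B)
        ((h : ℝ) + 1) (1 / q) _ hA hJ0 hZ hPP hθ z10.le ha0 (by positivity)
        (div_mul_cancel₀ _ hLp.ne') z5 z6 (by ring) hpi
      refine le_trans (le_of_eq ?_) hsum
      ring
    · -- the trivial case
      push Not at haL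
      obtain ⟨f1, f2⟩ := RtB_win_le hP Γ Rp hΓ (r + a) w (r + w + a) (by omega)
      obtain ⟨f3, f4⟩ := RtB_win_le hP Γ Rp hΓ r w (r + w + a) (by omega)
      push_cast at f2 f4
      exact RtB_num2 a w _ _ A J (CP θ) r (CZ θ) θ _ _ hA hJ0 hPP hZ hθ z10.le hL0 (by positivity) ha0
        haL hr z11 f1 f3 f2 f4
  · refine (MacH_small hP Γ Rp hΓ r a w).trans ?_
    have haB' : (a : ℝ) ≤ w / q := by
      have : (a : ℝ) ≤ 4 * B := by exact_mod_cast haB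
      linarith
    exact RtB_num1 a w _ q A J (CP θ) r (CZ θ) θ hA hJ0 hPP hZ hθ z10.le hL0 hq0 ha0 hr0 haB' hr z11

end Pool.Agent.helper57.HPT
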