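import Pool.Agent.helper57.HPT.RtB

/-!
Quantitative macroscopic step of a skeleton for all windows of length at least `n^(1/2-α/8)`
(MP_5ae64c_pr, functional form, part C).
-/

open scoped BigOperators Topology
open Filter MeasureTheory

namespace Pool.Agent.helper57.HPT

open Pool.Agent.helper20.HP

/-- splitting of windows -/
theorem RtC_split (F : ℕ → ℝ) (a v : ℕ) (X D L' : ℝ) (hv : 1 ≤ v) (hX : 0 ≤ X)
    (hbase : ∀ r w : ℕ, v ≤ w → w < 2 * v → (r : ℝ) + a + w ≤ L' →
      |∑ y ∈ Finset.range w, F (r + a + y) - ∑ y ∈ Finset.range w, F (r + y)| ≤ X * (w * D)) :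
    ∀ w r : ℕ, v ≤ w → (r : ℝ) + a + w ≤ L' →
      |∑ y ∈ Finset.range w, F (r + a + y) - ∑ y ∈ Finset.range w, F (r + y)| ≤ X * (w * D) := by
  intro w
  induction w using Nat.strong_induction_on with
  | _ w ih =>
    intro r hvw hr
    rcases Nat.lt_or_ge w (2 * v) with hlt | hge
    · exact hbase r w hvw hlt hr
    · obtain ⟨w', rfl⟩ : ∃ w', w = v + w' := ⟨w - v, by omega⟩
      push_cast at hr
      have hw' : v ≤ w' := by omega
      have hw0 : (0 : ℝ) ≤ w' := Nat.cast_nonneg _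
      have i1 := hbase r v le_rfl (by omega) (by linarith)
      have i2 := ih w' (by omega) (r + v) hw' (by push_cast; linarith)
      have s1 : ∑ y ∈ Finset.range (v + w'), F (r + a + y)
          = ∑ y ∈ Finset.range v, F (r + a + y) + ∑ y ∈ Finset.range w', F (r + v + a + y) := by
        rw [Finset.sum_range_add]
        congr 1
        refine Finset.sum_congr rfl fun y _ => ?_
        congr 1
        omega
      have s2 : ∑ y ∈ Finset.range (v + w'), F (r + y)
          = ∑ y ∈ Finset.range v, F (r + y) + ∑ y ∈ Finset.range w', F (r + v + y) := by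
        rw [Finset.sum_range_add]
        congr 1
        refine Finset.sum_congr rfl fun y _ => ?_
        congr 1
        omega
      rw [s1, s2]
      have e : X * (((v + w' : ℕ) : ℝ) * D) = X * (v * D) + X * (w' * D) := by push_cast; ring
      rw [e, abs_le]
      rw [abs_le] at i1 i2
      constructor <;> linarith

theorem Rt_all (θ : ℝ) : ∃ C : ℝ, 1 ≤ C ∧ ∀ α : ℝ, 0 < α → α ≤ 1 / 4 → ∃ n0 : ℕ,
    ∀ (V : Type) [Fintype V] [DecidableEq V] (K : HW V) (h : ℕ), Par K θ h → n0 ≤ Fintype.card V →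
    (h : ℝ) ≤ (Fintype.card V : ℝ) ^ (1 / 2 - α) →
    ∀ (Γ : List V) (Rp : V → List V) (J : ℕ), Ok Γ Rp J → ∀ A : ℝ, 1 ≤ A →
    (Γ.length : ℝ) ≤ A * Nat.sqrt (Fintype.card V) →
    ∀ r a w : ℕ, wd (Fintype.card V) α ≤ w →
      (r : ℝ) + a + w ≤ A * Nat.sqrt (Fintype.card V) →
    |∑ y ∈ Finset.range w, Phi K Γ Rp (r + a + y) - ∑ y ∈ Finset.range w, Phi K Γ Rp (r + y)|
      ≤ C * (A ^ 2 * J) *
        (w * (a + Nat.sqrt (Fintype.card V) / (Fintype.card V : ℝ) ^ (α / 16))) := by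
  obtain ⟨C, hC, hcore⟩ := Rt_core θ
  refine ⟨C, hC, fun α hα hα' => ?_⟩
  obtain ⟨n0, hn0⟩ := hcore α hα hα'
  refine ⟨n0 + 1, fun V _ _ K h hP hn hh Γ Rp J hΓ A hA hΓA r a w hw hr => ?_⟩
  have hn1 : (1 : ℝ) ≤ Fintype.card V := by
    have : 1 ≤ Fintype.card V := by omega
    exact_mod_cast this
  have hX1 : 1 ≤ (Fintype.card V : ℝ) ^ (1 / 2 - α / 8) := Real.one_le_rpow hn1 (by linarith)
  have hv1 : 1 ≤ wd (Fintype.card V) α := by
    unfold wd
    rw [Nat.one_le_floor_iff]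
    exact hX1
  have hva : (wd (Fintype.card V) α : ℝ) ≤ (Fintype.card V : ℝ) ^ (1 / 2 - α / 8) :=
    Nat.floor_le (by positivity)
  have hvb : (Fintype.card V : ℝ) ^ (1 / 2 - α / 8) < wd (Fintype.card V) α + 1 :=
    Nat.lt_floor_add_one _
  refine RtC_split (Phi K Γ Rp) a (wd (Fintype.card V) α) (C * (A ^ 2 * J)) _ _ hv1
    (by have : 0 ≤ C := by linarith
        positivity) (fun r w h1 h2 h3 => ?_) w r hw hr
  have h1' : (wd (Fintype.card V) α : ℝ) ≤ w := by exact_mod_cast h1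
  have h2' : (w : ℝ) ≤ 2 * wd (Fintype.card V) α := by exact_mod_cast h2.le
  have hv1' : (1 : ℝ) ≤ wd (Fintype.card V) α := by exact_mod_cast hv1
  have hw0 : (0 : ℝ) ≤ w := Nat.cast_nonneg _
  exact hn0 V K h hP (by omega) hh Γ Rp J hΓ A hA hΓA r a w (by linarith) (by linarith)
    (by linarith)

end Pool.Agent.helper57.HPT
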